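import Pool.Agent.TH38.RK.Stmts

/-!
# The action on the limit tree
-/

set_option autoImplicit false

open Filter Topology

namespace Pool.Agent.TH38.RK

namespace Act

lemma log_mul_le (hb : S_basic) (p q : PSL) :
    Real.log (NP (p * q)) ≤ Real.log (NP p) + Real.log (NP q) := by
  have h1 : 0 < NP p := lt_of_lt_of_le two_pos (hb.1 p)
  have h2 : 0 < NP q := lt_of_lt_of_le two_pos (hb.1 q)
  have h3 : 0 < NP (p * q) := lt_of_lt_of_le two_pos (hb.1 (p * q))
  rw [← Real.log_mul h1.ne' h2.ne']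
  exact Real.log_le_log h3 (hb.2.1 p q)

section
variable {G : Type} [Group G] {F : Ultrafilter ℕ} {ρ : ℕ → G →* PSL} {l : ℕ → ℝ} {x : ℕ → PSL}

/-- the displacement of every element is `O(l)` -/
lemma disp (hb : S_basic) {S : Finset G} (hS : Subgroup.closure (S : Set G) = ⊤)
    (hl : Tendsto l F atTop)
    (hC : ∃ C : ℝ, ∀ᶠ i in (F : Filter ℕ), ∀ s ∈ S,
      Real.log (NP ((x i)⁻¹ * ρ i s * x i)) ≤ C * l i) (g : G) :
    ∃ C : ℝ, ∀ᶠ i in (F : Filter ℕ), Real.log (NP ((x i)⁻¹ * ρ i g * x i)) ≤ C * l i := by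
  have hg : g ∈ Subgroup.closure (S : Set G) := by rw [hS]; exact Subgroup.mem_top g
  induction hg using Subgroup.closure_induction with
  | mem s hs =>
    obtain ⟨C, hC⟩ := hC
    exact ⟨C, hC.mono fun i hi => hi s hs⟩
  | one =>
    refine ⟨1, (hl.eventually_ge_atTop (Real.log (NP 1))).mono fun i hi => ?_⟩
    rw [map_one, mul_one, inv_mul_cancel, one_mul]
    exact hi
  | mul g h _ _ hg hh =>
    obtain ⟨C₁, h₁⟩ := hg
    obtain ⟨C₂, h₂⟩ := hh
    refine ⟨C₁ + C₂, (h₁.and h₂).mono fun i hi => ?_⟩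
    have e : (x i)⁻¹ * ρ i (g * h) * x i =
        ((x i)⁻¹ * ρ i g * x i) * ((x i)⁻¹ * ρ i h * x i) := by
      rw [map_mul]; group
    rw [e, add_mul]
    exact (log_mul_le hb _ _).trans (add_le_add hi.1 hi.2)
  | inv g _ hg =>
    obtain ⟨C, h⟩ := hg
    refine ⟨C, h.mono fun i hi => ?_⟩
    have e : (x i)⁻¹ * ρ i g⁻¹ * x i = ((x i)⁻¹ * ρ i g * x i)⁻¹ := by
      rw [map_inv]; group
    rw [e, hb.2.2]
    exact hi

/-- admissible sequences are moved to admissible sequences -/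
lemma adm (hb : S_basic) {g : G}
    (hg : ∃ C : ℝ, ∀ᶠ i in (F : Filter ℕ), Real.log (NP ((x i)⁻¹ * ρ i g * x i)) ≤ C * l i)
    (y : Adm F l x) : (fun i => ρ i g * y.1 i) ∈ Adm F l x := by
  obtain ⟨C₁, h₁⟩ := hg
  obtain ⟨C₂, h₂⟩ := y.2
  refine ⟨C₁ + C₂, (h₁.and h₂).mono fun i hi => ?_⟩
  have e : (x i)⁻¹ * (ρ i g * y.1 i) = ((x i)⁻¹ * ρ i g * x i) * ((x i)⁻¹ * y.1 i) := by group
  rw [e, add_mul]
  exact (log_mul_le hb _ _).trans (add_le_add hi.1 hi.2)

end

end Act

theorem action (hb : S_basic) : S_action := by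
  intro G _ S hS F ρ l x hl hC T _ π hπ hd
  have hdis := Act.disp hb hS hl hC
  let act : G → Adm F l x → Adm F l x := fun g y => ⟨fun i => ρ i g * y.1 i, Act.adm hb (hdis g) y⟩
  have hact : ∀ g y, act g y = ⟨fun i => ρ i g * y.1 i, Act.adm hb (hdis g) y⟩ := fun _ _ => rfl
  have hiso : ∀ g y z, dist (π (act g y)) (π (act g z)) = dist (π y) (π z) := by
    intro g y z
    have h1 := hd (act g y) (act g z)
    have h2 := hd y z
    have e : (fun i => Real.log (NP (((act g y).1 i)⁻¹ * (act g z).1 i)) / l i) =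
        fun i => Real.log (NP ((y.1 i)⁻¹ * z.1 i)) / l i := by
      funext i
      have e1 : ((act g y).1 i)⁻¹ * (act g z).1 i = (y.1 i)⁻¹ * z.1 i := by
        change (ρ i g * y.1 i)⁻¹ * (ρ i g * z.1 i) = _
        group
      rw [e1]
    rw [e] at h1
    exact tendsto_nhds_unique h1 h2
  let f : G → T → T := fun g t => π (act g (Function.surjInv hπ t))
  have hf : ∀ g y, f g (π y) = π (act g y) := by
    intro g y
    have h1 := hiso g (Function.surjInv hπ (π y)) y
    rw [Function.surjInv_eq hπ (π y), dist_self] at h1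
    exact eq_of_dist_eq_zero h1
  have hmul : ∀ g h t, f (g * h) t = f g (f h t) := by
    intro g h t
    obtain ⟨y, rfl⟩ := hπ t
    rw [hf (g * h) y, hf h y, hf g (act h y)]
    congr 1
    refine Subtype.ext (funext fun i => ?_)
    change ρ i (g * h) * y.1 i = ρ i g * (ρ i h * y.1 i)
    rw [map_mul, mul_assoc]
  have hone : ∀ t, f 1 t = t := by
    intro t
    obtain ⟨y, rfl⟩ := hπ t
    rw [hf]
    congr 1
    refine Subtype.ext (funext fun i => ?_)
    change ρ i 1 * y.1 i = y.1 i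
    rw [map_one, one_mul]
  have hdist : ∀ g s t, dist (f g s) (f g t) = dist s t := by
    intro g s t
    obtain ⟨y, rfl⟩ := hπ s
    obtain ⟨z, rfl⟩ := hπ t
    rw [hf, hf, hiso]
  let e : G → (T ≃ᵢ T) := fun g =>
    { toFun := f g
      invFun := f g⁻¹
      left_inv := fun t => by rw [← hmul, inv_mul_cancel, hone]
      right_inv := fun t => by rw [← hmul, mul_inv_cancel, hone]
      isometry_toFun := Isometry.of_dist_eq (hdist g) }
  refine ⟨MonoidHom.mk' e fun g h => IsometryEquiv.ext fun t => hmul g h t, fun g y =>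
    ⟨act g y, fun i => rfl, hf g y⟩⟩

end Pool.Agent.TH38.RK
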