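import Pool.Agent.TH38.RK.Stmts

/-!
# Commutators of elements that almost fix two distant points
-/

set_option autoImplicit false

open Filter Topology

namespace Pool.Agent.TH38.RK

namespace Arc

theorem N_eq (g : SL) : N g = ‖(g : Mat) 0 0‖ ^ 2 + ‖(g : Mat) 0 1‖ ^ 2 +
    (‖(g : Mat) 1 0‖ ^ 2 + ‖(g : Mat) 1 1‖ ^ 2) := by
  unfold N
  rw [Fin.sum_univ_two, Fin.sum_univ_two, Fin.sum_univ_two]

theorem N_nonneg (g : SL) : 0 ≤ N g := by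
  rw [N_eq]
  positivity

/-- the entries of an element that almost fixes two points on the axis -/
theorem ent {r : ℝ} (hr : 1 ≤ r) (D a : SL)
    (hD : (D : Mat) = !![(r : ℂ), 0; 0, (r : ℂ)⁻¹]) {E : ℝ}
    (h1 : N (D * a * D⁻¹) ≤ E) (h2 : N (D⁻¹ * a * D) ≤ E) :
    ‖(a : Mat) 0 0‖ ≤ √E ∧ ‖(a : Mat) 1 1‖ ≤ √E ∧ ‖(a : Mat) 0 1‖ ≤ √E / r ^ 2 ∧
      ‖(a : Mat) 1 0‖ ≤ √E / r ^ 2 := by
  have hr0 : 0 < r := by linarith
  have hrc : (r : ℂ) ≠ 0 := by exact_mod_cast hr0.ne'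
  have hDi : ((D⁻¹ : SL) : Mat) = !![(r : ℂ)⁻¹, 0; 0, (r : ℂ)] := by
    rw [Matrix.SpecialLinearGroup.coe_inv, hD, Matrix.adjugate_fin_two]
    ext i j
    fin_cases i <;> fin_cases j <;> simp
  have m1 : ((D * a * D⁻¹ : SL) : Mat) = !![(a : Mat) 0 0, (r : ℂ) ^ 2 * (a : Mat) 0 1;
      (a : Mat) 1 0 / (r : ℂ) ^ 2, (a : Mat) 1 1] := by
    rw [Matrix.SpecialLinearGroup.coe_mul, Matrix.SpecialLinearGroup.coe_mul, hD, hDi]
    conv_lhs => rw [Matrix.eta_fin_two (a : Mat), Matrix.mul_fin_two, Matrix.mul_fin_two]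
    ext i j
    fin_cases i <;> fin_cases j <;> simp <;> field_simp
  have m2 : ((D⁻¹ * a * D : SL) : Mat) = !![(a : Mat) 0 0, (a : Mat) 0 1 / (r : ℂ) ^ 2;
      (r : ℂ) ^ 2 * (a : Mat) 1 0, (a : Mat) 1 1] := by
    rw [Matrix.SpecialLinearGroup.coe_mul, Matrix.SpecialLinearGroup.coe_mul, hD, hDi]
    conv_lhs => rw [Matrix.eta_fin_two (a : Mat), Matrix.mul_fin_two, Matrix.mul_fin_two]
    ext i j
    fin_cases i <;> fin_cases j <;> simp <;> field_simp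
  rw [N_eq, m1] at h1
  rw [N_eq, m2] at h2
  simp only [Matrix.of_apply, Matrix.cons_val', Matrix.cons_val_zero, Matrix.cons_val_one,
    Matrix.cons_val_fin_one] at h1 h2
  have hE : 0 ≤ E := le_trans (by positivity) h1
  have key : ∀ z : ℂ, ‖z‖ ^ 2 ≤ E → ‖z‖ ≤ √E := fun z hz => Real.le_sqrt_of_sq_le hz
  refine ⟨key _ ?_, key _ ?_, ?_, ?_⟩
  · nlinarith [sq_nonneg ‖(r : ℂ) ^ 2 * (a : Mat) 0 1‖, sq_nonneg ‖(a : Mat) 1 0 / (r : ℂ) ^ 2‖,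
      sq_nonneg ‖(a : Mat) 1 1‖]
  · nlinarith [sq_nonneg ‖(r : ℂ) ^ 2 * (a : Mat) 0 1‖, sq_nonneg ‖(a : Mat) 1 0 / (r : ℂ) ^ 2‖,
      sq_nonneg ‖(a : Mat) 0 0‖]
  · have h3 : ‖(r : ℂ) ^ 2 * (a : Mat) 0 1‖ ≤ √E := key _ (by
      nlinarith [sq_nonneg ‖(a : Mat) 0 0‖, sq_nonneg ‖(a : Mat) 1 0 / (r : ℂ) ^ 2‖,
        sq_nonneg ‖(a : Mat) 1 1‖])
    rw [norm_mul, norm_pow, Complex.norm_real, Real.norm_eq_abs, abs_of_pos hr0] at h3
    rw [le_div_iff₀ (by positivity)]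
    linarith
  · have h3 : ‖(r : ℂ) ^ 2 * (a : Mat) 1 0‖ ≤ √E := key _ (by
      nlinarith [sq_nonneg ‖(a : Mat) 0 0‖, sq_nonneg ‖(a : Mat) 0 1 / (r : ℂ) ^ 2‖,
        sq_nonneg ‖(a : Mat) 1 1‖])
    rw [norm_mul, norm_pow, Complex.norm_real, Real.norm_eq_abs, abs_of_pos hr0] at h3
    rw [le_div_iff₀ (by positivity)]
    linarith

/-- products of entries -/
theorem mul_le {x y : ℂ} {u v B : ℝ} (hx : ‖x‖ ≤ u) (hy : ‖y‖ ≤ v) (hB : u * v ≤ B) :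
    ‖x * y‖ ≤ B := by
  rw [norm_mul]
  exact (mul_le_mul hx hy (norm_nonneg _) ((norm_nonneg _).trans hx)).trans hB

theorem comm_entry {s E : ℝ} (hs : 1 ≤ s) (hE : 0 ≤ E) (a b : SL)
    (ha : ‖(a : Mat) 0 0‖ ≤ √E ∧ ‖(a : Mat) 1 1‖ ≤ √E ∧ ‖(a : Mat) 0 1‖ ≤ √E / s ∧
      ‖(a : Mat) 1 0‖ ≤ √E / s)
    (hb : ‖(b : Mat) 0 0‖ ≤ √E ∧ ‖(b : Mat) 1 1‖ ≤ √E ∧ ‖(b : Mat) 0 1‖ ≤ √E / s ∧
      ‖(b : Mat) 1 0‖ ≤ √E / s) (i j : Fin 2) :
    ‖((a * b * a⁻¹ * b⁻¹ : SL) : Mat) i j - (1 : Mat) i j‖ ≤ 16 * E ^ 2 / s := by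
  obtain ⟨a1, a2, a3, a4⟩ := ha
  obtain ⟨b1, b2, b3, b4⟩ := hb
  have hs0 : 0 < s := by linarith
  have hq := Real.mul_self_sqrt hE
  have hq0 := Real.sqrt_nonneg E
  have h11 : √E * √E ≤ E := hq.le
  have hEs : E / s ≤ E := div_le_self hE hs
  have h12 : √E * (√E / s) ≤ E / s := by
    rw [← mul_div_assoc, hq]
  have h21 : √E / s * √E ≤ E / s := by
    rw [div_mul_eq_mul_div, hq]
  have h22 : √E / s * (√E / s) ≤ E / s := by
    have : √E / s ≤ √E := div_le_self hq0 hs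
    calc √E / s * (√E / s) ≤ √E * (√E / s) :=
          mul_le_mul_of_nonneg_right this (by positivity)
      _ ≤ _ := h12
  set U : Mat := (a : Mat) * b - (b : Mat) * a with hU
  set W : Mat := ((a⁻¹ * b⁻¹ : SL) : Mat) with hW
  have hai : ((a⁻¹ : SL) : Mat) = !![(a : Mat) 1 1, -(a : Mat) 0 1; -(a : Mat) 1 0, (a : Mat) 0 0] := by
    rw [Matrix.SpecialLinearGroup.coe_inv, Matrix.adjugate_fin_two]
  have hbi : ((b⁻¹ : SL) : Mat) = !![(b : Mat) 1 1, -(b : Mat) 0 1; -(b : Mat) 1 0, (b : Mat) 0 0] := by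
    rw [Matrix.SpecialLinearGroup.coe_inv, Matrix.adjugate_fin_two]
  have hc : ((a * b * a⁻¹ * b⁻¹ : SL) : Mat) - 1 = U * W := by
    rw [hU, hW, sub_mul, ← Matrix.SpecialLinearGroup.coe_mul, ← Matrix.SpecialLinearGroup.coe_mul,
      ← Matrix.SpecialLinearGroup.coe_mul, ← Matrix.SpecialLinearGroup.coe_mul]
    have e1 : a * b * (a⁻¹ * b⁻¹) = a * b * a⁻¹ * b⁻¹ := by group
    have e2 : b * a * (a⁻¹ * b⁻¹) = 1 := by group
    rw [e1, e2, Matrix.SpecialLinearGroup.coe_one]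
  have hUb : ∀ i j, ‖U i j‖ ≤ 4 * (E / s) := by
    intro i j
    have hE0 : 0 ≤ E / s := by positivity
    have e : U i j = (a : Mat) i 0 * (b : Mat) 0 j + (a : Mat) i 1 * (b : Mat) 1 j -
        ((b : Mat) i 0 * (a : Mat) 0 j + (b : Mat) i 1 * (a : Mat) 1 j) := by
      rw [hU, Matrix.sub_apply, Matrix.mul_apply, Matrix.mul_apply, Fin.sum_univ_two,
        Fin.sum_univ_two]
    rw [e]
    fin_cases i <;> fin_cases j
    · have e2 : (a : Mat) 0 0 * (b : Mat) 0 0 + (a : Mat) 0 1 * (b : Mat) 1 0 -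
          ((b : Mat) 0 0 * (a : Mat) 0 0 + (b : Mat) 0 1 * (a : Mat) 1 0) =
          (a : Mat) 0 1 * (b : Mat) 1 0 - (b : Mat) 0 1 * (a : Mat) 1 0 := by ring
      have k1 := mul_le a3 b4 h22
      have k2 := mul_le b3 a4 h22
      have k3 := norm_sub_le ((a : Mat) 0 1 * (b : Mat) 1 0) ((b : Mat) 0 1 * (a : Mat) 1 0)
      change ‖(a : Mat) 0 0 * (b : Mat) 0 0 + (a : Mat) 0 1 * (b : Mat) 1 0 -
          ((b : Mat) 0 0 * (a : Mat) 0 0 + (b : Mat) 0 1 * (a : Mat) 1 0)‖ ≤ _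
      rw [e2]
      linarith
    · change ‖(a : Mat) 0 0 * (b : Mat) 0 1 + (a : Mat) 0 1 * (b : Mat) 1 1 -
          ((b : Mat) 0 0 * (a : Mat) 0 1 + (b : Mat) 0 1 * (a : Mat) 1 1)‖ ≤ _
      have k1 := mul_le a1 b3 h12
      have k2 := mul_le a3 b2 h21
      have k3 := mul_le b1 a3 h12
      have k4 := mul_le b3 a2 h21
      have k5 := norm_add_le ((a : Mat) 0 0 * (b : Mat) 0 1) ((a : Mat) 0 1 * (b : Mat) 1 1)
      have k6 := norm_add_le ((b : Mat) 0 0 * (a : Mat) 0 1) ((b : Mat) 0 1 * (a : Mat) 1 1)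
      refine (norm_sub_le _ _).trans ?_
      linarith
    · change ‖(a : Mat) 1 0 * (b : Mat) 0 0 + (a : Mat) 1 1 * (b : Mat) 1 0 -
          ((b : Mat) 1 0 * (a : Mat) 0 0 + (b : Mat) 1 1 * (a : Mat) 1 0)‖ ≤ _
      have k1 := mul_le a4 b1 h21
      have k2 := mul_le a2 b4 h12
      have k3 := mul_le b4 a1 h21
      have k4 := mul_le b2 a4 h12
      have k5 := norm_add_le ((a : Mat) 1 0 * (b : Mat) 0 0) ((a : Mat) 1 1 * (b : Mat) 1 0)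
      have k6 := norm_add_le ((b : Mat) 1 0 * (a : Mat) 0 0) ((b : Mat) 1 1 * (a : Mat) 1 0)
      refine (norm_sub_le _ _).trans ?_
      linarith
    · have e2 : (a : Mat) 1 0 * (b : Mat) 0 1 + (a : Mat) 1 1 * (b : Mat) 1 1 -
          ((b : Mat) 1 0 * (a : Mat) 0 1 + (b : Mat) 1 1 * (a : Mat) 1 1) =
          (a : Mat) 1 0 * (b : Mat) 0 1 - (b : Mat) 1 0 * (a : Mat) 0 1 := by ring
      have k1 := mul_le a4 b3 h22
      have k2 := mul_le b4 a3 h22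
      have k3 := norm_sub_le ((a : Mat) 1 0 * (b : Mat) 0 1) ((b : Mat) 1 0 * (a : Mat) 0 1)
      change ‖(a : Mat) 1 0 * (b : Mat) 0 1 + (a : Mat) 1 1 * (b : Mat) 1 1 -
          ((b : Mat) 1 0 * (a : Mat) 0 1 + (b : Mat) 1 1 * (a : Mat) 1 1)‖ ≤ _
      rw [e2]
      linarith
  have hWb : ∀ i j, ‖W i j‖ ≤ 2 * E := by
    intro i j
    have e : W i j = ((a⁻¹ : SL) : Mat) i 0 * ((b⁻¹ : SL) : Mat) 0 j +
        ((a⁻¹ : SL) : Mat) i 1 * ((b⁻¹ : SL) : Mat) 1 j := by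
      rw [hW, Matrix.SpecialLinearGroup.coe_mul, Matrix.mul_apply, Fin.sum_univ_two]
    have hl : √E / s ≤ √E := div_le_self hq0 hs
    have haE : ∀ i j, ‖((a⁻¹ : SL) : Mat) i j‖ ≤ √E := by
      intro i j
      rw [hai]
      fin_cases i <;> fin_cases j
      · exact a2
      · show ‖-(a : Mat) 0 1‖ ≤ √E
        rw [norm_neg]
        exact a3.trans hl
      · show ‖-(a : Mat) 1 0‖ ≤ √E
        rw [norm_neg]
        exact a4.trans hl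
      · exact a1
    have hbE : ∀ i j, ‖((b⁻¹ : SL) : Mat) i j‖ ≤ √E := by
      intro i j
      rw [hbi]
      fin_cases i <;> fin_cases j
      · exact b2
      · show ‖-(b : Mat) 0 1‖ ≤ √E
        rw [norm_neg]
        exact b3.trans hl
      · show ‖-(b : Mat) 1 0‖ ≤ √E
        rw [norm_neg]
        exact b4.trans hl
      · exact b1
    rw [e]
    refine (norm_add_le _ _).trans ?_
    have k1 := mul_le (haE i 0) (hbE 0 j) h11
    have k2 := mul_le (haE i 1) (hbE 1 j) h11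
    linarith
  have hent : ((a * b * a⁻¹ * b⁻¹ : SL) : Mat) i j - (1 : Mat) i j = U i 0 * W 0 j + U i 1 * W 1 j := by
    have := congrFun (congrFun hc i) j
    rw [Matrix.sub_apply, Matrix.mul_apply, Fin.sum_univ_two] at this
    exact this
  rw [hent]
  refine (norm_add_le _ _).trans ?_
  have k0 : 4 * (E / s) * (2 * E) ≤ 8 * E ^ 2 / s := by
    apply le_of_eq
    ring
  have k1 := mul_le (hUb i 0) (hWb 0 j) k0
  have k2 := mul_le (hUb i 1) (hWb 1 j) k0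
  have k3 : 8 * E ^ 2 / s + 8 * E ^ 2 / s = 16 * E ^ 2 / s := by ring
  linarith

end Arc

open Arc in
theorem arc (hk : S_kak) : S_arc := by
  refine ⟨24, by norm_num, ?_⟩
  intro p q
  obtain ⟨P, rfl⟩ := QuotientGroup.mk_surjective p
  obtain ⟨Q, rfl⟩ := QuotientGroup.mk_surjective q
  obtain ⟨k, k', d, s, hs, hNk, hNk', hd, hg⟩ := hk (P⁻¹ * Q)
  have hs0 : 0 < s := by linarith
  set r : ℝ := √s with hr
  have hr1 : 1 ≤ r := Real.one_le_sqrt.2 hs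
  have hr0 : 0 < r := by linarith
  have hrr : r ^ 2 = s := Real.sq_sqrt hs0.le
  have hrc : (r : ℂ) ≠ 0 := by exact_mod_cast hr0.ne'
  set D : SL := ⟨!![(r : ℂ), 0; 0, (r : ℂ)⁻¹], by
    rw [Matrix.det_fin_two_of, mul_inv_cancel₀ hrc]
    ring⟩ with hDdef
  have hD : (D : Mat) = !![(r : ℂ), 0; 0, (r : ℂ)⁻¹] := rfl
  have hDD : D * D = d := by
    apply Subtype.ext
    rw [Matrix.SpecialLinearGroup.coe_mul, hD, hd, ← hrr]
    ext i j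
    fin_cases i <;> fin_cases j <;> simp [pow_two]
  set M : SL := P * k * D with hM
  have hQ : Q = M * D * k' := by
    have : Q = P * (P⁻¹ * Q) := by group
    rw [this, hg, hM, ← hDD]
    group
  have c1 : ∀ h : SL, N (k * h * k⁻¹) = N h := by
    intro h
    rw [mul_assoc, (hNk (h * k⁻¹)).1]
    have := (hNk (h * k⁻¹)).2
    rw [inv_mul_cancel_right] at this
    exact this.symm
  have c2 : ∀ h : SL, N (k'⁻¹ * h * k') = N h := by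
    intro h
    rw [(hNk' (k'⁻¹ * h)).2]
    have := (hNk' (k'⁻¹ * h)).1
    rw [mul_inv_cancel_left] at this
    exact this.symm
  have hent : ∀ (A : SL) (E : ℝ), NP ((mk P)⁻¹ * mk A * mk P) ≤ E →
      NP ((mk Q)⁻¹ * mk A * mk Q) ≤ E →
      0 ≤ E ∧ ‖((M⁻¹ * A * M : SL) : Mat) 0 0‖ ≤ √E ∧ ‖((M⁻¹ * A * M : SL) : Mat) 1 1‖ ≤ √E ∧
        ‖((M⁻¹ * A * M : SL) : Mat) 0 1‖ ≤ √E / s ∧
        ‖((M⁻¹ * A * M : SL) : Mat) 1 0‖ ≤ √E / s := by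
    intro A E h1 h2
    have e1 : (mk P)⁻¹ * mk A * mk P = mk (P⁻¹ * A * P) := rfl
    have e2 : (mk Q)⁻¹ * mk A * mk Q = mk (Q⁻¹ * A * Q) := rfl
    rw [e1, NP_mk] at h1
    rw [e2, NP_mk] at h2
    have e3 : P⁻¹ * A * P = k * (D * (M⁻¹ * A * M) * D⁻¹) * k⁻¹ := by
      rw [hM]
      group
    have e4 : Q⁻¹ * A * Q = k'⁻¹ * (D⁻¹ * (M⁻¹ * A * M) * D) * k' := by
      rw [hQ]
      group
    rw [e3, c1] at h1
    rw [e4, c2] at h2
    refine ⟨(N_nonneg _).trans h1, ?_⟩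
    have h3 := ent hr1 D (M⁻¹ * A * M) hD h1 h2
    rw [hrr] at h3
    exact h3
  refine ⟨mk M, fun α β E ε h1 h2 h3 h4 h5 => ?_⟩
  obtain ⟨A, rfl⟩ := QuotientGroup.mk_surjective α
  obtain ⟨B, rfl⟩ := QuotientGroup.mk_surjective β
  obtain ⟨hE, ha⟩ := hent A E h1 h2
  obtain ⟨_, hb⟩ := hent B E h3 h4
  refine ⟨(M⁻¹ * A * M) * (M⁻¹ * B * M) * (M⁻¹ * A * M)⁻¹ * (M⁻¹ * B * M)⁻¹, ?_, fun i j => ?_⟩
  · have e5 : (M⁻¹ * A * M) * (M⁻¹ * B * M) * (M⁻¹ * A * M)⁻¹ * (M⁻¹ * B * M)⁻¹ =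
        M⁻¹ * (A * B * A⁻¹ * B⁻¹) * M := by group
    rw [e5]
    rfl
  · refine lt_of_le_of_lt (comm_entry hs hE _ _ ha hb i j) ?_
    -- the distance
    have e6 : NP ((mk P)⁻¹ * mk Q) = s ^ 2 + (s⁻¹) ^ 2 := by
      have e7 : (mk P)⁻¹ * mk Q = mk (P⁻¹ * Q) := rfl
      rw [e7, NP_mk, hg, (hNk' (k * d)).2, (hNk d).1, N_eq, hd]
      simp only [Matrix.of_apply, Matrix.cons_val', Matrix.cons_val_zero, Matrix.cons_val_one,
        Matrix.cons_val_fin_one, norm_zero, norm_inv, Complex.norm_real, Real.norm_eq_abs,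
        abs_of_pos hs0]
      ring
    have e8 : √(NP ((mk P)⁻¹ * mk Q)) ≤ 3 / 2 * s := by
      rw [e6]
      apply Real.sqrt_le_iff.2
      refine ⟨by positivity, ?_⟩
      have e9 : s⁻¹ ≤ 1 := inv_le_one_of_one_le₀ hs
      have e10 : 0 < s⁻¹ := inv_pos.2 hs0
      nlinarith
    have e11 : 0 ≤ √(NP ((mk P)⁻¹ * mk Q)) := Real.sqrt_nonneg _
    have hE2 : 0 ≤ 24 * E ^ 2 := by positivity
    have hε : 0 < ε := by
      by_contra hcon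
      push Not at hcon
      have : ε * √(NP ((mk P)⁻¹ * mk Q)) ≤ 0 := mul_nonpos_of_nonpos_of_nonneg hcon e11
      have h5' : 24 * E ^ 2 < ε * √(NP ((mk P)⁻¹ * mk Q)) := h5
      linarith
    have h5' : 24 * E ^ 2 < ε * √(NP ((mk P)⁻¹ * mk Q)) := h5
    have e12 := mul_le_mul_of_nonneg_left e8 hε.le
    rw [div_lt_iff₀ hs0]
    nlinarith

end Pool.Agent.TH38.RK
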