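import Pool.Agent.TH38.RK.Stmts

/-!
# The limit of a bounded sequence of discrete representations
-/

set_option autoImplicit false

open Filter Topology

namespace Pool.Agent.TH38.RK.Bdd

open Pool.Agent.TH38.RK

lemma isClosed_center : IsClosed ((Subgroup.center SL : Subgroup SL) : Set SL) := by
  have h : ((Subgroup.center SL : Subgroup SL) : Set SL) =
      ⋂ h : SL, {g : SL | h * g = g * h} := by
    ext g
    simp only [SetLike.mem_coe, Subgroup.mem_center_iff, Set.mem_iInter, Set.mem_ofPred_eq]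
  rw [h]
  refine isClosed_iInter fun h => isClosed_eq ?_ ?_
  · fun_prop
  · fun_prop

instance : IsClosed ((Subgroup.center SL : Subgroup SL) : Set SL) := isClosed_center

instance : T2Space PSL := inferInstance

lemma isCompact_N (C : ℝ) : IsCompact {g : SL | N g ≤ C} := by
  have h1 : IsCompact {M : Mat | ∑ i, ∑ j, ‖M i j‖ ^ 2 ≤ C} := by
    have h2 : IsCompact (Set.univ.pi fun _ : Fin 2 => Set.univ.pi fun _ : Fin 2 =>
        Metric.closedBall (0 : ℂ) (√C)) :=
      isCompact_univ_pi fun _ => isCompact_univ_pi fun _ => isCompact_closedBall _ _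
    refine IsCompact.of_isClosed_subset h2 ?_ ?_
    · refine isClosed_le ?_ continuous_const
      refine continuous_finsetSum _ fun i _ => continuous_finsetSum _ fun j _ => ?_
      exact (((continuous_apply j).comp (continuous_apply i)).norm.pow 2)
    · intro M hM i _ j _
      rw [mem_closedBall_zero_iff]
      apply Real.le_sqrt_of_sq_le
      have h3 : ‖M i j‖ ^ 2 ≤ ∑ j, ‖M i j‖ ^ 2 :=
        Finset.single_le_sum (f := fun j => ‖M i j‖ ^ 2) (fun j _ => sq_nonneg _)
          (Finset.mem_univ j)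
      have h4 : ∑ j, ‖M i j‖ ^ 2 ≤ ∑ i, ∑ j, ‖M i j‖ ^ 2 :=
        Finset.single_le_sum (f := fun i => ∑ j, ‖M i j‖ ^ 2)
          (fun i _ => Finset.sum_nonneg fun j _ => sq_nonneg _) (Finset.mem_univ i)
      exact h3.trans (h4.trans hM)
  exact (Matrix.SpecialLinearGroup.isClosedEmbedding_val (n := Fin 2) (R := ℂ)).isCompact_preimage
    h1

lemma isCompact_NP (C : ℝ) : IsCompact {p : PSL | NP p ≤ C} := by
  have h : {p : PSL | NP p ≤ C} = (QuotientGroup.mk : SL → PSL) '' {g : SL | N g ≤ C} := by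
    ext p
    constructor
    · intro hp
      obtain ⟨g, rfl⟩ := QuotientGroup.mk_surjective p
      exact ⟨g, hp, rfl⟩
    · rintro ⟨g, hg, rfl⟩
      exact hg
  rw [h]
  exact (isCompact_N C).image QuotientGroup.continuous_mk

lemma isOpen_near (ε : ℝ) : IsOpen {p : PSL | Near ε p} := by
  have h : {p : PSL | Near ε p} = (QuotientGroup.mk : SL → PSL) ''
      {γ : SL | ∀ i j, ‖(γ : Mat) i j - (1 : Mat) i j‖ < ε} := by
    ext p
    constructor
    · rintro ⟨γ, h1, h2⟩
      exact ⟨γ, h2, h1⟩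
    · rintro ⟨γ, h1, h2⟩
      exact ⟨γ, h2, h1⟩
  rw [h]
  apply QuotientGroup.isOpenMap_coe
  have h2 : {γ : SL | ∀ i j, ‖(γ : Mat) i j - (1 : Mat) i j‖ < ε} =
      ⋂ i, ⋂ j, {γ : SL | ‖(γ : Mat) i j - (1 : Mat) i j‖ < ε} := by
    ext γ
    simp only [Set.mem_ofPred_eq, Set.mem_iInter]
  rw [h2]
  refine isOpen_iInter_of_finite fun i => isOpen_iInter_of_finite fun j => ?_
  refine isOpen_lt ?_ continuous_const
  have h3 : Continuous fun γ : SL => (γ : Mat) := continuous_subtype_val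
  exact (((continuous_apply j).comp ((continuous_apply i).comp h3)).sub continuous_const).norm

lemma mat_nhds {U : Set Mat} (hU : U ∈ 𝓝 (1 : Mat)) :
    ∃ ε : ℝ, 0 < ε ∧ ∀ M : Mat, (∀ i j, ‖M i j - (1 : Mat) i j‖ < ε) → M ∈ U := by
  obtain ⟨ε, hε, hb⟩ := (Metric.mem_nhds_iff (α := Fin 2 → Fin 2 → ℂ)
    (x := fun i j => (1 : Mat) i j) (s := U)).mp hU
  refine ⟨ε, hε, fun M hM => ?_⟩
  have h1 : (fun i j => M i j) ∈ Metric.ball (fun i j => (1 : Mat) i j) ε := by
    rw [Metric.mem_ball, dist_pi_lt_iff hε]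
    intro i
    rw [dist_pi_lt_iff hε]
    intro j
    rw [dist_eq_norm]
    exact hM i j
  exact hb h1

lemma nhds_mat {ε : ℝ} (hε : 0 < ε) :
    {M : Mat | ∀ i j, ‖M i j - (1 : Mat) i j‖ < ε} ∈ 𝓝 (1 : Mat) := by
  refine (Metric.mem_nhds_iff (α := Fin 2 → Fin 2 → ℂ)
    (x := fun i j => (1 : Mat) i j) (s := {M : Mat | ∀ i j, ‖M i j - (1 : Mat) i j‖ < ε})).mpr
    ⟨ε, hε, fun M hM i j => ?_⟩
  rw [Metric.mem_ball, dist_pi_lt_iff hε] at hM
  have h3 := hM i
  rw [dist_pi_lt_iff hε] at h3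
  have h4 := h3 j
  rwa [dist_eq_norm] at h4

/-- small elements lie in a given neighbourhood of the identity -/
lemma exists_near {O : Set PSL} (hO : O ∈ 𝓝 (1 : PSL)) :
    ∃ ε : ℝ, 0 < ε ∧ ε ≤ 1 ∧ ∀ p : PSL, Near ε p → p ∈ O := by
  have h1 : (QuotientGroup.mk : SL → PSL) ⁻¹' O ∈ 𝓝 (1 : SL) :=
    QuotientGroup.continuous_mk.continuousAt (x := (1 : SL)) hO
  have h2 : 𝓝 (1 : SL) = comap (fun γ : SL => (γ : Mat)) (𝓝 ((1 : SL) : Mat)) :=
    (Matrix.SpecialLinearGroup.isClosedEmbedding_val (n := Fin 2)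
      (R := ℂ)).isInducing.nhds_eq_comap (1 : SL)
  rw [h2, mem_comap, Matrix.SpecialLinearGroup.coe_one] at h1
  obtain ⟨U, hU, hU2⟩ := h1
  obtain ⟨ε, hε, hb⟩ := mat_nhds hU
  refine ⟨min ε 1, by positivity, min_le_right _ _, fun p hp => ?_⟩
  obtain ⟨γ, rfl, hγ⟩ := hp
  exact hU2 (hb _ fun i j => (hγ i j).trans_le (min_le_left _ _))

/-- the criterion for discreteness -/
lemma disc_of_near {Γ : Subgroup PSL} {ε : ℝ} (h0 : 0 < ε) (h1 : ε ≤ 1)
    (h : ∀ x ∈ Γ, Near ε x → x = 1) : Disc Γ := by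
  refine ⟨{M : Mat | ∀ i j, ‖M i j - (1 : Mat) i j‖ < ε}, nhds_mat h0, fun γ hγ hU => ?_⟩
  have h2 : mk γ = 1 := h _ hγ ⟨γ, rfl, hU⟩
  have h3 : γ ∈ Subgroup.center SL := (QuotientGroup.eq_one_iff γ).mp h2
  rcases center_cases γ h3 with h4 | h4
  · exact Matrix.SpecialLinearGroup.ext γ 1 fun i j => by
      rw [h4, Matrix.SpecialLinearGroup.coe_one]
  · exfalso
    have h5 := hU 0 0
    rw [h4] at h5
    simp only [Matrix.neg_apply, Matrix.one_apply_eq] at h5
    have h6 : ‖(-1 : ℂ) - 1‖ = 2 := by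
      norm_num
    linarith

lemma near_mul {G : Type} [Group G] (S : Finset G) (hS : Subgroup.closure (S : Set G) = ⊤)
    (hG : ElCSA G) (hn : ∃ a b : G, a * b ≠ b * a) (g : G)
    (h : ∀ s ∈ S, g * ((g * (s * g * s⁻¹) * g⁻¹ * (s * g * s⁻¹)⁻¹)) * g⁻¹ *
      (g * (s * g * s⁻¹) * g⁻¹ * (s * g * s⁻¹)⁻¹)⁻¹ = 1) : g = 1 := by
  by_contra hg
  have h1 : ∀ s ∈ S, g * s = s * g := by
    intro s hs
    apply hG g g s hg hg rfl
    have hg' : g⁻¹ ≠ 1 := inv_ne_one.mpr hg
    apply hG g g⁻¹ (s * g * s⁻¹) hg hg' (by group)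
    have h2 := h s hs
    rw [mul_inv_eq_one, mul_inv_eq_iff_eq_mul] at h2
    generalize s * g * s⁻¹ = V at h2 ⊢
    -- h2 : g * (g * V * g⁻¹ * V⁻¹) = g * V * g⁻¹ * V⁻¹ * g
    have h3 : g * (V * g⁻¹ * V⁻¹) = V * g⁻¹ * V⁻¹ * g := by
      have h4 : g * (g * (V * g⁻¹ * V⁻¹)) = g * (V * g⁻¹ * V⁻¹ * g) := by
        simpa only [mul_assoc] using h2
      exact mul_left_cancel h4
    exact h3
  have h2 : ∀ y : G, g * y = y * g := by
    have h3 : Subgroup.closure (S : Set G) ≤ Subgroup.centralizer {g} := by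
      rw [Subgroup.closure_le]
      intro s hs
      rw [SetLike.mem_coe, Subgroup.mem_centralizer_iff]
      intro k hk
      rw [Set.mem_singleton_iff] at hk
      rw [hk]
      exact h1 s hs
    intro y
    have h4 : y ∈ Subgroup.centralizer {g} := by
      apply h3
      rw [hS]
      trivial
    rw [Subgroup.mem_centralizer_iff] at h4
    exact h4 g rfl
  obtain ⟨a, b, hab⟩ := hn
  apply hab
  by_cases ha : a = 1
  · rw [ha, one_mul, mul_one]
  · apply hG a g b ha hg (h2 a).symm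
    have h3 : b * g * b⁻¹ = g := by rw [← h2 b, mul_inv_cancel_right]
    rw [h3]
    exact (h2 a).symm

theorem bounded (hb : S_basic) (hz : S_zassenhaus) : S_bounded := by
  intro G _ S hS hG hn F ρ hρ hfaith x C hC
  obtain ⟨b1, b2, b3⟩ := hb
  obtain ⟨ε, hε, hz⟩ := hz
  -- conjugated representations
  have hr : ∀ i, ∃ r : G →* PSL, ∀ g, r g = (x i)⁻¹ * ρ i g * x i := by
    intro i
    refine ⟨⟨⟨fun g => (x i)⁻¹ * ρ i g * x i, by simp⟩, fun g h => ?_⟩, fun g => rfl⟩
    simp only [map_mul]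
    group
  choose r hr using hr
  have hbd : ∀ g : G, ∃ B : ℝ, ∀ᶠ i in (F : Filter ℕ), NP (r i g) ≤ B := by
    intro g
    have hg : g ∈ Subgroup.closure (S : Set G) := by
      rw [hS]
      trivial
    induction hg using Subgroup.closure_induction with
    | mem s hs =>
      refine ⟨C, ?_⟩
      filter_upwards [hC] with i hi
      rw [hr i]
      exact hi s hs
    | one => exact ⟨NP 1, Eventually.of_forall fun i => by rw [map_one]⟩
    | mul a b _ _ ha hb =>
      obtain ⟨A, hA⟩ := ha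
      obtain ⟨B, hB⟩ := hb
      refine ⟨A * B, ?_⟩
      filter_upwards [hA, hB] with i h1 h2
      rw [map_mul]
      refine (b2 _ _).trans ?_
      have h3 := b1 (r i a)
      have h4 := b1 (r i b)
      exact mul_le_mul h1 h2 (by linarith) (by linarith)
    | inv a _ ha =>
      obtain ⟨A, hA⟩ := ha
      refine ⟨A, ?_⟩
      filter_upwards [hA] with i h1
      rw [map_inv, b3]
      exact h1
  have hlim : ∀ g : G, ∃ p : PSL, Tendsto (fun i => r i g) F (𝓝 p) := by
    intro g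
    obtain ⟨B, hB⟩ := hbd g
    obtain ⟨p, -, hp⟩ := (isCompact_NP B).ultrafilter_le_nhds (F.map fun i => r i g) (by
      rw [Ultrafilter.coe_map]
      exact tendsto_principal.mpr hB)
    exact ⟨p, hp⟩
  choose L hL using hlim
  have hmul : ∀ g h : G, L (g * h) = L g * L h := by
    intro g h
    have h1 := (hL g).mul (hL h)
    refine tendsto_nhds_unique (hL (g * h)) (h1.congr fun i => ?_)
    rw [map_mul]
  let ρ' : G →* PSL := MonoidHom.mk' L hmul
  have hρ' : ∀ g, ρ' g = L g := fun g => rfl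
  let O : Set PSL := ⋂ s ∈ (insert 1 (S : Set G) : Set G), {p : PSL | Near ε (L s * p * (L s)⁻¹)}
  have hO : O ∈ 𝓝 (1 : PSL) := by
    apply IsOpen.mem_nhds
    · refine Set.Finite.isOpen_biInter (S.finite_toSet.insert 1) fun s _ => ?_
      exact (isOpen_near ε).preimage (by fun_prop)
    · refine Set.mem_iInter₂.mpr fun s _ => ?_
      refine ⟨1, ?_, fun i j => ?_⟩
      · show (1 : PSL) = _
        rw [mul_one, mul_inv_cancel]
      · rw [Matrix.SpecialLinearGroup.coe_one, sub_self, norm_zero]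
        exact hε
  have key : ∀ g : G, L g ∈ O → g = 1 := by
    intro g hg
    apply near_mul S hS hG hn g
    intro s hs
    by_contra hne
    have h1 := hfaith _ hne
    have hev : ∀ t ∈ (insert 1 (S : Set G) : Set G),
        ∀ᶠ i in (F : Filter ℕ), Near ε (r i (t * g * t⁻¹)) := by
      intro t ht
      have h2 : Near ε (L (t * g * t⁻¹)) := by
        have h3 := Set.mem_iInter₂.mp hg t ht
        have h4 : L (t * g * t⁻¹) = L t * L g * (L t)⁻¹ := by
          rw [← hρ', ← hρ', ← hρ', map_mul, map_mul, map_inv]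
        rw [h4]
        exact h3
      exact (hL (t * g * t⁻¹)).eventually ((isOpen_near ε).mem_nhds h2)
    have h2 := hev 1 (Set.mem_insert _ _)
    have h3 := hev s (Set.mem_insert_of_mem _ hs)
    obtain ⟨i, h4, h5, h6⟩ := (h1.and (h2.and h3)).exists
    apply h4
    rw [one_mul, inv_one, mul_one, hr i] at h5
    rw [hr i] at h6
    have h7 := hz (ρ i).range (hρ i) (x i) (ρ i g) (ρ i (s * g * s⁻¹)) ⟨_, rfl⟩ ⟨_, rfl⟩ h5 h6
      _ rfl
    rw [← h7]
    simp only [map_mul, map_inv]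
  refine ⟨ρ', ?_, ?_⟩
  · obtain ⟨η, h0, h1, h2⟩ := exists_near hO
    refine disc_of_near h0 h1 ?_
    rintro _ ⟨g, rfl⟩ hg
    have h3 := key g (h2 _ hg)
    rw [h3, map_one]
  · rw [injective_iff_map_eq_one]
    intro g hg
    apply key
    rw [← hρ', hg]
    exact mem_of_mem_nhds hO

end Pool.Agent.TH38.RK.Bdd

namespace Pool.Agent.TH38.RK

theorem bounded (hb : S_basic) (hz : S_zassenhaus) : S_bounded := Bdd.bounded hb hz

end Pool.Agent.TH38.RK
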