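import Pool.Agent.TH38.RK.Stmts3
import Pool.Agent.TH38.RK.Bdd2

/-!
# The limit of a bounded sequence of discrete representations, relatively hyperbolic groups
-/

set_option autoImplicit false

open Filter Topology

namespace Pool.Agent.TH38.RK.Bdd3

open Pool.Agent.TH38.RK Pool.Agent.TH38.RK.Bdd

lemma near_mul3 {G : Type} [Group G] (S : Finset G) (hS : Subgroup.closure (S : Set G) = ⊤)
    (hG : RelHypLike G) (g : G)
    (h : ∀ s ∈ S, g * ((g * (s * g * s⁻¹) * g⁻¹ * (s * g * s⁻¹)⁻¹)) * g⁻¹ *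
      (g * (s * g * s⁻¹) * g⁻¹ * (s * g * s⁻¹)⁻¹)⁻¹ = 1) : IsOfFinOrder g := by
  by_contra hg
  obtain ⟨E, hgE, hET, hcent, hmal, -⟩ := hG.2.1 g hg
  have h1 : (S : Set G) ⊆ E := by
    intro s hs
    have h2 := h s hs
    rw [mul_inv_eq_one, mul_inv_eq_iff_eq_mul] at h2
    apply hmal g hgE hg s
    generalize s * g * s⁻¹ = V at h2 ⊢
    have h3 : g * (V * g⁻¹ * V⁻¹) = V * g⁻¹ * V⁻¹ * g := by
      have h4 : g * (g * (V * g⁻¹ * V⁻¹)) = g * (V * g⁻¹ * V⁻¹ * g) := by
        simpa only [mul_assoc] using h2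
      exact mul_left_cancel h4
    have h5 : g * (V * g * V⁻¹) = V * g * V⁻¹ * g := by
      have h6 : Commute g (V * g⁻¹ * V⁻¹) := h3
      have h7 := h6.inv_right
      have h8 : (V * g⁻¹ * V⁻¹)⁻¹ = V * g * V⁻¹ := by group
      rw [h8] at h7
      exact h7
    exact hmal g hgE hg V (hcent _ h5.symm)
  apply hET
  rw [eq_top_iff, ← hS, Subgroup.closure_le]
  exact h1

theorem bounded3 (hb : S_basic) (hz : S_zassenhaus) : S_bounded3 := by
  intro G _ S hS hG F ρ hρ hfaith x C hC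
  obtain ⟨b1, b2, b3⟩ := hb
  obtain ⟨ε, hε, hz⟩ := hz
  -- conjugated representations
  have hr : ∀ i, ∃ r : G →* PSL, ∀ g, r g = (x i)⁻¹ * ρ i g * x i := by
    intro i
    refine ⟨⟨⟨fun g => (x i)⁻¹ * ρ i g * x i, by simp⟩, fun g h => ?_⟩, fun g => rfl⟩
    simp only [map_mul]
    group
  choose r hr using hr
  have hbd : ∀ g : G, ∃ B : ℝ, ∀ᶠ i in (F : Filter ℕ), NP (r i g) ≤ B := by
    intro g
    have hg : g ∈ Subgroup.closure (S : Set G) := by
      rw [hS]
      trivial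
    induction hg using Subgroup.closure_induction with
    | mem s hs =>
      refine ⟨C, ?_⟩
      filter_upwards [hC] with i hi
      rw [hr i]
      exact hi s hs
    | one => exact ⟨NP 1, Eventually.of_forall fun i => by rw [map_one]⟩
    | mul a b _ _ ha hb =>
      obtain ⟨A, hA⟩ := ha
      obtain ⟨B, hB⟩ := hb
      refine ⟨A * B, ?_⟩
      filter_upwards [hA, hB] with i h1 h2
      rw [map_mul]
      refine (b2 _ _).trans ?_
      have h3 := b1 (r i a)
      have h4 := b1 (r i b)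
      exact mul_le_mul h1 h2 (by linarith) (by linarith)
    | inv a _ ha =>
      obtain ⟨A, hA⟩ := ha
      refine ⟨A, ?_⟩
      filter_upwards [hA] with i h1
      rw [map_inv, b3]
      exact h1
  have hlim : ∀ g : G, ∃ p : PSL, Tendsto (fun i => r i g) F (𝓝 p) := by
    intro g
    obtain ⟨B, hB⟩ := hbd g
    obtain ⟨p, -, hp⟩ := (isCompact_NP B).ultrafilter_le_nhds (F.map fun i => r i g) (by
      rw [Ultrafilter.coe_map]
      exact tendsto_principal.mpr hB)
    exact ⟨p, hp⟩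
  choose L hL using hlim
  have hmul : ∀ g h : G, L (g * h) = L g * L h := by
    intro g h
    have h1 := (hL g).mul (hL h)
    refine tendsto_nhds_unique (hL (g * h)) (h1.congr fun i => ?_)
    rw [map_mul]
  let ρ' : G →* PSL := MonoidHom.mk' L hmul
  have hρ' : ∀ g, ρ' g = L g := fun g => rfl
  let O : Set PSL := ⋂ s ∈ (insert 1 (S : Set G) : Set G), {p : PSL | Near ε (L s * p * (L s)⁻¹)}
  have hone : ∀ ε' : ℝ, 0 < ε' → Near ε' (1 : PSL) := by
    intro ε' h
    refine ⟨1, rfl, fun i j => ?_⟩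
    rw [Matrix.SpecialLinearGroup.coe_one, sub_self, norm_zero]
    exact h
  have hO : O ∈ 𝓝 (1 : PSL) := by
    apply IsOpen.mem_nhds
    · refine Set.Finite.isOpen_biInter (S.finite_toSet.insert 1) fun s _ => ?_
      exact (isOpen_near ε).preimage (by fun_prop)
    · refine Set.mem_iInter₂.mpr fun s _ => ?_
      show Near ε (L s * 1 * (L s)⁻¹)
      rw [mul_one, mul_inv_cancel]
      exact hone ε hε
  have key : ∀ g : G, L g ∈ O → IsOfFinOrder g := by
    intro g hg
    apply near_mul3 S hS hG g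
    intro s hs
    by_contra hne
    have h1 := hfaith _ hne
    have hev : ∀ t ∈ (insert 1 (S : Set G) : Set G),
        ∀ᶠ i in (F : Filter ℕ), Near ε (r i (t * g * t⁻¹)) := by
      intro t ht
      have h2 : Near ε (L (t * g * t⁻¹)) := by
        have h3 := Set.mem_iInter₂.mp hg t ht
        have h4 : L (t * g * t⁻¹) = L t * L g * (L t)⁻¹ := by
          rw [← hρ', ← hρ', ← hρ', map_mul, map_mul, map_inv]
        rw [h4]
        exact h3
      exact (hL (t * g * t⁻¹)).eventually ((isOpen_near ε).mem_nhds h2)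
    have h2 := hev 1 (Set.mem_insert _ _)
    have h3 := hev s (Set.mem_insert_of_mem _ hs)
    obtain ⟨i, h4, h5, h6⟩ := (h1.and (h2.and h3)).exists
    apply h4
    rw [one_mul, inv_one, mul_one, hr i] at h5
    rw [hr i] at h6
    have h7 := hz (ρ i).range (hρ i) (x i) (ρ i g) (ρ i (s * g * s⁻¹)) ⟨_, rfl⟩ ⟨_, rfl⟩ h5 h6
      _ rfl
    rw [← h7]
    simp only [map_mul, map_inv]
  obtain ⟨n, hn, hord⟩ := hG.1
  obtain ⟨ε₂, hε₂, htors⟩ := Bdd2.tors_near n hn
  have hO2 : O ∩ {p : PSL | Near ε₂ p} ∈ 𝓝 (1 : PSL) :=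
    inter_mem hO ((isOpen_near ε₂).mem_nhds (hone ε₂ hε₂))
  refine ⟨ρ', ?_, ?_⟩
  · obtain ⟨η, h0, h1, h2⟩ := exists_near hO2
    refine disc_of_near h0 h1 ?_
    rintro _ ⟨g, rfl⟩ hg
    obtain ⟨h3, h4⟩ := h2 _ hg
    apply htors _ _ h4
    rw [← map_pow, hord g (key g h3), map_one]
  · rw [← MonoidHom.ker_eq_bot_iff]
    by_contra hne
    obtain ⟨g, hg, hinf⟩ := hG.2.2 ρ'.ker inferInstance hne
    apply hinf
    apply key
    rw [← hρ', MonoidHom.mem_ker.mp hg]
    exact mem_of_mem_nhds hO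

end Pool.Agent.TH38.RK.Bdd3

namespace Pool.Agent.TH38.RK

theorem bounded3 (hb : S_basic) (hz : S_zassenhaus) : S_bounded3 := Bdd3.bounded3 hb hz

end Pool.Agent.TH38.RK
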