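import Pool.Agent.TH38.RK.Stmts3
set_option autoImplicit false
open Filter Topology
namespace Pool.Agent.TH38.RK

namespace Full3

theorem exists_x {G : Type} [Group G] (hG : RelHypLike G) {w h : G} (hw : ¬ IsOfFinOrder w)
    (hh : ¬ IsOfFinOrder h) : ∃ x : G, w * (x * h * x⁻¹) * w⁻¹ * (x * h * x⁻¹)⁻¹ ≠ 1 := by
  by_contra hc
  push Not at hc
  have h1 : ∀ x : G, w * (x * h * x⁻¹) = x * h * x⁻¹ * w := by
    intro x
    have h2 := mul_inv_eq_one.1 (hc x)
    exact mul_inv_eq_iff_eq_mul.1 h2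
  obtain ⟨E, -, hE1, hE2, hE3, -⟩ := hG.2.1 w hw
  have h2 : ∀ x : G, x * h * x⁻¹ ∈ E := fun x => hE2 _ (h1 x).symm
  have h3 : h ∈ E := by
    have := h2 1
    rwa [one_mul, inv_one, mul_one] at this
  apply hE1
  rw [eq_top_iff]
  intro x _
  exact hE3 h h3 hh x (h2 x)

theorem kill {G : Type} [Group G] (ρ : G →* PSL) {g x : G} (hx : x ∈ Subgroup.normalClosure {g})
    (h : ρ g = 1) : ρ x = 1 := by
  have h1 : Subgroup.normalClosure {g} ≤ ρ.ker := by
    apply Subgroup.normalClosure_le_normal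
    rw [Set.singleton_subset_iff]
    exact h
  exact h1 hx

theorem exists_inf_mem {G : Type} [Group G] (hG : RelHypLike G) {g : G} (hg : g ≠ 1) :
    ∃ x ∈ Subgroup.normalClosure {g}, ¬ IsOfFinOrder x := by
  apply hG.2.2 _ inferInstance
  intro h
  apply hg
  have h1 : g ∈ Subgroup.normalClosure {g} := Subgroup.subset_normalClosure rfl
  rw [h] at h1
  exact h1

theorem exists_w {G : Type} [Group G] (hG : RelHypLike G) (hne : ∃ g : G, g ≠ 1) (f : ℕ → G)
    (n : ℕ) : ∃ w : G, ¬ IsOfFinOrder w ∧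
      ∀ ρ : G →* PSL, ρ w ≠ 1 → ∀ k < n, f k ≠ 1 → ρ (f k) ≠ 1 := by
  induction n with
  | zero =>
    obtain ⟨g, hg⟩ := hne
    obtain ⟨x, -, hx⟩ := exists_inf_mem hG hg
    exact ⟨x, hx, fun ρ _ k hk => absurd hk (Nat.not_lt_zero k)⟩
  | succ n ih =>
    obtain ⟨w, hw, hρ⟩ := ih
    by_cases hf : f n = 1
    · refine ⟨w, hw, fun ρ h1 k hk hk1 => ?_⟩
      rcases Nat.lt_succ_iff_lt_or_eq.1 hk with h2 | h2
      · exact hρ ρ h1 k h2 hk1
      · subst h2
        exact absurd hf hk1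
    · obtain ⟨h, hh, hho⟩ := exists_inf_mem hG hf
      obtain ⟨x, hx⟩ := exists_x hG hw hho
      obtain ⟨w2, hw2, hw2o⟩ := exists_inf_mem hG hx
      refine ⟨w2, hw2o, fun ρ h1 k hk hk1 => ?_⟩
      have h3 : ρ (w * (x * h * x⁻¹) * w⁻¹ * (x * h * x⁻¹)⁻¹) ≠ 1 := fun h4 => h1 (kill ρ hw2 h4)
      have h2 : ρ w ≠ 1 := by
        intro h4
        apply h3
        simp [h4]
      rcases Nat.lt_succ_iff_lt_or_eq.1 hk with h4 | h4
      · exact hρ ρ h2 k h4 hk1
      · subst h4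
        intro h5
        apply h3
        have h6 : ρ h = 1 := kill ρ hh h5
        simp [h6]

end Full3

theorem full3 : S_full3 := by
  intro G _ hc hG hne hres
  obtain ⟨f, hf⟩ := exists_surjective_nat G
  choose w hw hw2 using Full3.exists_w hG hne f
  choose ρ hρ1 hρ2 using fun n => hres (w n) (fun h => hw n (by rw [h]; exact IsOfFinOrder.one))
  refine ⟨ρ, hρ1, fun g hg => ?_⟩
  obtain ⟨k, rfl⟩ := hf g
  filter_upwards [eventually_gt_atTop k] with n hn'
  exact hw2 n (ρ n) (hρ2 n) k hn' hg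

end Pool.Agent.TH38.RK
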