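import Pool.Agent.TH38.RK.Stmts

/-!
# Cartan decomposition in `SL(2,ℂ)`
-/

set_option autoImplicit false

open Filter Topology ComplexOrder

namespace Pool.Agent.TH38.RK

namespace Kak

open Matrix

theorem N_eq_trace (h : SL) : ((N h : ℝ) : ℂ) = ((h : Mat)ᴴ * (h : Mat)).trace := by
  unfold N
  simp only [Fin.sum_univ_two, Matrix.trace, Matrix.diag_apply, Matrix.mul_apply,
    Matrix.conjTranspose_apply, Complex.star_def]
  push_cast
  simp only [← Complex.conj_mul']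
  ring

/-- unitary matrices preserve `N` -/
theorem N_unitary {k : SL} (hk : (k : Mat)ᴴ * (k : Mat) = 1) (h : SL) :
    N (k * h) = N h ∧ N (h * k) = N h := by
  have hk' : (k : Mat) * (k : Mat)ᴴ = 1 := mul_eq_one_comm.mp hk
  constructor
  · have h1 : ((N (k * h) : ℝ) : ℂ) = ((N h : ℝ) : ℂ) := by
      rw [N_eq_trace, N_eq_trace, Matrix.SpecialLinearGroup.coe_mul, Matrix.conjTranspose_mul,
        Matrix.mul_assoc, ← Matrix.mul_assoc (k : Mat)ᴴ, hk, Matrix.one_mul]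
    exact_mod_cast h1
  · have h1 : ((N (h * k) : ℝ) : ℂ) = ((N h : ℝ) : ℂ) := by
      rw [N_eq_trace, N_eq_trace, Matrix.SpecialLinearGroup.coe_mul, Matrix.conjTranspose_mul,
        Matrix.mul_assoc, Matrix.trace_mul_comm, Matrix.mul_assoc, Matrix.mul_assoc, hk',
        Matrix.mul_one]
    exact_mod_cast h1

theorem unitary_inv {k : SL} (hk : (k : Mat)ᴴ * (k : Mat) = 1) :
    ((k⁻¹ : SL) : Mat)ᴴ * ((k⁻¹ : SL) : Mat) = 1 := by
  have hk' : (k : Mat) * (k : Mat)ᴴ = 1 := mul_eq_one_comm.mp hk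
  have h1 : ((k⁻¹ : SL) : Mat) * (k : Mat) = 1 := by
    rw [← Matrix.SpecialLinearGroup.coe_mul, inv_mul_cancel, Matrix.SpecialLinearGroup.coe_one]
  have h2 : ((k⁻¹ : SL) : Mat) = (k : Mat)ᴴ := by
    calc ((k⁻¹ : SL) : Mat) = ((k⁻¹ : SL) : Mat) * ((k : Mat) * (k : Mat)ᴴ) := by
          rw [hk', Matrix.mul_one]
      _ = (k : Mat)ᴴ := by rw [← Matrix.mul_assoc, h1, Matrix.one_mul]
  rw [h2, Matrix.conjTranspose_conjTranspose, hk']

/-- an eigenvector of `gᴴ g` for an eigenvalue at least `1` -/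
theorem eigen (g : SL) : ∃ (lam : ℝ) (p q : ℂ), 1 ≤ lam ∧
    (starRingEnd ℂ) p * p + (starRingEnd ℂ) q * q = 1 ∧
    ((g : Mat)ᴴ * (g : Mat)) *ᵥ ![p, q] = ![(lam : ℂ) * p, (lam : ℂ) * q] := by
  have hA : ((g : Mat)ᴴ * (g : Mat)).IsHermitian := Matrix.isHermitian_conjTranspose_mul_self _
  have hP : ((g : Mat)ᴴ * (g : Mat)).PosSemidef := Matrix.posSemidef_conjTranspose_mul_self _
  have hdet : ((g : Mat)ᴴ * (g : Mat)).det = 1 := by
    rw [Matrix.det_mul, Matrix.det_conjTranspose, Matrix.SpecialLinearGroup.det_coe]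
    simp
  have hprod : hA.eigenvalues 0 * hA.eigenvalues 1 = 1 := by
    have h1 := hA.det_eq_prod_eigenvalues
    rw [hdet, Fin.prod_univ_two] at h1
    have h2 : ((hA.eigenvalues 0 * hA.eigenvalues 1 : ℝ) : ℂ) = ((1 : ℝ) : ℂ) := by
      push_cast
      exact h1.symm
    exact_mod_cast h2
  have h0 := hP.eigenvalues_nonneg 0
  have h1 := hP.eigenvalues_nonneg 1
  obtain ⟨i, hi⟩ : ∃ i, 1 ≤ hA.eigenvalues i := by
    by_contra hcon
    push Not at hcon
    have h2 := hcon 0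
    have h3 := hcon 1
    nlinarith
  have hv := hA.mulVec_eigenvectorBasis i
  have hn : ‖hA.eigenvectorBasis i‖ = 1 := hA.eigenvectorBasis.orthonormal.1 i
  refine ⟨hA.eigenvalues i, hA.eigenvectorBasis i 0, hA.eigenvectorBasis i 1, hi, ?_, ?_⟩
  · rw [EuclideanSpace.norm_eq, Fin.sum_univ_two, Real.sqrt_eq_one] at hn
    rw [Complex.conj_mul', Complex.conj_mul']
    exact_mod_cast hn
  · have e1 : (![hA.eigenvectorBasis i 0, hA.eigenvectorBasis i 1] : Fin 2 → ℂ) =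
        WithLp.ofLp (hA.eigenvectorBasis i) := by
      funext j
      fin_cases j <;> rfl
    rw [e1, hv]
    funext j
    fin_cases j <;> simp
end Kak

open Kak Matrix

theorem kak : S_kak := by
  intro g
  obtain ⟨lam, p, q, hlam, hpq, hAv⟩ := eigen g
  have hlam0 : 0 < lam := by linarith
  have hs0 : 0 < Real.sqrt lam := Real.sqrt_pos.2 hlam0
  have hsC : ((Real.sqrt lam : ℝ) : ℂ) ≠ 0 := by exact_mod_cast hs0.ne'
  have hss : ((Real.sqrt lam : ℝ) : ℂ) * ((Real.sqrt lam : ℝ) : ℂ) = (lam : ℂ) := by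
    rw [← Complex.ofReal_mul, Real.mul_self_sqrt hlam0.le]
  obtain ⟨P, hP⟩ : ∃ P : SL, (P : Mat) = !![p, -(starRingEnd ℂ) q; q, (starRingEnd ℂ) p] :=
    ⟨⟨!![p, -(starRingEnd ℂ) q; q, (starRingEnd ℂ) p], by
      rw [Matrix.det_fin_two_of, ← hpq]; ring⟩, rfl⟩
  obtain ⟨d, hd⟩ : ∃ d : SL, (d : Mat) =
      !![((Real.sqrt lam : ℝ) : ℂ), 0; 0, ((Real.sqrt lam : ℝ) : ℂ)⁻¹] :=
    ⟨⟨!![((Real.sqrt lam : ℝ) : ℂ), 0; 0, ((Real.sqrt lam : ℝ) : ℂ)⁻¹], by
      rw [Matrix.det_fin_two_of, mul_inv_cancel₀ hsC]; ring⟩, rfl⟩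
  have hPu : (P : Mat)ᴴ * (P : Mat) = 1 := by
    rw [hP]
    ext i j
    fin_cases i <;> fin_cases j <;>
      simp [Matrix.mul_apply, Fin.sum_univ_two, Matrix.conjTranspose_apply] <;>
      first | ring1 | linear_combination hpq
  -- `C = Pᴴ A P`
  obtain ⟨C, hC⟩ : ∃ C : Mat, C = ((g * P : SL) : Mat)ᴴ * ((g * P : SL) : Mat) := ⟨_, rfl⟩
  have hCh : Cᴴ = C := by
    rw [hC, Matrix.conjTranspose_mul, Matrix.conjTranspose_conjTranspose]
  have hCd : C.det = 1 := by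
    rw [hC, Matrix.det_mul, Matrix.det_conjTranspose, Matrix.SpecialLinearGroup.det_coe]
    simp
  have hC2 : C = (P : Mat)ᴴ * (((g : Mat)ᴴ * (g : Mat)) * (P : Mat)) := by
    rw [hC, Matrix.SpecialLinearGroup.coe_mul, Matrix.conjTranspose_mul]
    simp only [Matrix.mul_assoc]
  have hcol : ∀ i, (((g : Mat)ᴴ * (g : Mat)) * (P : Mat)) i 0 = (lam : ℂ) * (P : Mat) i 0 := by
    intro i
    have h1 := congrFun hAv i
    rw [Matrix.mul_apply, Fin.sum_univ_two, hP]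
    rw [Matrix.mulVec, dotProduct, Fin.sum_univ_two] at h1
    fin_cases i
    · simpa using h1
    · simpa using h1
  have hC0 : ∀ i, C i 0 = (lam : ℂ) * (1 : Mat) i 0 := by
    intro i
    rw [hC2, Matrix.mul_apply, ← hPu, Matrix.mul_apply, Finset.mul_sum]
    refine Finset.sum_congr rfl fun j _ => ?_
    rw [hcol j]
    ring
  have h00 : C 0 0 = (lam : ℂ) := by rw [hC0 0]; simp
  have h10 : C 1 0 = 0 := by rw [hC0 1]; simp
  have h01 : C 0 1 = 0 := by
    have h1 := congrFun (congrFun hCh 0) 1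
    rw [Matrix.conjTranspose_apply, h10, star_zero] at h1
    exact h1.symm
  have h11 : C 1 1 = (lam : ℂ)⁻¹ := by
    rw [Matrix.det_fin_two, h00, h01, h10] at hCd
    have hl : (lam : ℂ) ≠ 0 := by exact_mod_cast hlam0.ne'
    field_simp
    linear_combination hCd
  have hdd : (d : Mat)ᴴ * (d : Mat) = C := by
    rw [hd]
    ext i j
    fin_cases i <;> fin_cases j
    · simp [Matrix.mul_apply, Fin.sum_univ_two, Matrix.conjTranspose_apply, h00, hss]
    · simp [Matrix.mul_apply, Fin.sum_univ_two, Matrix.conjTranspose_apply, h01]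
    · simp [Matrix.mul_apply, Fin.sum_univ_two, Matrix.conjTranspose_apply, h10]
    · simp [Matrix.mul_apply, Fin.sum_univ_two, Matrix.conjTranspose_apply, h11]
      rw [← mul_inv, hss]
  have hdinv : (d : Mat) * ((d⁻¹ : SL) : Mat) = 1 := by
    rw [← Matrix.SpecialLinearGroup.coe_mul, mul_inv_cancel, Matrix.SpecialLinearGroup.coe_one]
  have hk : ((g * P * d⁻¹ : SL) : Mat)ᴴ * ((g * P * d⁻¹ : SL) : Mat) = 1 := by
    rw [Matrix.SpecialLinearGroup.coe_mul (g * P) d⁻¹, Matrix.conjTranspose_mul, Matrix.mul_assoc,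
      ← Matrix.mul_assoc ((g * P : SL) : Mat)ᴴ, ← hC, ← hdd, Matrix.mul_assoc, hdinv,
      Matrix.mul_one, ← Matrix.conjTranspose_mul, hdinv, Matrix.conjTranspose_one]
  refine ⟨g * P * d⁻¹, P⁻¹, d, Real.sqrt lam, ?_, fun h => N_unitary hk h,
    fun h => N_unitary (unitary_inv hPu) h, hd, ?_⟩
  · rw [Real.one_le_sqrt]
    exact hlam
  · group

end Pool.Agent.TH38.RK
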