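import Pool.Agent.TH38.RK.Stmts

/-!
# Assembly
-/

set_option autoImplicit false

open Filter Topology

namespace Pool.Agent.TH38.RK

lemma countable_of_closure {G : Type} [Group G] (S : Finset G)
    (hS : Subgroup.closure (S : Set G) = ⊤) : Countable G := by
  have h1 : Countable (FreeGroup S) := by
    unfold FreeGroup
    infer_instance
  have h2 : Function.Surjective (FreeGroup.lift (fun s : S => (s : G))) := by
    rw [← MonoidHom.range_eq_top, FreeGroup.range_lift_eq_closure]
    simpa using hS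
  exact h2.countable

theorem main (hb : S_basic) (hcsa : S_csa) (hfull : S_full) (hbdd : S_bounded)
    (hunb : S_unbounded) : S_main := by
  intro G _ hfg hG hna hres
  classical
  have hE : ElCSA G := hcsa G hG
  obtain ⟨S, hS⟩ := hfg.out
  have hcount : Countable G := countable_of_closure S hS
  obtain ⟨ρ, hdisc, hfaith⟩ := hfull G hcount hE hna hres
  let F : Ultrafilter ℕ := Filter.hyperfilter ℕ
  have hF : (F : Filter ℕ) ≤ atTop := Nat.hyperfilter_le_atTop
  have hfaith' : ∀ g : G, g ≠ 1 → ∀ᶠ i in (F : Filter ℕ), ρ i g ≠ 1 :=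
    fun g hg => hF (hfaith g hg)
  have hSne : S.Nonempty := by
    by_contra h
    rw [Finset.not_nonempty_iff_eq_empty] at h
    subst h
    obtain ⟨a, b, hab⟩ := hna
    have : (⊥ : Subgroup G) = ⊤ := by simpa using hS
    have ha : a ∈ (⊥ : Subgroup G) := by rw [this]; trivial
    have hb' : b ∈ (⊥ : Subgroup G) := by rw [this]; trivial
    rw [Subgroup.mem_bot] at ha hb'
    subst ha; subst hb'
    exact hab rfl
  -- displacement
  let f : ℕ → PSL → ℝ := fun i y => S.sup' hSne fun s => Real.log (NP (y⁻¹ * ρ i s * y))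
  have hf0 : ∀ i y, 0 ≤ f i y := by
    intro i y
    obtain ⟨s, hs⟩ := hSne
    refine le_trans ?_ (Finset.le_sup' (fun s => Real.log (NP (y⁻¹ * ρ i s * y))) hs)
    exact Real.log_nonneg (by linarith [hb.1 (y⁻¹ * ρ i s * y)])
  let D : ℕ → ℝ := fun i => sInf (Set.range (f i))
  have hbdb : ∀ i, BddBelow (Set.range (f i)) := fun i => ⟨0, by rintro _ ⟨y, rfl⟩; exact hf0 i y⟩
  have hDle : ∀ i y, D i ≤ f i y := fun i y => csInf_le (hbdb i) ⟨y, rfl⟩
  have hx : ∀ i, ∃ y, f i y ≤ D i + 1 := by
    intro i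
    obtain ⟨_, ⟨y, rfl⟩, hy⟩ := exists_lt_of_csInf_lt (Set.range_nonempty (f i))
      (show sInf (Set.range (f i)) < D i + 1 from lt_add_one _)
    exact ⟨y, hy.le⟩
  choose x hx using hx
  by_cases hcase : ∃ C : ℝ, ∀ᶠ i in (F : Filter ℕ), D i ≤ C
  · left
    obtain ⟨C, hC⟩ := hcase
    refine hbdd G S hS hE hna F ρ hdisc hfaith' x (Real.exp (C + 1)) ?_
    filter_upwards [hC] with i hi s hs
    have h1 : Real.log (NP ((x i)⁻¹ * ρ i s * x i)) ≤ C + 1 :=
      (Finset.le_sup' (fun s => Real.log (NP ((x i)⁻¹ * ρ i s * x i))) hs).trans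
        ((hx i).trans (by linarith))
    have h2 : 0 < NP ((x i)⁻¹ * ρ i s * x i) := by linarith [hb.1 ((x i)⁻¹ * ρ i s * x i)]
    exact (Real.log_le_iff_le_exp h2).mp h1
  · right
    push Not at hcase
    have hT : Tendsto D F atTop := by
      rw [tendsto_atTop]
      intro C
      filter_upwards [hcase C] with i hi using hi.le
    refine hunb G S hS hE F ρ hdisc hfaith' D x hT ?_ ?_
    · intro i s hs
      exact (Finset.le_sup' (fun s => Real.log (NP ((x i)⁻¹ * ρ i s * x i))) hs).trans (hx i)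
    · intro i y
      obtain ⟨s, hs, h⟩ := Finset.exists_mem_eq_sup' hSne
        (fun s => Real.log (NP (y⁻¹ * ρ i s * y)))
      exact ⟨s, hs, by rw [← h]; exact hDle i y⟩

end Pool.Agent.TH38.RK
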