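import Pool.Agent.TH38.RK.Stmts

/-!
# Geodesics of `PSL(2,ℂ)/PSU(2)` from the Cartan decomposition
-/

set_option autoImplicit false

open Filter Topology

namespace Pool.Agent.TH38.RK

namespace Path

/-- The diagonal matrix with entries `exp x`, `exp (-x)`. -/
noncomputable def dg (x : ℝ) : SL :=
  ⟨!![(Real.exp x : ℂ), 0; 0, (Real.exp (-x) : ℂ)], by
    rw [Matrix.det_fin_two_of, mul_zero, sub_zero, ← Complex.ofReal_mul, ← Real.exp_add,
      add_neg_cancel, Real.exp_zero, Complex.ofReal_one]⟩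

lemma dg_coe (x : ℝ) : (dg x : Mat) = !![(Real.exp x : ℂ), 0; 0, (Real.exp (-x) : ℂ)] := rfl

lemma dg_mul (x y : ℝ) : dg x * dg y = dg (x + y) := by
  apply Subtype.ext
  rw [Matrix.SpecialLinearGroup.coe_mul, dg_coe, dg_coe, dg_coe, Matrix.mul_fin_two]
  simp only [mul_zero, zero_mul, add_zero, zero_add]
  rw [← Complex.ofReal_mul, ← Complex.ofReal_mul, ← Real.exp_add, ← Real.exp_add, neg_add]

lemma dg_zero : dg 0 = 1 := by
  apply Subtype.ext
  rw [dg_coe, Matrix.SpecialLinearGroup.coe_one, neg_zero, Real.exp_zero, Complex.ofReal_one,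
    Matrix.one_fin_two]

lemma dg_inv (x : ℝ) : (dg x)⁻¹ = dg (-x) := by
  rw [inv_eq_iff_mul_eq_one, dg_mul, add_neg_cancel, dg_zero]

lemma N_dg (x : ℝ) : N (dg x) = Real.exp (2 * x) + Real.exp (-(2 * x)) := by
  have h1 : ‖(Real.exp x : ℂ)‖ ^ 2 = Real.exp (2 * x) := by
    rw [Complex.norm_real, Real.norm_eq_abs, sq_abs, ← Real.exp_nat_mul]
    norm_num
  have h2 : ‖(Real.exp (-x) : ℂ)‖ ^ 2 = Real.exp (-(2 * x)) := by
    rw [Complex.norm_real, Real.norm_eq_abs, sq_abs, ← Real.exp_nat_mul]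
    congr 1
    push_cast
    ring
  rw [N, dg_coe]
  simp only [Fin.sum_univ_two, Matrix.of_apply, Matrix.cons_val_zero, Matrix.cons_val_one,
    Matrix.cons_val', Matrix.cons_val_fin_one]
  rw [h1, h2, norm_zero]
  ring

lemma N_one : N (1 : SL) = 2 := by
  rw [← dg_zero, N_dg, mul_zero, neg_zero, Real.exp_zero]
  norm_num

end Path

open Pool.Agent.TH38.RK.Path

theorem path (hk : S_kak) : S_path := by
  intro p
  obtain ⟨g, rfl⟩ := QuotientGroup.mk_surjective p
  obtain ⟨k, k', d, s, hs, hkN, hkN', hd, hg⟩ := hk g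
  have hs0 : 0 < s := lt_of_lt_of_le one_pos hs
  set t : ℝ := 2 * Real.log s with ht
  have hdd : d = dg (t / 2) := by
    apply Subtype.ext
    have e1 : t / 2 = Real.log s := by rw [ht]; ring
    rw [show (d : Matrix (Fin 2) (Fin 2) ℂ) = !![(s : ℂ), 0; 0, (s : ℂ)⁻¹] from hd, dg_coe, e1,
      Real.exp_neg, Real.exp_log hs0, Complex.ofReal_inv]
  refine ⟨t, fun a => mk (k * dg (a * (t / 2))), by
    rw [ht]; exact mul_nonneg zero_le_two (Real.log_nonneg hs), ?_, ?_, ?_, ?_⟩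
  · show NP (mk (k * dg (0 * (t / 2)))) = 2
    rw [NP_mk, (hkN _).1, zero_mul, dg_zero, N_one]
  · show NP ((mk g)⁻¹ * mk (k * dg (1 * (t / 2)))) = 2
    have e : (mk g)⁻¹ * mk (k * dg (1 * (t / 2))) = mk (k'⁻¹) := by
      show QuotientGroup.mk (g⁻¹ * (k * dg (1 * (t / 2)))) = _
      congr 1
      rw [hg, hdd, one_mul]
      group
    rw [e, NP_mk, ← (hkN' _).1, mul_inv_cancel, N_one]
  · show NP (mk g) = _
    rw [NP_mk, hg, (hkN' _).2, (hkN _).1, hdd, N_dg]
    congr 2 <;> ring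
  · intro a b
    show NP ((mk (k * dg (a * (t / 2))))⁻¹ * mk (k * dg (b * (t / 2)))) = _
    have e : (mk (k * dg (a * (t / 2))))⁻¹ * mk (k * dg (b * (t / 2))) =
        mk (dg (b * (t / 2) - a * (t / 2))) := by
      show QuotientGroup.mk ((k * dg (a * (t / 2)))⁻¹ * (k * dg (b * (t / 2)))) = _
      congr 1
      rw [mul_inv_rev, dg_inv, mul_assoc, inv_mul_cancel_left, dg_mul]
      congr 1
      ring
    rw [e, NP_mk, N_dg]
    congr 2 <;> ring

end Pool.Agent.TH38.RK
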