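import Pool.Agent.TH38.RK.Stmts

/-!
# The four point inequality for `NP`
-/

set_option autoImplicit false

open Filter Topology

namespace Pool.Agent.TH38.RK

namespace Ptol

/-- the squared modulus of the determinant of a column of `A` and a column of `B` -/
noncomputable def f (A B : SL) (i j : Fin 2) : ℝ :=
  ‖(A : Mat) 0 i * (B : Mat) 1 j - (A : Mat) 1 i * (B : Mat) 0 j‖ ^ 2

lemma N_inv_mul (A B : SL) : N (A⁻¹ * B) = f A B 0 0 + f A B 0 1 + f A B 1 0 + f A B 1 1 := by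
  have h : ∀ i j, ((A⁻¹ * B : SL) : Mat) i j =
      (!![(A : Mat) 1 1, -(A : Mat) 0 1; -(A : Mat) 1 0, (A : Mat) 0 0] : Mat) i 0 * (B : Mat) 0 j +
      (!![(A : Mat) 1 1, -(A : Mat) 0 1; -(A : Mat) 1 0, (A : Mat) 0 0] : Mat) i 1 * (B : Mat) 1 j := by
    intro i j
    rw [Matrix.SpecialLinearGroup.coe_mul, Matrix.SpecialLinearGroup.coe_inv,
      Matrix.adjugate_fin_two, Matrix.mul_apply, Fin.sum_univ_two]
  have h0 : ∀ j, ‖((A⁻¹ * B : SL) : Mat) 0 j‖ ^ 2 = f A B 1 j := by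
    intro j
    rw [h 0 j]
    unfold f
    have : (!![(A : Mat) 1 1, -(A : Mat) 0 1; -(A : Mat) 1 0, (A : Mat) 0 0] : Mat) 0 0 *
        (B : Mat) 0 j + (!![(A : Mat) 1 1, -(A : Mat) 0 1; -(A : Mat) 1 0, (A : Mat) 0 0] : Mat) 0 1 *
        (B : Mat) 1 j = -((A : Mat) 0 1 * (B : Mat) 1 j - (A : Mat) 1 1 * (B : Mat) 0 j) := by
      simp
      ring
    rw [this, norm_neg]
  have h1 : ∀ j, ‖((A⁻¹ * B : SL) : Mat) 1 j‖ ^ 2 = f A B 0 j := by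
    intro j
    rw [h 1 j]
    unfold f
    have : (!![(A : Mat) 1 1, -(A : Mat) 0 1; -(A : Mat) 1 0, (A : Mat) 0 0] : Mat) 1 0 *
        (B : Mat) 0 j + (!![(A : Mat) 1 1, -(A : Mat) 0 1; -(A : Mat) 1 0, (A : Mat) 0 0] : Mat) 1 1 *
        (B : Mat) 1 j = (A : Mat) 0 0 * (B : Mat) 1 j - (A : Mat) 1 0 * (B : Mat) 0 j := by
      simp
      ring
    rw [this]
  unfold N
  rw [Fin.sum_univ_two, Fin.sum_univ_two, Fin.sum_univ_two, h0, h0, h1, h1]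
  ring

lemma pl (A B C D : SL) (i j k l : Fin 2) :
    f A B i j * f C D k l ≤ 2 * (f A C i k * f B D j l + f A D i l * f B C j k) := by
  unfold f
  generalize (A : Mat) 0 i = a0
  generalize (A : Mat) 1 i = a1
  generalize (B : Mat) 0 j = b0
  generalize (B : Mat) 1 j = b1
  generalize (C : Mat) 0 k = c0
  generalize (C : Mat) 1 k = c1
  generalize (D : Mat) 0 l = d0
  generalize (D : Mat) 1 l = d1
  have h : (a0 * b1 - a1 * b0) * (c0 * d1 - c1 * d0) =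
      (a0 * c1 - a1 * c0) * (b0 * d1 - b1 * d0) - (a0 * d1 - a1 * d0) * (b0 * c1 - b1 * c0) := by
    ring
  have h1 : ‖a0 * b1 - a1 * b0‖ * ‖c0 * d1 - c1 * d0‖ ≤
      ‖a0 * c1 - a1 * c0‖ * ‖b0 * d1 - b1 * d0‖ +
        ‖a0 * d1 - a1 * d0‖ * ‖b0 * c1 - b1 * c0‖ := by
    rw [← norm_mul, ← norm_mul, ← norm_mul, h]
    exact norm_sub_le _ _
  have h2 : 0 ≤ ‖a0 * b1 - a1 * b0‖ * ‖c0 * d1 - c1 * d0‖ := by positivity
  have h3 := mul_self_le_mul_self h2 h1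
  nlinarith [sq_nonneg (‖a0 * c1 - a1 * c0‖ * ‖b0 * d1 - b1 * d0‖ -
    ‖a0 * d1 - a1 * d0‖ * ‖b0 * c1 - b1 * c0‖)]

end Ptol

theorem ptolemy : S_ptolemy := by
  intro a b c d
  obtain ⟨A, rfl⟩ := QuotientGroup.mk_surjective a
  obtain ⟨B, rfl⟩ := QuotientGroup.mk_surjective b
  obtain ⟨C, rfl⟩ := QuotientGroup.mk_surjective c
  obtain ⟨D, rfl⟩ := QuotientGroup.mk_surjective d
  change N (A⁻¹ * B) * N (C⁻¹ * D) ≤
    2 * (N (A⁻¹ * C) * N (B⁻¹ * D) + N (A⁻¹ * D) * N (B⁻¹ * C))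
  rw [Ptol.N_inv_mul A B, Ptol.N_inv_mul C D, Ptol.N_inv_mul A C, Ptol.N_inv_mul B D,
    Ptol.N_inv_mul A D, Ptol.N_inv_mul B C]
  have H := Ptol.pl A B C D
  linarith [H 0 0 0 0, H 0 0 0 1, H 0 0 1 0, H 0 0 1 1, H 0 1 0 0, H 0 1 0 1, H 0 1 1 0,
    H 0 1 1 1, H 1 0 0 0, H 1 0 0 1, H 1 0 1 0, H 1 0 1 1, H 1 1 0 0, H 1 1 0 1, H 1 1 1 0,
    H 1 1 1 1]

end Pool.Agent.TH38.RK
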