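import Pool.Agent.TH38.RK.Stmts

/-!
# The limit tree of hyperbolic 3-space
-/

set_option autoImplicit false

open Filter Topology

namespace Pool.Agent.TH38.RK

namespace Tree

/-- the metric quotient of a pseudometric -/
lemma exists_quot (X : Type) (D : X → X → ℝ) (h0 : ∀ y, D y y = 0) (hc : ∀ y z, D y z = D z y)
    (ht : ∀ y z w, D y w ≤ D y z + D z w) :
    ∃ (T : Type) (_ : MetricSpace T) (π : X → T), Function.Surjective π ∧
      ∀ y z, dist (π y) (π z) = D y z := by
  let inst : PseudoMetricSpace X :=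
    { dist := D
      dist_self := h0
      dist_comm := hc
      dist_triangle := ht }
  exact ⟨SeparationQuotient X, inferInstance, SeparationQuotient.mk,
    SeparationQuotient.surjective_mk, fun y z => SeparationQuotient.dist_mk y z⟩

lemma lim_exists (F : Ultrafilter ℕ) (u : ℕ → ℝ) (a b : ℝ)
    (h : ∀ᶠ i in (F : Filter ℕ), u i ∈ Set.Icc a b) : ∃ L, Tendsto u F (𝓝 L) := by
  have h1 : ((F.map u : Ultrafilter ℝ) : Filter ℝ) ≤ 𝓟 (Set.Icc a b) := by
    rw [Ultrafilter.coe_map, Filter.le_principal_iff, Filter.mem_map]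
    exact h
  obtain ⟨L, -, hL⟩ := isCompact_Icc.ultrafilter_le_nhds (F.map u) h1
  exact ⟨L, hL⟩

lemma cosh_le (s : ℝ) : |s| ≤ Real.log (Real.exp s + Real.exp (-s)) := by
  have h1 : 0 < Real.exp s + Real.exp (-s) := by positivity
  rw [Real.le_log_iff_exp_le h1]
  rcases abs_cases s with ⟨h, -⟩ | ⟨h, -⟩
  · rw [h]
    have := Real.exp_pos (-s)
    linarith
  · rw [h]
    have := Real.exp_pos s
    linarith

lemma le_cosh (s : ℝ) : Real.log (Real.exp s + Real.exp (-s)) ≤ |s| + Real.log 2 := by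
  have h1 : 0 < Real.exp s + Real.exp (-s) := by positivity
  have h2 : Real.exp s + Real.exp (-s) ≤ 2 * Real.exp |s| := by
    have h3 : Real.exp s ≤ Real.exp |s| := Real.exp_le_exp.2 (le_abs_self s)
    have h4 : Real.exp (-s) ≤ Real.exp |s| := Real.exp_le_exp.2 (neg_le_abs s)
    linarith
  have h3 := Real.log_le_log h1 h2
  rw [Real.log_mul (by norm_num) (Real.exp_pos _).ne', Real.log_exp] at h3
  linarith

section
variable {F : Ultrafilter ℕ} {l : ℕ → ℝ}

lemma tendsto_cosh (hl : Tendsto l F atTop) {s : ℕ → ℝ} {A : ℝ}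
    (h : Tendsto (fun i => s i / l i) F (𝓝 A)) :
    Tendsto (fun i => Real.log (Real.exp (s i) + Real.exp (-(s i))) / l i) F (𝓝 |A|) := by
  have h1 : Tendsto (fun i => |s i / l i|) F (𝓝 |A|) := h.abs
  have h2 : Tendsto (fun i => |s i / l i| + Real.log 2 / l i) F (𝓝 (|A| + 0)) :=
    h1.add (hl.const_div_atTop _)
  rw [add_zero] at h2
  have hpos : ∀ᶠ i in (F : Filter ℕ), 0 < l i := hl.eventually_gt_atTop 0
  refine tendsto_of_tendsto_of_tendsto_of_le_of_le' h1 h2 ?_ ?_
  · filter_upwards [hpos] with i hi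
    rw [abs_div, abs_of_pos hi]
    exact div_le_div_of_nonneg_right (cosh_le _) hi.le
  · filter_upwards [hpos] with i hi
    rw [abs_div, abs_of_pos hi, ← add_div]
    exact div_le_div_of_nonneg_right (le_cosh _) hi.le

end

end Tree

open Pool.Agent.TH38.RK.Tree in
theorem tree (hb : S_basic) (hp : S_ptolemy) (hg : S_path) : S_tree := by
  intro F l x hl
  obtain ⟨hb1, hb2, hb3⟩ := hb
  have hpos : ∀ᶠ i in (F : Filter ℕ), 0 < l i := hl.eventually_gt_atTop 0
  have hone : ∀ᶠ i in (F : Filter ℕ), 1 ≤ l i := hl.eventually_ge_atTop 1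
  have hNpos : ∀ p : PSL, 0 < NP p := fun p => lt_of_lt_of_le (by norm_num) (hb1 p)
  have hlog0 : ∀ p : PSL, 0 ≤ Real.log (NP p) := fun p =>
    Real.log_nonneg (le_trans (by norm_num) (hb1 p))
  have hlogmul : ∀ p q : PSL, Real.log (NP (p * q)) ≤ Real.log (NP p) + Real.log (NP q) := by
    intro p q
    rw [← Real.log_mul (hNpos p).ne' (hNpos q).ne']
    exact Real.log_le_log (hNpos _) (hb2 p q)
  have hsymm : ∀ p q : PSL, NP (p⁻¹ * q) = NP (q⁻¹ * p) := by
    intro p q
    rw [← hb3 (p⁻¹ * q), mul_inv_rev, inv_inv]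
  have htri : ∀ p q r : PSL, Real.log (NP (p⁻¹ * r)) ≤
      Real.log (NP (p⁻¹ * q)) + Real.log (NP (q⁻¹ * r)) := by
    intro p q r
    have h1 : p⁻¹ * r = (p⁻¹ * q) * (q⁻¹ * r) := by group
    rw [h1]
    exact hlogmul _ _
  -- the limits exist
  have hlim : ∀ y z : Adm F l x, ∃ L, Tendsto (fun i => Real.log (NP ((y.1 i)⁻¹ * z.1 i)) / l i) F
      (𝓝 L) := by
    intro y z
    obtain ⟨C, hC⟩ := y.2
    obtain ⟨C', hC'⟩ := z.2
    refine lim_exists F _ 0 (C + C') ?_
    filter_upwards [hC, hC', hpos] with i h1 h2 h3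
    refine ⟨div_nonneg (hlog0 _) h3.le, ?_⟩
    rw [div_le_iff₀ h3]
    have h4 := htri (y.1 i) (x i) (z.1 i)
    rw [hsymm (y.1 i) (x i)] at h4
    linarith
  choose D hD using hlim
  have hD0 : ∀ y, D y y = 0 := by
    intro y
    refine tendsto_nhds_unique (hD y y) ?_
    have h1 : (fun i => Real.log (NP ((y.1 i)⁻¹ * y.1 i)) / l i) =
        fun i => Real.log (NP 1) / l i := by
      funext i
      rw [inv_mul_cancel]
    rw [h1]
    exact hl.const_div_atTop _
  have hDc : ∀ y z, D y z = D z y := by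
    intro y z
    refine tendsto_nhds_unique (hD y z) ?_
    have h1 : (fun i => Real.log (NP ((y.1 i)⁻¹ * z.1 i)) / l i) =
        fun i => Real.log (NP ((z.1 i)⁻¹ * y.1 i)) / l i := by
      funext i
      rw [hsymm]
    rw [h1]
    exact hD z y
  have hDt : ∀ y z w, D y w ≤ D y z + D z w := by
    intro y z w
    refine le_of_tendsto_of_tendsto (hD y w) ((hD y z).add (hD z w)) ?_
    filter_upwards [hpos] with i hi
    rw [← add_div]
    exact div_le_div_of_nonneg_right (htri _ _ _) hi.le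
  obtain ⟨T, inst, π, hπ, hdist⟩ := exists_quot (Adm F l x) D hD0 hDc hDt
  have hzero : ∀ (y z : Adm F l x) (c : ℝ), (∀ i, NP ((y.1 i)⁻¹ * z.1 i) = c) → π y = π z := by
    intro y z c hc
    rw [← dist_eq_zero, hdist]
    refine tendsto_nhds_unique (hD y z) ?_
    have h1 : (fun i => Real.log (NP ((y.1 i)⁻¹ * z.1 i)) / l i) = fun i => Real.log c / l i := by
      funext i
      rw [hc]
    rw [h1]
    exact hl.const_div_atTop _
  refine ⟨T, inst, π, hπ, ⟨?_, ?_, ?_⟩, ?_⟩
  · -- the base points `x`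
    refine ⟨π ⟨x, |Real.log (NP 1)|, ?_⟩⟩
    filter_upwards [hone] with i hi
    rw [inv_mul_cancel]
    exact (le_abs_self _).trans (le_mul_of_one_le_right (abs_nonneg _) hi)
  · intro y' z'
    obtain ⟨y, rfl⟩ := hπ y'
    obtain ⟨z, rfl⟩ := hπ z'
    choose t γ ht h0 h1 hN hγ using fun i => hg ((y.1 i)⁻¹ * z.1 i)
    -- `t i / l i` tends to the distance
    have htl : Tendsto (fun i => t i / l i) F (𝓝 (D y z)) := by
      have h2 : Tendsto (fun i => Real.log (NP ((y.1 i)⁻¹ * z.1 i)) / l i - Real.log 2 / l i) F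
          (𝓝 (D y z - 0)) := (hD y z).sub (hl.const_div_atTop _)
      rw [sub_zero] at h2
      refine tendsto_of_tendsto_of_tendsto_of_le_of_le' h2 (hD y z) ?_ ?_
      · filter_upwards [hpos] with i hi
        rw [← sub_div]
        refine div_le_div_of_nonneg_right ?_ hi.le
        rw [hN i]
        have h3 := le_cosh (t i)
        rw [abs_of_nonneg (ht i)] at h3
        linarith
      · filter_upwards [hpos] with i hi
        refine div_le_div_of_nonneg_right ?_ hi.le
        rw [hN i]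
        have h3 := cosh_le (t i)
        rwa [abs_of_nonneg (ht i)] at h3
    -- admissibility
    have hadm : ∀ a : ℝ, (fun i => y.1 i * γ i a) ∈ Adm F l x := by
      intro a
      obtain ⟨C, hC⟩ := y.2
      have hbd : ∀ᶠ i in (F : Filter ℕ), t i / l i ≤ D y z + 1 :=
        htl.eventually_le_const (by linarith)
      refine ⟨C + Real.log 2 + ((D y z + 1) * |a| + Real.log 2), ?_⟩
      filter_upwards [hC, hpos, hone, hbd] with i h2 h3 h4 h5
      have h6 : (x i)⁻¹ * (y.1 i * γ i a) = ((x i)⁻¹ * y.1 i) * (γ i 0 * ((γ i 0)⁻¹ * γ i a)) := by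
        group
      have h7 := hlogmul ((x i)⁻¹ * y.1 i) (γ i 0 * ((γ i 0)⁻¹ * γ i a))
      have h8 := hlogmul (γ i 0) ((γ i 0)⁻¹ * γ i a)
      have h9 := hγ i 0 a
      rw [h0 i] at h8
      rw [h9] at h8
      have h10 := le_cosh (t i * (a - 0))
      rw [sub_zero] at h8 h10
      rw [abs_mul, abs_of_nonneg (ht i)] at h10
      rw [div_le_iff₀ h3] at h5
      have h11 : t i * |a| ≤ (D y z + 1) * l i * |a| :=
        mul_le_mul_of_nonneg_right h5 (abs_nonneg a)
      have h12 : Real.log 2 ≤ Real.log 2 * l i :=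
        le_mul_of_one_le_right (Real.log_nonneg (by norm_num)) h4
      rw [h6]
      nlinarith
    obtain ⟨Y, hY⟩ : ∃ Y : ℝ → Adm F l x, ∀ a i, (Y a).1 i = y.1 i * γ i a :=
      ⟨fun a => ⟨_, hadm a⟩, fun a i => rfl⟩
    have hYD : ∀ a b, D (Y a) (Y b) = |D y z * (b - a)| := by
      intro a b
      refine tendsto_nhds_unique (hD (Y a) (Y b)) ?_
      have h2 : (fun i => Real.log (NP (((Y a).1 i)⁻¹ * (Y b).1 i)) / l i) =
          fun i => Real.log (Real.exp (t i * (b - a)) + Real.exp (-(t i * (b - a)))) / l i := by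
        funext i
        rw [hY, hY, ← hγ i a b]
        congr 3
        group
      rw [h2]
      refine tendsto_cosh hl ?_
      have h3 : (fun i => t i * (b - a) / l i) = fun i => t i / l i * (b - a) := by
        funext i
        ring
      rw [h3]
      exact htl.mul_const _
    have hY0 : π y = π (Y 0) := by
      refine hzero y (Y 0) 2 fun i => ?_
      rw [hY, inv_mul_cancel_left]
      exact h0 i
    have hY1 : π z = π (Y 1) := by
      refine hzero z (Y 1) 2 fun i => ?_
      rw [hY, ← h1 i]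
      congr 1
      group
    have hD' : dist (π y) (π z) = D y z := hdist y z
    rcases eq_or_ne (D y z) 0 with hz | hz
    · refine ⟨fun _ => π y, rfl, ?_, ?_⟩
      · show π y = π z
        rw [← dist_eq_zero, hD', hz]
      · intro s t' hs hst ht'
        rw [hD', hz] at ht'
        rw [dist_self]
        linarith
    · have hDpos : 0 < D y z := by
        rw [← hD'] at hz ⊢
        exact lt_of_le_of_ne dist_nonneg (Ne.symm hz)
      refine ⟨fun s => π (Y (s / D y z)), ?_, ?_, ?_⟩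
      · show π (Y (0 / D y z)) = π y
        rw [zero_div]
        exact hY0.symm
      · show π (Y (dist (π y) (π z) / D y z)) = π z
        rw [hD', div_self hz]
        exact hY1.symm
      · intro s t' hs hst ht'
        show dist (π (Y (s / D y z))) (π (Y (t' / D y z))) = t' - s
        rw [hdist, hYD]
        have h2 : D y z * (t' / D y z - s / D y z) = t' - s := by
          field_simp
        rw [h2, abs_of_nonneg (by linarith)]
  · intro a' b' c' d'
    obtain ⟨a, rfl⟩ := hπ a'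
    obtain ⟨b, rfl⟩ := hπ b'
    obtain ⟨c, rfl⟩ := hπ c'
    obtain ⟨d, rfl⟩ := hπ d'
    rw [hdist, hdist, hdist, hdist, hdist, hdist]
    have h1 : Tendsto (fun i => max (Real.log (NP ((a.1 i)⁻¹ * c.1 i)) / l i +
        Real.log (NP ((b.1 i)⁻¹ * d.1 i)) / l i) (Real.log (NP ((a.1 i)⁻¹ * d.1 i)) / l i +
        Real.log (NP ((b.1 i)⁻¹ * c.1 i)) / l i) + Real.log 4 / l i) F
        (𝓝 (max (D a c + D b d) (D a d + D b c) + 0)) :=
      (((hD a c).add (hD b d)).max ((hD a d).add (hD b c))).add (hl.const_div_atTop _)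
    rw [add_zero] at h1
    refine le_of_tendsto_of_tendsto ((hD a b).add (hD c d)) h1 ?_
    filter_upwards [hpos] with i hi
    have h2 := hp (a.1 i) (b.1 i) (c.1 i) (d.1 i)
    have h3 : Real.log (NP ((a.1 i)⁻¹ * b.1 i)) + Real.log (NP ((c.1 i)⁻¹ * d.1 i)) ≤
        max (Real.log (NP ((a.1 i)⁻¹ * c.1 i)) + Real.log (NP ((b.1 i)⁻¹ * d.1 i)))
          (Real.log (NP ((a.1 i)⁻¹ * d.1 i)) + Real.log (NP ((b.1 i)⁻¹ * c.1 i))) +
          Real.log 4 := by
      rw [← Real.log_mul (hNpos _).ne' (hNpos _).ne', ← Real.log_mul (hNpos _).ne' (hNpos _).ne',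
        ← Real.log_mul (hNpos _).ne' (hNpos _).ne']
      obtain ⟨P, hP⟩ : ∃ P, P = NP ((a.1 i)⁻¹ * c.1 i) * NP ((b.1 i)⁻¹ * d.1 i) := ⟨_, rfl⟩
      obtain ⟨Q, hQ⟩ : ∃ Q, Q = NP ((a.1 i)⁻¹ * d.1 i) * NP ((b.1 i)⁻¹ * c.1 i) := ⟨_, rfl⟩
      rw [← hP, ← hQ] at h2 ⊢
      have hPpos : 0 < P := by rw [hP]; exact mul_pos (hNpos _) (hNpos _)
      have hQpos : 0 < Q := by rw [hQ]; exact mul_pos (hNpos _) (hNpos _)
      have hLpos : 0 < NP ((a.1 i)⁻¹ * b.1 i) * NP ((c.1 i)⁻¹ * d.1 i) :=
        mul_pos (hNpos _) (hNpos _)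
      rcases le_total P Q with h4 | h4
      · refine le_trans (Real.log_le_log hLpos (h2.trans (by linarith : _ ≤ Q * 4))) ?_
        rw [Real.log_mul hQpos.ne' (by norm_num)]
        have := le_max_right (Real.log P) (Real.log Q)
        linarith
      · refine le_trans (Real.log_le_log hLpos (h2.trans (by linarith : _ ≤ P * 4))) ?_
        rw [Real.log_mul hPpos.ne' (by norm_num)]
        have := le_max_left (Real.log P) (Real.log Q)
        linarith
    rw [← add_div, ← add_div, ← add_div, max_div_div_right hi.le, ← add_div]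
    exact div_le_div_of_nonneg_right h3 hi.le
  · intro y z
    rw [hdist]
    exact hD y z

end Pool.Agent.TH38.RK
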