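import Pool.Agent.TH38.RK.Stmts

/-!
# A Zassenhaus neighbourhood of `PSL(2,ℂ)` (job 4839, helper692)
-/

set_option autoImplicit false
open Filter Topology

namespace Pool.Agent.TH38.RK

namespace Zas

lemma comm_iff (A B : Mat) : A * B = B * A ↔ (A 0 1 * B 1 0 = B 0 1 * A 1 0 ∧
    (A 0 0 - A 1 1) * B 0 1 = (B 0 0 - B 1 1) * A 0 1 ∧
    (A 0 0 - A 1 1) * B 1 0 = (B 0 0 - B 1 1) * A 1 0) := by
  constructor
  · intro h
    have h00 := congrFun (congrFun h 0) 0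
    have h01 := congrFun (congrFun h 0) 1
    have h10 := congrFun (congrFun h 1) 0
    simp only [Matrix.mul_apply, Fin.sum_univ_two] at h00 h01 h10
    refine ⟨?_, ?_, ?_⟩
    · linear_combination h00
    · linear_combination h01
    · linear_combination -h10
  · rintro ⟨h1, h2, h3⟩
    ext i j
    fin_cases i <;> fin_cases j <;>
      simp only [Matrix.mul_apply, Fin.sum_univ_two, Fin.zero_eta, Fin.mk_one, Fin.isValue]
    · linear_combination h1
    · linear_combination h2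
    · linear_combination -h3
    · linear_combination -h1

lemma comm_coe {A B : SL} (h : A * B = B * A) : (A : Mat) * (B : Mat) = (B : Mat) * (A : Mat) := by
  have := congrArg (fun M : SL => (M : Mat)) h
  simpa using this

lemma coe_comm {A B : SL} (h : (A : Mat) * (B : Mat) = (B : Mat) * (A : Mat)) : A * B = B * A := by
  apply Subtype.ext
  simpa using h

lemma det_eq (A : SL) : (A : Mat) 0 0 * (A : Mat) 1 1 - (A : Mat) 0 1 * (A : Mat) 1 0 = 1 := by
  have := A.det_coe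
  rwa [Matrix.det_fin_two] at this

lemma inv_eq (A : SL) : ((A⁻¹ : SL) : Mat) = !![(A : Mat) 1 1, -(A : Mat) 0 1;
    -(A : Mat) 1 0, (A : Mat) 0 0] := by
  rw [Matrix.SpecialLinearGroup.coe_inv, Matrix.adjugate_fin_two]

lemma case_b {A C : SL} (htr : (A : Mat) 0 0 + (A : Mat) 1 1 = (C : Mat) 0 0 + (C : Mat) 1 1)
    (ht : ((A : Mat) 0 0 + (A : Mat) 1 1) ^ 2 = 4)
    (hc : A * (C⁻¹ * A * C) = (C⁻¹ * A * C) * A) : A * C = C * A := by
  apply coe_comm
  have h1 := comm_coe hc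
  rw [comm_iff] at h1 ⊢
  have hA := det_eq A
  have hC := det_eq C
  simp only [Matrix.SpecialLinearGroup.coe_mul, inv_eq, Matrix.mul_apply, Fin.sum_univ_two,
    Matrix.of_apply, Matrix.cons_val', Matrix.cons_val_zero, Matrix.cons_val_one,
    Matrix.cons_val_fin_one] at h1
  obtain ⟨e1, e2, e3⟩ := h1
  generalize (A : Mat) 0 0 = a at *
  generalize (A : Mat) 0 1 = b at *
  generalize (A : Mat) 1 0 = c at *
  generalize (A : Mat) 1 1 = d at *
  generalize (C : Mat) 0 0 = e at *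
  generalize (C : Mat) 0 1 = f at *
  generalize (C : Mat) 1 0 = g at *
  generalize (C : Mat) 1 1 = h at *
  obtain ⟨s, x, y, rfl, rfl, rfl, rfl⟩ : ∃ s x y : ℂ, a = s + x ∧ d = s - x ∧ e = s + y ∧
      h = s - y := by
    refine ⟨(a + d) / 2, (a - d) / 2, (e - h) / 2, by ring, by ring, ?_, ?_⟩
    · linear_combination -htr / 2
    · linear_combination -htr / 2
  have hs : s ^ 2 = 1 := by linear_combination ht / 4
  have r1 : x ^ 2 + b * c = 0 := by linear_combination hs - hA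
  have r2 : y ^ 2 + f * g = 0 := by linear_combination hs - hC
  have hs0 : s ≠ 0 := by
    rintro rfl
    norm_num at hs
  set τ : ℂ := 2 * x * y + b * g + c * f with hτ
  have k1 : τ * (2 * s * x + b * g - c * f) = 0 := by
    rw [hτ]
    linear_combination 4 * s * y * r1 - e1
  have k2 : τ * (s * b + x * f - b * y) = 0 := by
    rw [hτ]
    linear_combination 2 * s * f * r1 - e2 / 2
  have k3 : τ * (s * c + c * y - x * g) = 0 := by
    rw [hτ]
    linear_combination e3 / 2 + 2 * s * g * r1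
  have hτ0 : τ = 0 := by
    by_contra hne
    have l1 := (mul_eq_zero.1 k1).resolve_left hne
    have l2 := (mul_eq_zero.1 k2).resolve_left hne
    have l3 := (mul_eq_zero.1 k3).resolve_left hne
    have : s * τ = 0 := by
      rw [hτ]
      linear_combination y * l1 + g * l2 + f * l3
    rcases mul_eq_zero.1 this with h | h
    · exact hs0 h
    · exact hne h
  rw [hτ] at hτ0
  have q1 : (b * g - f * c) ^ 2 = 0 := by
    linear_combination (b * g + c * f - 2 * x * y) * hτ0 + 4 * y ^ 2 * r1 - 4 * b * c * r2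
  have q2 : (x * f - y * b) ^ 2 = 0 := by
    linear_combination f ^ 2 * r1 + b ^ 2 * r2 - b * f * hτ0
  have q3 : (x * g - y * c) ^ 2 = 0 := by
    linear_combination g ^ 2 * r1 + c ^ 2 * r2 - c * g * hτ0
  have q1' := pow_eq_zero_iff (two_ne_zero) |>.1 q1
  have q2' := pow_eq_zero_iff (two_ne_zero) |>.1 q2
  have q3' := pow_eq_zero_iff (two_ne_zero) |>.1 q3
  refine ⟨?_, ?_, ?_⟩
  · linear_combination q1'
  · linear_combination 2 * q2'
  · linear_combination 2 * q3'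

lemma case_a {A W : SL} (ht : ((A : Mat) 0 0 + (A : Mat) 1 1) ^ 2 ≠ 4)
    (hW : (W : Mat) 0 0 + (W : Mat) 1 1 ≠ 0)
    (hc : A * (W * A * W⁻¹) = (W * A * W⁻¹) * A) : A * W = W * A := by
  set B : SL := W * A * W⁻¹ with hB
  have hBW : B * W = W * A := by rw [hB, inv_mul_cancel_right]
  have htr : (B : Mat) 0 0 + (B : Mat) 1 1 = (A : Mat) 0 0 + (A : Mat) 1 1 := by
    have h1 : Matrix.trace (B : Mat) = Matrix.trace (A : Mat) := by
      rw [hB, Matrix.SpecialLinearGroup.coe_mul, Matrix.SpecialLinearGroup.coe_mul,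
        Matrix.trace_mul_comm, ← mul_assoc, ← Matrix.SpecialLinearGroup.coe_mul,
        inv_mul_cancel, Matrix.SpecialLinearGroup.coe_one, one_mul]
    rwa [Matrix.trace_fin_two, Matrix.trace_fin_two] at h1
  have h1 := comm_coe hc
  rw [comm_iff] at h1
  have hA := det_eq A
  have hB1 := det_eq B
  have hBW' : (B : Mat) * (W : Mat) = (W : Mat) * (A : Mat) := by
    have := congrArg (fun M : SL => (M : Mat)) hBW
    simpa using this
  apply coe_comm
  rw [comm_iff]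
  have w00 := congrFun (congrFun hBW' 0) 0
  have w01 := congrFun (congrFun hBW' 0) 1
  have w10 := congrFun (congrFun hBW' 1) 0
  have w11 := congrFun (congrFun hBW' 1) 1
  simp only [Matrix.mul_apply, Fin.sum_univ_two] at w00 w01 w10 w11
  clear_value B
  clear hBW' hBW hc hB
  obtain ⟨e1, e2, e3⟩ := h1
  generalize (A : Mat) 0 0 = a at *
  generalize (A : Mat) 0 1 = b at *
  generalize (A : Mat) 1 0 = c at *
  generalize (A : Mat) 1 1 = d at *
  generalize (B : Mat) 0 0 = a' at *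
  generalize (B : Mat) 0 1 = b' at *
  generalize (B : Mat) 1 0 = c' at *
  generalize (B : Mat) 1 1 = d' at *
  generalize (W : Mat) 0 0 = e at *
  generalize (W : Mat) 0 1 = f at *
  generalize (W : Mat) 1 0 = g at *
  generalize (W : Mat) 1 1 = h at *
  set Δ : ℂ := (a - d) ^ 2 + 4 * b * c with hΔ
  have hΔ0 : Δ ≠ 0 := by
    intro h0
    apply ht
    rw [hΔ] at h0
    linear_combination h0 + 4 * hA
  have hΔ' : (a' - d') ^ 2 + 4 * b' * c' = Δ := by
    rw [hΔ]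
    linear_combination (a' + d' + a + d) * htr - 4 * hB1 + 4 * hA
  set κ : ℂ := ((a - d) * (a' - d') + 2 * b * c' + 2 * c * b') / Δ with hκ
  have hκΔ : κ * Δ = (a - d) * (a' - d') + 2 * b * c' + 2 * c * b' := by
    rw [hκ]
    exact div_mul_cancel₀ _ hΔ0
  have f1 : a' - d' = κ * (a - d) := by
    apply mul_right_cancel₀ hΔ0
    rw [mul_assoc, mul_comm (a - d) Δ, ← mul_assoc, hκΔ, hΔ]
    linear_combination -(2 * c * e2 + 2 * b * e3)
  have f2 : b' = κ * b := by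
    apply mul_right_cancel₀ hΔ0
    rw [mul_assoc, mul_comm b Δ, ← mul_assoc, hκΔ, hΔ]
    linear_combination (a - d) * e2 - 2 * b * e1
  have f3 : c' = κ * c := by
    apply mul_right_cancel₀ hΔ0
    rw [mul_assoc, mul_comm c Δ, ← mul_assoc, hκΔ, hΔ]
    linear_combination (a - d) * e3 + 2 * c * e1
  have hκ2 : (κ - 1) * (κ + 1) = 0 := by
    apply mul_right_cancel₀ hΔ0
    rw [zero_mul]
    have : κ ^ 2 * Δ = Δ := by
      conv_rhs => rw [← hΔ', f1, f2, f3]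
      rw [hΔ]
      ring
    linear_combination this
  rcases mul_eq_zero.1 hκ2 with hk | hk
  · have hk1 : κ = 1 := by linear_combination hk
    rw [hk1, one_mul] at f1 f2 f3
    have g1 : a' = a := by linear_combination (htr + f1) / 2
    have g2 : d' = d := by linear_combination (htr - f1) / 2
    subst g1 g2 f2 f3
    refine ⟨?_, ?_, ?_⟩
    · linear_combination w00
    · linear_combination w01
    · linear_combination -w10
  · exfalso
    have hk1 : κ = -1 := by linear_combination hk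
    rw [hk1] at f1 f2 f3
    have g1 : a' = d := by linear_combination (htr + f1) / 2
    have g2 : d' = a := by linear_combination (htr - f1) / 2
    have g3 : b' = -b := by linear_combination f2
    have g4 : c' = -c := by linear_combination f3
    subst g1 g2 g3 g4
    have v1 : (e + h) * b = 0 := by linear_combination -w01
    have v2 : (e + h) * c = 0 := by linear_combination -w10
    have v3 : (e + h) * (d' - a') = 0 := by linear_combination w11 - w00
    have v1' := (mul_eq_zero.1 v1).resolve_left hW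
    have v2' := (mul_eq_zero.1 v2).resolve_left hW
    have v3' := (mul_eq_zero.1 v3).resolve_left hW
    apply hΔ0
    rw [hΔ, v1']
    linear_combination (d' - a') * v3'

/-- the iterated commutators -/
noncomputable def sq (u v : SL) : ℕ → SL
  | 0 => v
  | n + 1 => u * sq u v n * u⁻¹ * (sq u v n)⁻¹

lemma mul_bd {X Y : Mat} {a b : ℝ} (ha : 0 ≤ a) (hX : ∀ i j, ‖X i j‖ ≤ a)
    (hY : ∀ i j, ‖Y i j‖ ≤ b) (i j : Fin 2) : ‖(X * Y) i j‖ ≤ 2 * a * b := by
  rw [Matrix.mul_apply, Fin.sum_univ_two]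
  refine (norm_add_le _ _).trans ?_
  rw [norm_mul, norm_mul]
  have h0 := mul_le_mul (hX i 0) (hY 0 j) (norm_nonneg _) ha
  have h1 := mul_le_mul (hX i 1) (hY 1 j) (norm_nonneg _) ha
  linarith

lemma inv_bd {w : SL} {a : ℝ} (h : ∀ i j, ‖(w : Mat) i j - (1 : Mat) i j‖ ≤ a) (i j : Fin 2) :
    ‖((w⁻¹ : SL) : Mat) i j‖ ≤ 1 + a := by
  have h00 := h 0 0
  have h01 := h 0 1
  have h10 := h 1 0
  have h11 := h 1 1
  rw [Matrix.one_apply_eq] at h00 h11
  rw [Matrix.one_apply_ne (by decide), sub_zero] at h01 h10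
  have ha : 0 ≤ a := (norm_nonneg _).trans h00
  have key : ∀ z : ℂ, ‖z - 1‖ ≤ a → ‖z‖ ≤ 1 + a := by
    intro z hz
    calc ‖z‖ = ‖1 + (z - 1)‖ := by rw [add_sub_cancel]
      _ ≤ ‖(1 : ℂ)‖ + ‖z - 1‖ := norm_add_le _ _
      _ ≤ 1 + a := by rw [norm_one]; linarith
  rw [inv_eq]
  fin_cases i <;> fin_cases j <;>
    simp only [Matrix.of_apply, Matrix.cons_val', Matrix.cons_val_zero, Matrix.cons_val_one,
      Matrix.cons_val_fin_one, Fin.zero_eta, Fin.mk_one, norm_neg]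
  · exact key _ h11
  · linarith
  · linarith
  · exact key _ h00

/-- contraction -/
lemma contr {u w : SL} {δ : ℝ} (hδ : δ ≤ 1 / 100)
    (hu : ∀ i j, ‖(u : Mat) i j - (1 : Mat) i j‖ ≤ 1 / 100)
    (hw : ∀ i j, ‖(w : Mat) i j - (1 : Mat) i j‖ ≤ δ) (i j : Fin 2) :
    ‖((u * w * u⁻¹ * w⁻¹ : SL) : Mat) i j - (1 : Mat) i j‖ ≤ δ / 2 := by
  have hδ0 : 0 ≤ δ := (norm_nonneg _).trans (hw 0 0)
  set A : Mat := (u : Mat) - 1 with hA
  set B : Mat := (w : Mat) - 1 with hB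
  have hAb : ∀ i j, ‖A i j‖ ≤ 1 / 100 := hu
  have hBb : ∀ i j, ‖B i j‖ ≤ δ := hw
  have e : ((u * w * u⁻¹ * w⁻¹ : SL) : Mat) - 1 =
      (A * B - B * A) * (((u⁻¹ : SL) : Mat) * ((w⁻¹ : SL) : Mat)) := by
    have e1 : A * B - B * A = (u : Mat) * w - w * u := by
      rw [hA, hB]
      noncomm_ring
    have e2 : (w : Mat) * u * (((u⁻¹ : SL) : Mat) * ((w⁻¹ : SL) : Mat)) = 1 := by
      rw [← Matrix.SpecialLinearGroup.coe_mul, ← Matrix.SpecialLinearGroup.coe_mul,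
        ← Matrix.SpecialLinearGroup.coe_mul]
      have : w * u * (u⁻¹ * w⁻¹) = 1 := by group
      rw [this, Matrix.SpecialLinearGroup.coe_one]
    rw [e1, sub_mul, e2, Matrix.SpecialLinearGroup.coe_mul, Matrix.SpecialLinearGroup.coe_mul,
      Matrix.SpecialLinearGroup.coe_mul, mul_assoc ((u : Mat) * w)]
  have e' : ((u * w * u⁻¹ * w⁻¹ : SL) : Mat) i j - (1 : Mat) i j =
      ((A * B - B * A) * (((u⁻¹ : SL) : Mat) * ((w⁻¹ : SL) : Mat))) i j := by
    rw [← e]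
    rfl
  rw [e']
  have h1 : ∀ i j, ‖(A * B - B * A) i j‖ ≤ 4 * (1 / 100) * δ := by
    intro i j
    have h2 := mul_bd (by norm_num) hAb hBb i j
    have h3 := mul_bd hδ0 hBb hAb i j
    have h4 : (A * B - B * A) i j = (A * B) i j - (B * A) i j := rfl
    rw [h4]
    refine (norm_sub_le _ _).trans ?_
    linarith
  have h5 : ∀ i j, ‖(((u⁻¹ : SL) : Mat) * ((w⁻¹ : SL) : Mat)) i j‖ ≤
      2 * (1 + 1 / 100) * (1 + δ) :=
    mul_bd (by norm_num) (inv_bd hu) (inv_bd hw)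
  refine (mul_bd (by positivity) h1 h5 i j).trans ?_
  nlinarith

lemma sq_bd {u v : SL} (hu : ∀ i j, ‖(u : Mat) i j - (1 : Mat) i j‖ ≤ 1 / 100)
    (hv : ∀ i j, ‖(v : Mat) i j - (1 : Mat) i j‖ ≤ 1 / 100) (n : ℕ) :
    ∀ i j, ‖(sq u v n : Mat) i j - (1 : Mat) i j‖ ≤ 1 / 100 * (1 / 2) ^ n := by
  induction n with
  | zero =>
    intro i j
    rw [pow_zero, mul_one]
    exact hv i j
  | succ n ih =>
    intro i j
    have h1 : (1 / 100 : ℝ) * (1 / 2) ^ n ≤ 1 / 100 := by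
      have : ((1 : ℝ) / 2) ^ n ≤ 1 := pow_le_one₀ (by norm_num) (by norm_num)
      linarith
    have := contr h1 hu ih i j
    refine this.trans (le_of_eq ?_)
    rw [pow_succ]
    ring

lemma tr_ne {w : SL} (hw : ∀ i j, ‖(w : Mat) i j - (1 : Mat) i j‖ ≤ 1 / 100) :
    (w : Mat) 0 0 + (w : Mat) 1 1 ≠ 0 := by
  intro h
  have h00 := hw 0 0
  have h11 := hw 1 1
  rw [Matrix.one_apply_eq] at h00 h11
  have h1 : ‖((w : Mat) 0 0 - 1) + ((w : Mat) 1 1 - 1)‖ ≤ 1 / 100 + 1 / 100 :=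
    (norm_add_le _ _).trans (add_le_add h00 h11)
  have h2 : ((w : Mat) 0 0 - 1) + ((w : Mat) 1 1 - 1) = -2 := by linear_combination h
  rw [h2, norm_neg, Complex.norm_ofNat] at h1
  norm_num at h1

/-- one step down -/
lemma down {u v : SL} (hw : (u * v * u⁻¹ * v⁻¹ : SL).1 0 0 + (u * v * u⁻¹ * v⁻¹ : SL).1 1 1 ≠ 0)
    (h : u * (u * (u * v * u⁻¹ * v⁻¹) * u⁻¹ * (u * v * u⁻¹ * v⁻¹)⁻¹) * u⁻¹ *
      (u * (u * v * u⁻¹ * v⁻¹) * u⁻¹ * (u * v * u⁻¹ * v⁻¹)⁻¹)⁻¹ = 1) :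
    u * (u * v * u⁻¹ * v⁻¹) * u⁻¹ * (u * v * u⁻¹ * v⁻¹)⁻¹ = 1 := by
  set W : SL := u * v * u⁻¹ * v⁻¹ with hW
  have key : ∀ a b : SL, a * b * a⁻¹ * b⁻¹ = 1 ↔ a * b = b * a := by
    intro a b
    rw [mul_inv_eq_one, mul_inv_eq_iff_eq_mul]
  rw [key] at h ⊢
  -- `u` commutes with `W u⁻¹ W⁻¹`
  have h1 : u * (W * u⁻¹ * W⁻¹) = (W * u⁻¹ * W⁻¹) * u := by
    have h2 : u * (u * (W * u⁻¹ * W⁻¹)) = u * ((W * u⁻¹ * W⁻¹) * u) := by
      calc u * (u * (W * u⁻¹ * W⁻¹)) = u * (u * W * u⁻¹ * W⁻¹) := by group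
        _ = u * W * u⁻¹ * W⁻¹ * u := h
        _ = u * ((W * u⁻¹ * W⁻¹) * u) := by group
    exact mul_left_cancel h2
  have h3 : u * (W * u * W⁻¹) = (W * u * W⁻¹) * u := by
    have h4 : Commute u (W * u⁻¹ * W⁻¹) := h1
    have h5 := h4.inv_right
    have h6 : (W * u⁻¹ * W⁻¹)⁻¹ = W * u * W⁻¹ := by group
    rw [h6] at h5
    exact h5
  by_cases ht : ((u : Mat) 0 0 + (u : Mat) 1 1) ^ 2 = 4
  · set C : SL := v * u * v⁻¹ with hC
    have hWC : W = u * C⁻¹ := by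
      rw [hW, hC]
      group
    have htr : (u : Mat) 0 0 + (u : Mat) 1 1 = (C : Mat) 0 0 + (C : Mat) 1 1 := by
      have h7 : Matrix.trace (C : Mat) = Matrix.trace (u : Mat) := by
        rw [hC, Matrix.SpecialLinearGroup.coe_mul, Matrix.SpecialLinearGroup.coe_mul,
          Matrix.trace_mul_comm, ← mul_assoc, ← Matrix.SpecialLinearGroup.coe_mul,
          inv_mul_cancel, Matrix.SpecialLinearGroup.coe_one, one_mul]
      rw [Matrix.trace_fin_two, Matrix.trace_fin_two] at h7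
      exact h7.symm
    have h8 : u * (C⁻¹ * u * C) = (C⁻¹ * u * C) * u := by
      rw [hWC] at h3
      have h9 : u * (u * (C⁻¹ * u * C)) * u⁻¹ = u * (C⁻¹ * u * C * u) * u⁻¹ := by
        calc u * (u * (C⁻¹ * u * C)) * u⁻¹ = u * (u * C⁻¹ * u * (u * C⁻¹)⁻¹) := by group
          _ = (u * C⁻¹ * u * (u * C⁻¹)⁻¹) * u := h3
          _ = u * (C⁻¹ * u * C * u) * u⁻¹ := by group
      exact mul_left_cancel (mul_right_cancel h9)
    have h10 : Commute u C := case_b htr ht h8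
    rw [hWC]
    exact (Commute.refl u).mul_right h10.inv_right
  · exact case_a ht hw h3

lemma sq_two {u v : SL} (hu : ∀ i j, ‖(u : Mat) i j - (1 : Mat) i j‖ ≤ 1 / 100)
    (hv : ∀ i j, ‖(v : Mat) i j - (1 : Mat) i j‖ ≤ 1 / 100) (n : ℕ) (hn : sq u v n = 1) :
    sq u v 2 = 1 := by
  induction n with
  | zero =>
    have h0 : v = 1 := hn
    simp only [sq, h0]
    group
  | succ n ih =>
    rcases Nat.lt_or_ge n 2 with h | h
    · interval_cases n
      · have h1 : sq u v 1 = 1 := hn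
        have h2 : sq u v 2 = u * sq u v 1 * u⁻¹ * (sq u v 1)⁻¹ := rfl
        rw [h2, h1]
        group
      · exact hn
    · obtain ⟨k, rfl⟩ : ∃ k, n = k + 2 := ⟨n - 2, by omega⟩
      apply ih
      have h1 : sq u v (k + 1) = u * sq u v k * u⁻¹ * (sq u v k)⁻¹ := rfl
      have h2 : sq u v (k + 2) = u * sq u v (k + 1) * u⁻¹ * (sq u v (k + 1))⁻¹ := rfl
      have h3 : sq u v (k + 2 + 1) = u * sq u v (k + 2) * u⁻¹ * (sq u v (k + 2))⁻¹ := rfl
      rw [h3, h2, h1] at hn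
      rw [h2, h1]
      refine down ?_ hn
      have h4 := tr_ne (w := sq u v (k + 1)) (fun i j => (sq_bd hu hv (k + 1) i j).trans (by
        have : ((1 : ℝ) / 2) ^ (k + 1) ≤ 1 := pow_le_one₀ (by norm_num) (by norm_num)
        linarith))
      rw [h1] at h4
      exact h4

end Zas

open Zas in
theorem zassenhaus : S_zassenhaus := by
  refine ⟨1 / 100, by norm_num, ?_⟩
  intro Γ hΓ m u v hu hv hun hvn w hw
  obtain ⟨U, hU, hUΓ⟩ := hΓ
  obtain ⟨u0, hu0, hu1⟩ := hun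
  obtain ⟨v0, hv0, hv1⟩ := hvn
  obtain ⟨m0, rfl⟩ := QuotientGroup.mk_surjective m
  have hu2 : ∀ i j, ‖(u0 : Mat) i j - (1 : Mat) i j‖ ≤ 1 / 100 := fun i j => (hu1 i j).le
  have hv2 : ∀ i j, ‖(v0 : Mat) i j - (1 : Mat) i j‖ ≤ 1 / 100 := fun i j => (hv1 i j).le
  -- all the commutators are in the conjugate of `Γ`
  have hmem : ∀ n, mk (m0 * sq u0 v0 n * m0⁻¹) ∈ Γ := by
    have hu3 : mk (m0 * u0 * m0⁻¹) = u := by
      have : mk (m0 * u0 * m0⁻¹) = mk m0 * mk u0 * (mk m0)⁻¹ := rfl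
      rw [this, hu0]
      group
    have hv3 : mk (m0 * v0 * m0⁻¹) = v := by
      have : mk (m0 * v0 * m0⁻¹) = mk m0 * mk v0 * (mk m0)⁻¹ := rfl
      rw [this, hv0]
      group
    intro n
    induction n with
    | zero =>
      have : mk (m0 * sq u0 v0 0 * m0⁻¹) = v := hv3
      rw [this]
      exact hv
    | succ n ih =>
      have h1 : m0 * sq u0 v0 (n + 1) * m0⁻¹ = (m0 * u0 * m0⁻¹) * (m0 * sq u0 v0 n * m0⁻¹) *
          (m0 * u0 * m0⁻¹)⁻¹ * (m0 * sq u0 v0 n * m0⁻¹)⁻¹ := by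
        have : sq u0 v0 (n + 1) = u0 * sq u0 v0 n * u0⁻¹ * (sq u0 v0 n)⁻¹ := rfl
        rw [this]
        group
      have h2 : mk (m0 * sq u0 v0 (n + 1) * m0⁻¹) = u * mk (m0 * sq u0 v0 n * m0⁻¹) * u⁻¹ *
          (mk (m0 * sq u0 v0 n * m0⁻¹))⁻¹ := by
        rw [h1, ← hu3]
        rfl
      rw [h2]
      exact mul_mem (mul_mem (mul_mem hu ih) (inv_mem hu)) (inv_mem ih)
  -- convergence
  have hlim : Tendsto (fun n => (sq u0 v0 n : Mat)) atTop (𝓝 1) := by
    refine tendsto_pi_nhds.2 fun i => tendsto_pi_nhds.2 fun j => ?_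
    rw [tendsto_iff_norm_sub_tendsto_zero]
    have h1 : Tendsto (fun n : ℕ => (1 / 100 : ℝ) * (1 / 2) ^ n) atTop (𝓝 (1 / 100 * 0)) :=
      (tendsto_pow_atTop_nhds_zero_of_lt_one (by norm_num) (by norm_num)).const_mul _
    rw [mul_zero] at h1
    exact squeeze_zero (fun _ => norm_nonneg _) (fun n => sq_bd hu2 hv2 n i j) h1
  have hcont : Continuous fun x : Mat => (m0 : Mat) * x * ((m0⁻¹ : SL) : Mat) :=
    (continuous_const.matrix_mul continuous_id).matrix_mul continuous_const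
  have h1 : (m0 : Mat) * 1 * ((m0⁻¹ : SL) : Mat) = 1 := by
    rw [mul_one, ← Matrix.SpecialLinearGroup.coe_mul, mul_inv_cancel,
      Matrix.SpecialLinearGroup.coe_one]
  have hlim2 : Tendsto (fun n => (m0 : Mat) * (sq u0 v0 n : Mat) * ((m0⁻¹ : SL) : Mat)) atTop
      (𝓝 1) := by
    have := (hcont.tendsto 1).comp hlim
    rw [h1] at this
    exact this
  obtain ⟨n, hn⟩ := (hlim2.eventually hU).exists
  have h2 : m0 * sq u0 v0 n * m0⁻¹ = 1 := by
    apply hUΓ _ (hmem n)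
    rw [Matrix.SpecialLinearGroup.coe_mul, Matrix.SpecialLinearGroup.coe_mul]
    exact hn
  have h3 : sq u0 v0 n = 1 := by
    have : m0⁻¹ * (m0 * sq u0 v0 n * m0⁻¹) * m0 = m0⁻¹ * 1 * m0 := by rw [h2]
    calc sq u0 v0 n = m0⁻¹ * (m0 * sq u0 v0 n * m0⁻¹) * m0 := by group
      _ = 1 := by rw [this]; group
  have h4 := sq_two hu2 hv2 n h3
  -- back to `Γ`
  have h5 : mk (sq u0 v0 2) = 1 := by rw [h4]; rfl
  have h6 : mk (sq u0 v0 2) = mk u0 * (mk u0 * mk v0 * (mk u0)⁻¹ * (mk v0)⁻¹) * (mk u0)⁻¹ *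
      (mk u0 * mk v0 * (mk u0)⁻¹ * (mk v0)⁻¹)⁻¹ := rfl
  rw [h6, hu0, hv0] at h5
  rw [hw]
  have h7 : u * (u * v * u⁻¹ * v⁻¹) * u⁻¹ * (u * v * u⁻¹ * v⁻¹)⁻¹ =
      mk m0 * ((mk m0)⁻¹ * u * mk m0 * ((mk m0)⁻¹ * u * mk m0 * ((mk m0)⁻¹ * v * mk m0) *
        ((mk m0)⁻¹ * u * mk m0)⁻¹ * ((mk m0)⁻¹ * v * mk m0)⁻¹) * ((mk m0)⁻¹ * u * mk m0)⁻¹ *
      ((mk m0)⁻¹ * u * mk m0 * ((mk m0)⁻¹ * v * mk m0) *
        ((mk m0)⁻¹ * u * mk m0)⁻¹ * ((mk m0)⁻¹ * v * mk m0)⁻¹)⁻¹) * (mk m0)⁻¹ := by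
    group
  rw [h7, h5, mul_one, mul_inv_cancel]

end Pool.Agent.TH38.RK
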