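import Pool.Agent.TH38.RK.Stmts3
import Pool.Agent.TH38.RK.Main

/-!
# Torsion-free groups with a stably injective sequence of discrete representations
-/

set_option autoImplicit false

open Filter Topology

namespace Pool.Agent.TH38.RK

/-- A torsion-free group with a stably injective sequence of discrete representations has the CSA
property. -/
lemma csa5 (hcent : S_cent) (hnorm : S_norm) (G : Type) [Group G]
    (htf : ∀ g : G, g ≠ 1 → ¬ IsOfFinOrder g) (ρ : ℕ → G →* PSL)
    (hdisc : ∀ i, Disc (ρ i).range)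
    (hfaith : ∀ g : G, g ≠ 1 → ∀ᶠ i in (atTop : Filter ℕ), ρ i g ≠ 1) : ElCSA G := by
  have hpow : ∀ (g : G) (n : ℕ), 0 < n → g ≠ 1 → g ^ n ≠ 1 := by
    intro g n hn hg h
    exact htf g hg (isOfFinOrder_iff_pow_eq_one.mpr ⟨n, hn, h⟩)
  -- equality can be tested eventually
  have heq : ∀ u v : G, (∃ᶠ i in (atTop : Filter ℕ), ρ i u = ρ i v) → u = v := by
    intro u v h
    by_contra huv
    have h1 : u * v⁻¹ ≠ 1 := fun h => huv (mul_inv_eq_one.mp h)
    obtain ⟨i, hi, hi'⟩ := (h.and_eventually (hfaith _ h1)).exists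
    exact hi' (by rw [map_mul, map_inv, hi, mul_inv_cancel])
  have hct : ∀ a b c : G, b ≠ 1 → a * b = b * a → c * b = b * c → a * c = c * a := by
    intro a b c hb hab hcb
    apply heq
    refine Eventually.frequently ?_
    filter_upwards [hfaith _ (hpow b 2 (by norm_num) hb)] with i hi
    have := hcent (ρ i a) (ρ i b) (ρ i c) (by simpa [pow_two] using hi)
      (by simpa using congrArg (ρ i) hab) (by simpa using congrArg (ρ i) hcb)
    simpa using this
  intro a b g ha hb hab hag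
  -- `b` commutes with `g * b * g⁻¹`
  have h1 : b * (g * b * g⁻¹) = g * b * g⁻¹ * b := hct b a (g * b * g⁻¹) ha hab.symm hag.symm
  have h2 : b * g = g * b := by
    by_cases hg : g = 1
    · subst hg; simp
    apply heq
    refine Eventually.frequently ?_
    filter_upwards [hfaith _ (hpow b 2 (by norm_num) hb), hfaith _ (hpow g 60 (by norm_num) hg)]
      with i hi hi'
    rcases hnorm (ρ i).range (hdisc i) (ρ i b) ⟨b, rfl⟩ (ρ i g) ⟨g, rfl⟩
      (by simpa [pow_two] using hi) (by simpa using congrArg (ρ i) h1) with h | h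
    · simpa using h
    · exact absurd (by simpa using h) hi'
  exact hct a b g hb hab h2.symm

/-- Assembly for stably injective sequences. -/
theorem main5 (hb : S_basic) (hbdd : S_bounded) (hunb : S_unbounded) (G : Type) [Group G]
    (hfg : Group.FG G) (hE : ElCSA G) (hna : ∃ a b : G, a * b ≠ b * a) (ρ : ℕ → G →* PSL)
    (hdisc : ∀ i, Disc (ρ i).range)
    (hfaith : ∀ g : G, g ≠ 1 → ∀ᶠ i in (atTop : Filter ℕ), ρ i g ≠ 1) :
    (∃ ρ : G →* PSL, Disc ρ.range ∧ Function.Injective ρ) ∨ SmallTreeAction G := by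
  classical
  obtain ⟨S, hS⟩ := hfg.out
  let F : Ultrafilter ℕ := Filter.hyperfilter ℕ
  have hF : (F : Filter ℕ) ≤ atTop := Nat.hyperfilter_le_atTop
  have hfaith' : ∀ g : G, g ≠ 1 → ∀ᶠ i in (F : Filter ℕ), ρ i g ≠ 1 :=
    fun g hg => hF (hfaith g hg)
  have hSne : S.Nonempty := by
    by_contra h
    rw [Finset.not_nonempty_iff_eq_empty] at h
    subst h
    obtain ⟨a, b, hab⟩ := hna
    have : (⊥ : Subgroup G) = ⊤ := by simpa using hS
    have ha : a ∈ (⊥ : Subgroup G) := by rw [this]; trivial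
    have hb' : b ∈ (⊥ : Subgroup G) := by rw [this]; trivial
    rw [Subgroup.mem_bot] at ha hb'
    subst ha; subst hb'
    exact hab rfl
  -- displacement
  let f : ℕ → PSL → ℝ := fun i y => S.sup' hSne fun s => Real.log (NP (y⁻¹ * ρ i s * y))
  have hf0 : ∀ i y, 0 ≤ f i y := by
    intro i y
    obtain ⟨s, hs⟩ := hSne
    refine le_trans ?_ (Finset.le_sup' (fun s => Real.log (NP (y⁻¹ * ρ i s * y))) hs)
    exact Real.log_nonneg (by linarith [hb.1 (y⁻¹ * ρ i s * y)])
  let D : ℕ → ℝ := fun i => sInf (Set.range (f i))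
  have hbdb : ∀ i, BddBelow (Set.range (f i)) := fun i => ⟨0, by rintro _ ⟨y, rfl⟩; exact hf0 i y⟩
  have hDle : ∀ i y, D i ≤ f i y := fun i y => csInf_le (hbdb i) ⟨y, rfl⟩
  have hx : ∀ i, ∃ y, f i y ≤ D i + 1 := by
    intro i
    obtain ⟨_, ⟨y, rfl⟩, hy⟩ := exists_lt_of_csInf_lt (Set.range_nonempty (f i))
      (show sInf (Set.range (f i)) < D i + 1 from lt_add_one _)
    exact ⟨y, hy.le⟩
  choose x hx using hx
  by_cases hcase : ∃ C : ℝ, ∀ᶠ i in (F : Filter ℕ), D i ≤ C
  · left
    obtain ⟨C, hC⟩ := hcase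
    refine hbdd G S hS hE hna F ρ hdisc hfaith' x (Real.exp (C + 1)) ?_
    filter_upwards [hC] with i hi s hs
    have h1 : Real.log (NP ((x i)⁻¹ * ρ i s * x i)) ≤ C + 1 :=
      (Finset.le_sup' (fun s => Real.log (NP ((x i)⁻¹ * ρ i s * x i))) hs).trans
        ((hx i).trans (by linarith))
    have h2 : 0 < NP ((x i)⁻¹ * ρ i s * x i) := by linarith [hb.1 ((x i)⁻¹ * ρ i s * x i)]
    exact (Real.log_le_iff_le_exp h2).mp h1
  · right
    push Not at hcase
    have hT : Tendsto D F atTop := by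
      rw [tendsto_atTop]
      intro C
      filter_upwards [hcase C] with i hi using hi.le
    refine hunb G S hS hE F ρ hdisc hfaith' D x hT ?_ ?_
    · intro i s hs
      exact (Finset.le_sup' (fun s => Real.log (NP ((x i)⁻¹ * ρ i s * x i))) hs).trans (hx i)
    · intro i y
      obtain ⟨s, hs, h⟩ := Finset.exists_mem_eq_sup' hSne
        (fun s => Real.log (NP (y⁻¹ * ρ i s * y)))
      exact ⟨s, hs, by rw [← h]; exact hDle i y⟩

/-- A countable group each of whose finite sets of nontrivial elements survives in one discrete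
image has a stably injective sequence of discrete representations. -/
lemma seq_of_fully (G : Type) [Group G] (hc : Countable G)
    (h : ∀ A : Finset G, (∀ g ∈ A, g ≠ 1) → ∃ ρ : G →* PSL, Disc ρ.range ∧ ∀ g ∈ A, ρ g ≠ 1) :
    ∃ ρ : ℕ → G →* PSL, (∀ i, Disc (ρ i).range) ∧
      ∀ g : G, g ≠ 1 → ∀ᶠ i in (atTop : Filter ℕ), ρ i g ≠ 1 := by
  classical
  obtain ⟨e, he⟩ := exists_surjective_nat G
  choose ρ hρ hρ' using fun n : ℕ =>
    h (((Finset.range n).image e).filter (· ≠ 1)) (fun g hg => (Finset.mem_filter.mp hg).2)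
  refine ⟨ρ, hρ, fun g hg => ?_⟩
  obtain ⟨m, rfl⟩ := he g
  filter_upwards [eventually_gt_atTop m] with i hi
  exact hρ' i (e m) (Finset.mem_filter.mpr
    ⟨Finset.mem_image.mpr ⟨m, Finset.mem_range.mpr hi, rfl⟩, hg⟩)

end Pool.Agent.TH38.RK
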