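import Pool.Agent.TH38.RK.Noeth
import Pool.Agent.TH38.RK.Main5

/-!
# Groups locally embeddable in discrete subgroups of `PSL(2,ℂ)`
-/

set_option autoImplicit false

open Filter Topology

namespace Pool.Agent.TH38.RK

/-- `G` is locally embeddable in Kleinian groups: for every finite subset `A` of `G` there are a
discrete subgroup `Γ` of `PSL(2,ℂ)` and a map `f` from `A` to `Γ` which is multiplicative as far as
it is defined and maps no element other than `1` to `1`. -/
def LocKleinian (G : Type) [Group G] : Prop :=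
  ∀ A : Finset G, ∃ (f : G → PSL) (Γ : Subgroup PSL), Disc Γ ∧ (∀ a ∈ A, f a ∈ Γ) ∧
    (∀ a ∈ A, ∀ b ∈ A, a * b ∈ A → f (a * b) = f a * f b) ∧ ∀ a ∈ A, a ≠ 1 → f a ≠ 1

lemma disc_mono {Γ Γ' : Subgroup PSL} (h : Disc Γ) (hle : Γ' ≤ Γ) : Disc Γ' := by
  obtain ⟨U, hU, h⟩ := h
  exact ⟨U, hU, fun γ hγ => h γ (hle hγ)⟩

/-- A finitely generated group that is locally embeddable in Kleinian groups has a stably injective
sequence of discrete representations. -/
theorem seq_of_loc (G : Type) [Group G] (hfg : Group.FG G) (h : LocKleinian G) :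
    ∃ ρ : ℕ → G →* PSL, (∀ i, Disc (ρ i).range) ∧
      ∀ g : G, g ≠ 1 → ∀ᶠ i in (atTop : Filter ℕ), ρ i g ≠ 1 := by
  classical
  obtain ⟨S, hS⟩ := hfg.out
  have hcount : Countable G := countable_of_closure S hS
  obtain ⟨e, he⟩ := exists_surjective_nat G
  let π : FreeGroup S →* G := FreeGroup.lift (fun s : S => (s : G))
  have hπ : Function.Surjective π := by
    rw [← MonoidHom.range_eq_top, FreeGroup.range_lift_eq_closure]
    simpa using hS
  let A : ℕ → Finset G := fun n => S ∪ (Finset.range n).image e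
  have hA : ∀ g : G, ∀ᶠ n in (atTop : Filter ℕ), g ∈ A n := by
    intro g
    obtain ⟨m, rfl⟩ := he g
    filter_upwards [eventually_gt_atTop m] with n hn
    exact Finset.mem_union_right _ (Finset.mem_image.mpr ⟨m, Finset.mem_range.mpr hn, rfl⟩)
  choose f Γ hΓ hfΓ hmul hne using fun n => h (A n)
  let σ : ℕ → FreeGroup S →* PSL := fun n => FreeGroup.lift (fun s : S => f n s)
  have hσΓ : ∀ n, (σ n).range ≤ Γ n := by
    intro n
    rw [FreeGroup.range_lift_eq_closure, Subgroup.closure_le]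
    rintro _ ⟨s, rfl⟩
    exact hfΓ n s (Finset.mem_union_left _ s.2)
  have hone : ∀ᶠ n in (atTop : Filter ℕ), f n 1 = 1 := by
    filter_upwards [hA 1] with n hn
    have := hmul n 1 hn 1 hn (by simpa using hn)
    simpa using this
  have hval : ∀ w : FreeGroup S, ∀ᶠ n in (atTop : Filter ℕ), σ n w = f n (π w) := by
    intro w
    induction w using FreeGroup.induction_on with
    | C1 =>
      filter_upwards [hone] with n hn
      simp [hn]
    | of s =>
      exact Eventually.of_forall fun n => by simp [σ, π]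
    | inv_of s ih =>
      filter_upwards [ih, hone, hA 1, hA (π (FreeGroup.of s)), hA (π (FreeGroup.of s))⁻¹]
        with n h1 h2 h3 h4 h5
      have h6 := hmul n _ h4 _ h5 (by simpa using h3)
      rw [mul_inv_cancel, h2, ← h1] at h6
      rw [map_inv, map_inv]
      exact (eq_inv_of_mul_eq_one_right h6.symm).symm
    | mul x y hx hy =>
      filter_upwards [hx, hy, hA (π x), hA (π y), hA (π x * π y)] with n h1 h2 h3 h4 h5
      rw [map_mul, map_mul, h1, h2, hmul n _ h3 _ h4 h5]
  obtain ⟨N₀, hfin, hsub, hN₀⟩ := eq_noeth S {w | π w = 1}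
  have hker : ∀ᶠ n in (atTop : Filter ℕ), ∀ w ∈ N₀, σ n w = 1 := by
    rw [Filter.eventually_all_finite hfin]
    intro w hw
    filter_upwards [hval w, hone] with n h1 h2
    rw [h1, show π w = 1 from hsub hw, h2]
  obtain ⟨n₀, hn₀⟩ := eventually_atTop.mp hker
  have hle : ∀ i, π.ker ≤ (σ (n₀ + i)).ker := by
    intro i w hw
    exact hN₀ _ (hn₀ _ (Nat.le_add_right _ _)) w hw
  let ρ : ℕ → G →* PSL := fun i => π.liftOfSurjective hπ ⟨σ (n₀ + i), hle i⟩
  have hρ : ∀ i w, ρ i (π w) = σ (n₀ + i) w := by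
    intro i w
    exact MonoidHom.liftOfRightInverse_comp_apply _ _ _ _ _
  refine ⟨ρ, fun i => disc_mono (hΓ (n₀ + i)) ?_, fun g hg => ?_⟩
  · rintro _ ⟨g, rfl⟩
    obtain ⟨w, rfl⟩ := hπ g
    rw [hρ]
    exact hσΓ _ ⟨w, rfl⟩
  · obtain ⟨w, rfl⟩ := hπ g
    have h1 : Tendsto (fun i => n₀ + i) atTop (atTop : Filter ℕ) := by
      simpa [add_comm] using tendsto_add_atTop_nat n₀
    filter_upwards [h1.eventually (hval w), h1.eventually (hA (π w))] with i h2 h3
    rw [hρ, h2]
    exact hne _ _ h3 hg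

end Pool.Agent.TH38.RK
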