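import Pool.Agent.TH38.RK.Stmts3
import Pool.Agent.TH38.RK.Zas
import Pool.Agent.TH63.RK.ZasAlg

/-!
# Centralisers and normalising elements in discrete subgroups of `PSL(2,ℂ)` (job 5279, helper200)
-/

set_option autoImplicit false
open Filter Topology

namespace Pool.Agent.TH38.RK

namespace Norm

open Pool.Agent.TH63.RK (sl_ext sl_det mul_entry inv_entry tr tr_conj exists_upper)

lemma mk_one_of {Z : SL} (h : (Z : Mat) = 1 ∨ (Z : Mat) = -1) : mk Z = 1 := by
  rw [QuotientGroup.eq_one_iff, Subgroup.mem_center_iff]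
  intro g
  apply Subtype.ext
  rw [Matrix.SpecialLinearGroup.coe_mul, Matrix.SpecialLinearGroup.coe_mul]
  rcases h with h | h <;> rw [h] <;> simp

lemma mk_eq_of {A B : SL} (h : (B : Mat) = (A : Mat) ∨ (B : Mat) = -(A : Mat)) : mk A = mk B := by
  have h1 : mk (A⁻¹ * B) = 1 := by
    apply mk_one_of
    rw [Matrix.SpecialLinearGroup.coe_mul]
    have h2 : ((A⁻¹ : SL) : Mat) * (A : Mat) = 1 := by
      rw [← Matrix.SpecialLinearGroup.coe_mul, inv_mul_cancel, Matrix.SpecialLinearGroup.coe_one]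
    rcases h with h | h
    · left
      rw [h, h2]
    · right
      rw [h, mul_neg, h2]
  have h3 : (mk A)⁻¹ * mk B = 1 := h1
  exact inv_mul_eq_one.mp h3

lemma mk_eq {A B : SL} (h : mk A = mk B) : (B : Mat) = (A : Mat) ∨ (B : Mat) = -(A : Mat) := by
  rw [QuotientGroup.eq] at h
  have h1 : (B : Mat) = (A : Mat) * ((A⁻¹ * B : SL) : Mat) := by
    rw [← Matrix.SpecialLinearGroup.coe_mul, mul_inv_cancel_left]
  rcases center_cases _ h with h2 | h2
  · left
    rw [h1, h2, mul_one]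
  · right
    rw [h1, h2, mul_neg, mul_one]

lemma comm_cases {A B : SL} (h : mk A * mk B = mk B * mk A) :
    A * B = B * A ∨ ((A * B : SL) : Mat) = -((B * A : SL) : Mat) := by
  have h1 : mk (B * A) = mk (A * B) := h.symm
  rcases mk_eq h1 with h2 | h2
  · left
    exact Subtype.ext h2
  · right
    exact h2

lemma tr_zero {A B : SL} (h : ((A * B : SL) : Mat) = -((B * A : SL) : Mat)) : tr B = 0 := by
  have h1 : ((A * B * A⁻¹ : SL) : Mat) = -(B : Mat) := by
    rw [Matrix.SpecialLinearGroup.coe_mul, h, neg_mul, ← Matrix.SpecialLinearGroup.coe_mul,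
      mul_inv_cancel_right]
  have h2 := tr_conj A B
  have h3 : tr (A * B * A⁻¹) = -tr B := by
    unfold tr
    rw [h1]
    simp only [Matrix.neg_apply]
    ring
  rw [h3] at h2
  linear_combination -h2 / 2

lemma sq_one {B : SL} (h : tr B = 0) : mk B * mk B = 1 := by
  have h1 : mk (B * B) = 1 := by
    apply mk_one_of
    right
    have hd := sl_det B
    unfold tr at h
    ext i j
    fin_cases i <;> fin_cases j <;>
      simp only [mul_entry, Fin.zero_eta, Fin.mk_one, Fin.isValue, Matrix.neg_apply,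
        Matrix.one_apply_eq, ne_eq, zero_ne_one, one_ne_zero, not_false_eq_true,
        Matrix.one_apply_ne]
    · linear_combination -hd + (B : Mat) 0 0 * h
    · linear_combination (B : Mat) 0 1 * h
    · linear_combination (B : Mat) 1 0 * h
    · linear_combination -hd + (B : Mat) 1 1 * h
  exact h1

lemma comm_of {A B : SL} (hb : mk B * mk B ≠ 1) (h : mk A * mk B = mk B * mk A) :
    A * B = B * A := by
  rcases comm_cases h with h1 | h1
  · exact h1
  · exact absurd (sq_one (tr_zero h1)) hb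


lemma par {a1 a2 a3 b1 b2 b3 c1 c2 c3 : ℂ} (hb : b1 ≠ 0 ∨ b2 ≠ 0 ∨ b3 ≠ 0)
    (e1 : a1 * b2 = b1 * a2) (e2 : a3 * b1 = b3 * a1) (e3 : a3 * b2 = b3 * a2)
    (f1 : c1 * b2 = b1 * c2) (f2 : c3 * b1 = b3 * c1) (f3 : c3 * b2 = b3 * c2) :
    a1 * c2 = c1 * a2 ∧ a3 * c1 = c3 * a1 ∧ a3 * c2 = c3 * a2 := by
  rcases hb with h | h | h
  · have g1 : a1 * c2 = c1 * a2 := by
      apply mul_left_cancel₀ h
      linear_combination c1 * e1 - a1 * f1
    have g2 : a3 * c1 = c3 * a1 := by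
      apply mul_left_cancel₀ h
      linear_combination c1 * e2 - a1 * f2
    have g3 : a3 * c2 = c3 * a2 := by
      apply mul_left_cancel₀ h
      linear_combination c2 * e2 - a2 * f2 + b3 * g1
    exact ⟨g1, g2, g3⟩
  · have g1 : a1 * c2 = c1 * a2 := by
      apply mul_left_cancel₀ h
      linear_combination c2 * e1 - a2 * f1
    have g3 : a3 * c2 = c3 * a2 := by
      apply mul_left_cancel₀ h
      linear_combination c2 * e3 - a2 * f3
    have g2 : a3 * c1 = c3 * a1 := by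
      apply mul_left_cancel₀ h
      linear_combination c1 * e3 - a1 * f3 - b3 * g1
    exact ⟨g1, g2, g3⟩
  · have g2 : a3 * c1 = c3 * a1 := by
      apply mul_left_cancel₀ h
      linear_combination c3 * e2 - a3 * f2
    have g3 : a3 * c2 = c3 * a2 := by
      apply mul_left_cancel₀ h
      linear_combination c3 * e3 - a3 * f3
    have g1 : a1 * c2 = c1 * a2 := by
      apply mul_left_cancel₀ h
      linear_combination -c2 * e2 + a2 * f2 + b1 * g3
    exact ⟨g1, g2, g3⟩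

lemma not_scalar {B : SL} (hb : mk B * mk B ≠ 1) :
    (B : Mat) 0 1 ≠ 0 ∨ (B : Mat) 1 0 ≠ 0 ∨ (B : Mat) 0 0 - (B : Mat) 1 1 ≠ 0 := by
  by_contra hcon
  push Not at hcon
  obtain ⟨g1, g2, g3⟩ := hcon
  apply hb
  have hd := sl_det B
  have h11 : (B : Mat) 1 1 = (B : Mat) 0 0 := by linear_combination -g3
  have h3 : ((B : Mat) 0 0 - 1) * ((B : Mat) 0 0 + 1) = 0 := by
    rw [g1, h11] at hd
    linear_combination hd
  have h4 : mk B = 1 := by
    apply mk_one_of
    rcases mul_eq_zero.mp h3 with h | h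
    · left
      have h00 : (B : Mat) 0 0 = 1 := by linear_combination h
      ext i j
      fin_cases i <;> fin_cases j
      · simpa using h00
      · simpa using g1
      · simpa using g2
      · simpa [h00] using h11
    · right
      have h00 : (B : Mat) 0 0 = -1 := by linear_combination h
      ext i j
      fin_cases i <;> fin_cases j
      · simpa using h00
      · simpa using g1
      · simpa using g2
      · simpa [h00] using h11
  rw [h4, mul_one]

/-- unipotent matrices -/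
noncomputable def T (z : ℂ) : SL := ⟨!![1, z; 0, 1], by simp [Matrix.det_fin_two]⟩

lemma T00 (z : ℂ) : (T z : Mat) 0 0 = 1 := rfl
lemma T01 (z : ℂ) : (T z : Mat) 0 1 = z := rfl
lemma T10 (z : ℂ) : (T z : Mat) 1 0 = 0 := rfl
lemma T11 (z : ℂ) : (T z : Mat) 1 1 = 1 := rfl

lemma T_add (z w : ℂ) : T (z + w) = T z * T w := by
  apply sl_ext <;> simp only [mul_entry, T00, T01, T10, T11] <;> ring

lemma T_conj {C : SL} (hC : (C : Mat) 1 0 = 0) (z : ℂ) :
    C * T z * C⁻¹ = T ((C : Mat) 0 0 ^ 2 * z) := by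
  have hd := sl_det C
  obtain ⟨i1, i2, i3, i4⟩ := inv_entry C
  rw [hC, mul_zero, sub_zero] at hd
  apply sl_ext <;> simp only [mul_entry, T00, T01, T10, T11, i1, i2, i3, i4, hC]
  · linear_combination hd
  · ring
  · ring
  · linear_combination hd

lemma T_conj_inv {C : SL} (hC : (C : Mat) 1 0 = 0) (z : ℂ) :
    C⁻¹ * T z * C = T ((C : Mat) 1 1 ^ 2 * z) := by
  have h1 : ((C⁻¹ : SL) : Mat) 1 0 = 0 := by
    rw [(inv_entry C).2.2.1, hC, neg_zero]
  have h2 := T_conj h1 z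
  rw [inv_inv, (inv_entry C).1] at h2
  exact h2

/-- normal form of the lifts of parabolic elements -/
lemma normal_form {B : SL} (hb : mk B * mk B ≠ 1) (ht : ((B : Mat) 0 0 + (B : Mat) 1 1) ^ 2 = 4) :
    ∃ (g : SL) (s : ℂ), s ≠ 0 ∧ mk B = mk (g⁻¹ * T s * g) := by
  obtain ⟨g, hg⟩ := exists_upper B
  have htr := tr_conj g B
  obtain ⟨D, hD⟩ : ∃ D : SL, D = g * B * g⁻¹ := ⟨_, rfl⟩
  rw [← hD] at hg htr
  have hd := sl_det D
  rw [hg, mul_zero, sub_zero] at hd
  have ht' : ((D : Mat) 0 0 + (D : Mat) 1 1) ^ 2 = 4 := by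
    unfold tr at htr
    rw [htr, ht]
  have h1 : ((D : Mat) 0 0 - (D : Mat) 1 1) ^ 2 = 0 := by linear_combination ht' - 4 * hd
  have h2 : (D : Mat) 0 0 - (D : Mat) 1 1 = 0 := pow_eq_zero_iff (two_ne_zero) |>.mp h1
  have h11 : (D : Mat) 1 1 = (D : Mat) 0 0 := by linear_combination -h2
  have h3 : ((D : Mat) 0 0 - 1) * ((D : Mat) 0 0 + 1) = 0 := by
    rw [h11] at hd
    linear_combination hd
  have hBD : B = g⁻¹ * D * g := by
    rw [hD]
    group
  have key : ∃ s : ℂ, mk D = mk (T s) := by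
    rcases mul_eq_zero.mp h3 with h | h
    · refine ⟨(D : Mat) 0 1, ?_⟩
      have h00 : (D : Mat) 0 0 = 1 := by linear_combination h
      congr 1
      apply sl_ext <;> simp only [T00, T01, T10, T11, hg, h11, h00]
    · refine ⟨-(D : Mat) 0 1, ?_⟩
      have h00 : (D : Mat) 0 0 = -1 := by linear_combination h
      apply mk_eq_of
      right
      ext i j
      fin_cases i <;> fin_cases j <;>
        simp only [T00, T01, T10, T11, hg, h11, h00, Fin.zero_eta, Fin.mk_one, Fin.isValue,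
          Matrix.neg_apply, neg_neg, neg_zero]
  obtain ⟨s, hs⟩ := key
  have h5 : mk B = mk (g⁻¹ * T s * g) := by
    have e1 : mk B = (mk g)⁻¹ * mk D * mk g := by
      rw [hBD]
      rfl
    rw [e1, hs]
    rfl
  refine ⟨g, s, ?_, h5⟩
  rintro rfl
  apply hb
  have hT : T 0 = 1 := by
    apply sl_ext <;> simp [T00, T01, T10, T11]
  rw [h5, hT, mul_one, inv_mul_cancel]
  exact mul_one 1

/-- `|yⁿ - 1| < 1` for some `1 ≤ n ≤ 6` if `|y| = 1`. -/
lemma cheb (c : ℝ) (h1 : -1 ≤ c) (h2 : c ≤ 1) :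
    1 / 2 < c ∨ 1 / 2 < 2 * c ^ 2 - 1 ∨ 1 / 2 < 4 * c ^ 3 - 3 * c ∨
    1 / 2 < 8 * c ^ 4 - 8 * c ^ 2 + 1 ∨ 1 / 2 < 16 * c ^ 5 - 20 * c ^ 3 + 5 * c ∨
    1 / 2 < 32 * c ^ 6 - 48 * c ^ 4 + 18 * c ^ 2 - 1 := by
  rcases lt_trichotomy c (1 / 2) with h | h | h
  · rcases lt_or_ge c (-87 / 100) with h3 | h3
    · right; left
      nlinarith
    rcases lt_or_ge c (-7 / 10) with h4 | h4
    · right; right; right; right; left
      nlinarith [mul_nonneg (sub_nonneg.2 h3) (sub_nonneg.2 h4.le), sq_nonneg (c ^ 2),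
        sq_nonneg (c + 8 / 10), sq_nonneg (c * (c + 8 / 10))]
    rcases lt_or_ge c (-2 / 10) with h5 | h5
    · right; right; left
      nlinarith [mul_nonneg (sub_nonneg.2 h4) (sub_nonneg.2 h5.le)]
    rcases lt_or_ge c (2 / 10) with h6 | h6
    · right; right; right; left
      nlinarith [sq_nonneg (c ^ 2)]
    · right; right; right; right; left
      have h7 : 0 < 1 / 2 - c := by linarith
      have h8 : 16 * c ^ 4 + 8 * c ^ 3 - 16 * c ^ 2 - 8 * c + 1 < 0 := by
        have : 16 * c ^ 4 + 8 * c ^ 3 - 16 * c ^ 2 - 8 * c + 1 =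
          8 * c * (c ^ 2 - 1) * (2 * c + 1) + 1 := by ring
        rw [this]
        have h9 : c ^ 2 ≤ 1 / 4 := by nlinarith
        have h10 : 2 / 10 * (3 / 4) ≤ c * (1 - c ^ 2) := by nlinarith
        nlinarith
      nlinarith [mul_pos h7 (neg_pos.2 h8)]
  · right; right; right; right; right
    rw [h]
    norm_num
  · left
    exact h


lemma T_cont (g : SL) : Continuous fun z : ℂ => ((g⁻¹ * T z * g : SL) : Mat) := by
  have h1 : Continuous fun z : ℂ => (T z : Mat) := by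
    apply continuous_matrix
    intro i j
    fin_cases i <;> fin_cases j
    · exact continuous_const
    · exact continuous_id
    · exact continuous_const
    · exact continuous_const
  have h2 : (fun z : ℂ => ((g⁻¹ * T z * g : SL) : Mat)) =
      fun z : ℂ => ((g⁻¹ : SL) : Mat) * (T z : Mat) * (g : Mat) := by
    funext z
    rw [Matrix.SpecialLinearGroup.coe_mul, Matrix.SpecialLinearGroup.coe_mul]
  rw [h2]
  exact (continuous_const.matrix_mul h1).matrix_mul continuous_const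

/-- the main use of discreteness -/
lemma small {Γ : Subgroup PSL} (hΓ : Disc Γ) (g : SL) {s w : ℂ} (hs : s ≠ 0)
    (hsΓ : mk (g⁻¹ * T s * g) ∈ Γ) (hw : ‖w‖ < 1)
    (hwΓ : ∀ z : ℂ, mk (g⁻¹ * T z * g) ∈ Γ → mk (g⁻¹ * T (w * z) * g) ∈ Γ) : w = 0 := by
  obtain ⟨U, hU, hUΓ⟩ := hΓ
  have h1 : ∀ k : ℕ, mk (g⁻¹ * T (w ^ k * s) * g) ∈ Γ := by
    intro k
    induction k with
    | zero => rwa [pow_zero, one_mul]
    | succ k ih =>
      have := hwΓ _ ih
      rwa [← mul_assoc, ← pow_succ'] at this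
  have h2 : Tendsto (fun k : ℕ => w ^ k * s) atTop (𝓝 0) := by
    have := (tendsto_pow_atTop_nhds_zero_of_norm_lt_one hw).mul_const s
    rwa [zero_mul] at this
  have hT : ((g⁻¹ * T 0 * g : SL) : Mat) = 1 := by
    have : T 0 = 1 := by
      apply sl_ext <;> simp [T00, T01, T10, T11]
    rw [this, mul_one, inv_mul_cancel, Matrix.SpecialLinearGroup.coe_one]
  have h3 : Tendsto (fun k : ℕ => ((g⁻¹ * T (w ^ k * s) * g : SL) : Mat)) atTop (𝓝 1) := by
    have h4 := ((T_cont g).tendsto 0).comp h2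
    rw [hT] at h4
    exact h4
  obtain ⟨k, hk⟩ := (h3.eventually hU).exists
  have h5 := hUΓ _ (h1 k) hk
  have h6 : T (w ^ k * s) = 1 := by
    have : g * (g⁻¹ * T (w ^ k * s) * g) * g⁻¹ = g * 1 * g⁻¹ := by rw [h5]
    calc T (w ^ k * s) = g * (g⁻¹ * T (w ^ k * s) * g) * g⁻¹ := by group
      _ = 1 := by rw [this]; group
  have h7 : w ^ k * s = 0 := by
    have := T01 (w ^ k * s)
    rw [h6] at this
    simpa using this.symm
  exact (pow_eq_zero_iff (n := k + 1) (Nat.succ_ne_zero k)).mp (by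
    rw [pow_succ, (mul_eq_zero.mp h7).resolve_right hs, zero_mul])

lemma re_pow_eq (y : ℂ) (hy : ‖y‖ = 1) : ∃ n : ℕ, (n = 1 ∨ n = 2 ∨ n = 3 ∨ n = 4 ∨ n = 5 ∨ n = 6) ∧
    ‖y ^ n - 1‖ < 1 := by
  have hsq : y.re ^ 2 + y.im ^ 2 = 1 := by
    have := Complex.sq_norm y
    rw [hy, Complex.normSq_apply] at this
    linear_combination -this
  have hle : |y.re| ≤ 1 := by
    have := Complex.abs_re_le_norm y
    rwa [hy] at this
  have key : ∀ n : ℕ, 1 / 2 < (y ^ n).re → ‖y ^ n - 1‖ < 1 := by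
    intro n hn
    have h1 : ‖y ^ n‖ = 1 := by rw [norm_pow, hy, one_pow]
    have h2 : (y ^ n).re ^ 2 + (y ^ n).im ^ 2 = 1 := by
      have := Complex.sq_norm (y ^ n)
      rw [h1, Complex.normSq_apply] at this
      linear_combination -this
    have h3 : ‖y ^ n - 1‖ ^ 2 < 1 := by
      rw [Complex.sq_norm, Complex.normSq_apply, Complex.sub_re, Complex.sub_im, Complex.one_re,
        Complex.one_im]
      nlinarith
    have h4 := norm_nonneg (y ^ n - 1)
    nlinarith
  have hi : y.im ^ 2 = 1 - y.re ^ 2 := by linear_combination hsq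
  have p2 : (y ^ 2).re = 2 * y.re ^ 2 - 1 := by
    rw [pow_two, Complex.mul_re]
    linear_combination -hsq
  have q2 : (y ^ 2).im = 2 * y.re * y.im := by
    rw [pow_two, Complex.mul_im]
    ring
  have p3 : (y ^ 3).re = 4 * y.re ^ 3 - 3 * y.re := by
    rw [pow_succ, Complex.mul_re, p2, q2]
    linear_combination -2 * y.re * hi
  have q3 : (y ^ 3).im = (4 * y.re ^ 2 - 1) * y.im := by
    rw [pow_succ, Complex.mul_im, p2, q2]
    ring
  have p4 : (y ^ 4).re = 8 * y.re ^ 4 - 8 * y.re ^ 2 + 1 := by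
    rw [pow_succ, Complex.mul_re, p3, q3]
    linear_combination -(4 * y.re ^ 2 - 1) * hi
  have q4 : (y ^ 4).im = (8 * y.re ^ 3 - 4 * y.re) * y.im := by
    rw [pow_succ, Complex.mul_im, p3, q3]
    ring
  have p5 : (y ^ 5).re = 16 * y.re ^ 5 - 20 * y.re ^ 3 + 5 * y.re := by
    rw [pow_succ, Complex.mul_re, p4, q4]
    linear_combination -(8 * y.re ^ 3 - 4 * y.re) * hi
  have q5 : (y ^ 5).im = (16 * y.re ^ 4 - 12 * y.re ^ 2 + 1) * y.im := by
    rw [pow_succ, Complex.mul_im, p4, q4]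
    ring
  have p6 : (y ^ 6).re = 32 * y.re ^ 6 - 48 * y.re ^ 4 + 18 * y.re ^ 2 - 1 := by
    rw [pow_succ, Complex.mul_re, p5, q5]
    linear_combination -(16 * y.re ^ 4 - 12 * y.re ^ 2 + 1) * hi
  rcases cheb y.re (abs_le.mp hle).1 (abs_le.mp hle).2 with h | h | h | h | h | h
  · exact ⟨1, by tauto, key 1 (by rwa [pow_one])⟩
  · exact ⟨2, by tauto, key 2 (by rwa [p2])⟩
  · exact ⟨3, by tauto, key 3 (by rwa [p3])⟩
  · exact ⟨4, by tauto, key 4 (by rwa [p4])⟩
  · exact ⟨5, by tauto, key 5 (by rwa [p5])⟩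
  · exact ⟨6, by tauto, key 6 (by rwa [p6])⟩

/-- upper triangular matrices of finite order -/
lemma order60 {C : SL} (hC : (C : Mat) 1 0 = 0) (hne : (C : Mat) 0 0 ^ 2 ≠ 1)
    (h60 : ((C : Mat) 0 0 ^ 2) ^ 60 = 1) : mk C ^ 60 = 1 := by
  obtain ⟨a, ha⟩ : ∃ a, a = (C : Mat) 0 0 := ⟨_, rfl⟩
  obtain ⟨β, hβ⟩ : ∃ β, β = (C : Mat) 0 1 := ⟨_, rfl⟩
  obtain ⟨d, hd⟩ : ∃ d, d = (C : Mat) 1 1 := ⟨_, rfl⟩
  have hdet := sl_det C
  rw [hC, mul_zero, sub_zero, ← ha, ← hd] at hdet
  rw [← ha] at hne h60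
  have hda : d - a ≠ 0 := by
    intro h
    apply hne
    linear_combination hdet - a * h
  obtain ⟨D, hD⟩ : ∃ D : SL, (D : Mat) = Matrix.diagonal ![a, d] := by
    refine ⟨⟨Matrix.diagonal ![a, d], ?_⟩, rfl⟩
    rw [Matrix.det_diagonal, Fin.prod_univ_two]
    exact hdet
  have hCD : C = T (β / (d - a)) * D * (T (β / (d - a)))⁻¹ := by
    obtain ⟨i1, i2, i3, i4⟩ := inv_entry (T (β / (d - a)))
    have D00 : (D : Mat) 0 0 = a := by rw [hD]; simp
    have D01 : (D : Mat) 0 1 = 0 := by rw [hD]; simp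
    have D10 : (D : Mat) 1 0 = 0 := by rw [hD]; simp
    have D11 : (D : Mat) 1 1 = d := by rw [hD]; simp
    apply sl_ext <;> simp only [mul_entry, T00, T01, T10, T11, i1, i2, i3, i4, D00, D01, D10, D11,
      hC, ← ha, ← hβ, ← hd]
    · ring
    · field_simp
      ring
    · ring
    · ring
  have hD60 : mk (D ^ 60) = 1 := by
    apply mk_one_of
    rw [Matrix.SpecialLinearGroup.coe_pow, hD, Matrix.diagonal_pow]
    have h1 : (a ^ 60 - 1) * (a ^ 60 + 1) = 0 := by linear_combination h60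
    have h2 : a ^ 60 * d ^ 60 = 1 := by rw [← mul_pow, hdet, one_pow]
    rcases mul_eq_zero.mp h1 with h | h
    · left
      have h3 : a ^ 60 = 1 := by linear_combination h
      have h4 : d ^ 60 = 1 := by
        rw [h3, one_mul] at h2
        exact h2
      ext i j
      fin_cases i <;> fin_cases j <;> simp [h3, h4]
    · right
      have h3 : a ^ 60 = -1 := by linear_combination h
      have h4 : d ^ 60 = -1 := by
        rw [h3] at h2
        linear_combination -h2
      ext i j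
      fin_cases i <;> fin_cases j <;> simp [h3, h4]
  have h5 : mk C = mk (T (β / (d - a))) * mk D * (mk (T (β / (d - a))))⁻¹ := by
    conv_lhs => rw [hCD]
    rfl
  have h6 : mk D ^ 60 = 1 := hD60
  rw [h5, conj_pow, h6, mul_one, mul_inv_cancel]

end Norm

open Pool.Agent.TH38.RK.Norm in
theorem cent : S_cent := by
  intro a b c hb hab hcb
  obtain ⟨A, rfl⟩ := QuotientGroup.mk_surjective a
  obtain ⟨B, rfl⟩ := QuotientGroup.mk_surjective b
  obtain ⟨C, rfl⟩ := QuotientGroup.mk_surjective c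
  have h1 := Zas.comm_coe (comm_of hb hab)
  have h2 := Zas.comm_coe (comm_of hb hcb)
  rw [Zas.comm_iff] at h1 h2
  suffices h : A * C = C * A by
    have : mk (A * C) = mk (C * A) := by rw [h]
    exact this
  apply Zas.coe_comm
  rw [Zas.comm_iff]
  exact par (not_scalar hb) h1.1 h1.2.1 h1.2.2 h2.1 h2.2.1 h2.2.2

open Pool.Agent.TH38.RK.Norm Pool.Agent.TH63.RK in
theorem norm : S_norm := by
  intro Γ hΓ b hbΓ c hcΓ hb hcomm
  obtain ⟨B, rfl⟩ := QuotientGroup.mk_surjective b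
  obtain ⟨C, rfl⟩ := QuotientGroup.mk_surjective c
  have hb' : mk B * mk B ≠ 1 := hb
  by_cases ht : ((B : Mat) 0 0 + (B : Mat) 1 1) ^ 2 = 4
  · -- parabolic
    obtain ⟨g, s, hs, hBg⟩ := normal_form hb' ht
    obtain ⟨D, hD⟩ : ∃ D : SL, D = g * C * g⁻¹ := ⟨_, rfl⟩
    have hCD : C = g⁻¹ * D * g := by
      rw [hD]
      group
    have hCD' : mk C = (mk g)⁻¹ * mk D * mk g := by
      rw [hCD]
      rfl
    have hBg' : mk B = (mk g)⁻¹ * mk (T s) * mk g := hBg
    -- `D` is upper triangular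
    have h1 : mk (D * T s * D⁻¹) * mk (T s) = mk (T s) * mk (D * T s * D⁻¹) := by
      have h2 : mk B * (mk C * mk B * (mk C)⁻¹) = mk C * mk B * (mk C)⁻¹ * mk B := hcomm
      rw [hCD', hBg'] at h2
      have h3 : mk (D * T s * D⁻¹) = mk D * mk (T s) * (mk D)⁻¹ := rfl
      rw [h3]
      have h4 : mk D * mk (T s) * (mk D)⁻¹ * mk (T s) = mk g * ((mk g)⁻¹ * mk D * mk g *
          ((mk g)⁻¹ * mk (T s) * mk g) * ((mk g)⁻¹ * mk D * mk g)⁻¹ *
          ((mk g)⁻¹ * mk (T s) * mk g)) * (mk g)⁻¹ := by group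
      have h5 : mk (T s) * (mk D * mk (T s) * (mk D)⁻¹) = mk g * ((mk g)⁻¹ * mk (T s) * mk g *
          ((mk g)⁻¹ * mk D * mk g * ((mk g)⁻¹ * mk (T s) * mk g) *
          ((mk g)⁻¹ * mk D * mk g)⁻¹)) * (mk g)⁻¹ := by group
      rw [h4, h5, h2]
    have hTs : mk (T s) * mk (T s) ≠ 1 := by
      intro h
      apply hb'
      rw [hBg']
      have : (mk g)⁻¹ * mk (T s) * mk g * ((mk g)⁻¹ * mk (T s) * mk g) =
        (mk g)⁻¹ * (mk (T s) * mk (T s)) * mk g := by group
      rw [this, h]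
      group
    have h2 := comm_of hTs h1
    obtain ⟨i1, i2, i3, i4⟩ := inv_entry D
    have hD10 : (D : Mat) 1 0 = 0 := by
      have e1 : ((D * T s * D⁻¹ * T s : SL) : Mat) 0 0 = ((T s * (D * T s * D⁻¹) : SL) : Mat) 0 0 := by
        rw [h2]
      simp only [mul_entry, T00, T01, T10, T11, i1, i2, i3, i4] at e1
      have e2 : (s * (D : Mat) 1 0) ^ 2 = 0 := by
        linear_combination e1
      have e3 := pow_eq_zero_iff (two_ne_zero) |>.mp e2
      exact (mul_eq_zero.mp e3).resolve_left hs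
    have hdet := sl_det D
    rw [hD10, mul_zero, sub_zero] at hdet
    have hsΓ : mk (g⁻¹ * T s * g) ∈ Γ := by
      rw [← hBg]
      exact hbΓ
    have hcΓ' : mk C ∈ Γ := hcΓ
    have up : ∀ z : ℂ, mk (g⁻¹ * T z * g) ∈ Γ → mk (g⁻¹ * T ((D : Mat) 0 0 ^ 2 * z) * g) ∈ Γ := by
      intro z hz
      have h3 := Γ.mul_mem (Γ.mul_mem hcΓ' hz) (Γ.inv_mem hcΓ')
      have h4 : mk C * mk (g⁻¹ * T z * g) * (mk C)⁻¹ = mk (g⁻¹ * T ((D : Mat) 0 0 ^ 2 * z) * g) := by
        have h5 : C * (g⁻¹ * T z * g) * C⁻¹ = g⁻¹ * T ((D : Mat) 0 0 ^ 2 * z) * g := by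
          rw [← T_conj hD10, hCD]
          group
        rw [← h5]
        rfl
      rwa [h4] at h3
    have down : ∀ z : ℂ, mk (g⁻¹ * T z * g) ∈ Γ → mk (g⁻¹ * T ((D : Mat) 1 1 ^ 2 * z) * g) ∈ Γ := by
      intro z hz
      have h3 := Γ.mul_mem (Γ.mul_mem (Γ.inv_mem hcΓ') hz) hcΓ'
      have h4 : (mk C)⁻¹ * mk (g⁻¹ * T z * g) * mk C = mk (g⁻¹ * T ((D : Mat) 1 1 ^ 2 * z) * g) := by
        have h5 : C⁻¹ * (g⁻¹ * T z * g) * C = g⁻¹ * T ((D : Mat) 1 1 ^ 2 * z) * g := by
          rw [← T_conj_inv hD10, hCD]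
          group
        rw [← h5]
        rfl
      rwa [h4] at h3
    have ha0 : (D : Mat) 0 0 ≠ 0 := left_ne_zero_of_mul_eq_one hdet
    have hd0 : (D : Mat) 1 1 ≠ 0 := right_ne_zero_of_mul_eq_one hdet
    have hnorm : ‖(D : Mat) 0 0‖ * ‖(D : Mat) 1 1‖ = 1 := by
      rw [← norm_mul, hdet, norm_one]
    have ha1 : ‖(D : Mat) 0 0 ^ 2‖ = 1 := by
      rw [norm_pow]
      rcases lt_trichotomy ‖(D : Mat) 0 0‖ 1 with h | h | h
      · exfalso
        have h3 : ‖(D : Mat) 0 0 ^ 2‖ < 1 := by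
          rw [norm_pow]
          exact pow_lt_one₀ (norm_nonneg _) h two_ne_zero
        exact pow_ne_zero 2 ha0 (small hΓ g hs hsΓ h3 up)
      · rw [h, one_pow]
      · exfalso
        have h4 : ‖(D : Mat) 1 1‖ < 1 := by
          by_contra hcon
          have h5 : 1 ≤ ‖(D : Mat) 1 1‖ := not_lt.mp hcon
          nlinarith
        have h3 : ‖(D : Mat) 1 1 ^ 2‖ < 1 := by
          rw [norm_pow]
          exact pow_lt_one₀ (norm_nonneg _) h4 two_ne_zero
        exact pow_ne_zero 2 hd0 (small hΓ g hs hsΓ h3 down)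
    obtain ⟨n, hn, hn1⟩ := re_pow_eq _ ha1
    have upn : ∀ (n : ℕ) (z : ℂ), mk (g⁻¹ * T z * g) ∈ Γ →
        mk (g⁻¹ * T (((D : Mat) 0 0 ^ 2) ^ n * z) * g) ∈ Γ := by
      intro n
      induction n with
      | zero =>
        intro z hz
        rwa [pow_zero, one_mul]
      | succ n ih =>
        intro z hz
        have := up _ (ih z hz)
        rwa [← mul_assoc, ← pow_succ'] at this
    have hyn : ((D : Mat) 0 0 ^ 2) ^ n - 1 = 0 := by
      refine small hΓ g hs hsΓ hn1 ?_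
      intro z hz
      have h3 := Γ.mul_mem (upn n z hz) (Γ.inv_mem hz)
      have h4 : mk (g⁻¹ * T (((D : Mat) 0 0 ^ 2) ^ n * z) * g) * (mk (g⁻¹ * T z * g))⁻¹ =
          mk (g⁻¹ * T ((((D : Mat) 0 0 ^ 2) ^ n - 1) * z) * g) := by
        have h5 : g⁻¹ * T (((D : Mat) 0 0 ^ 2) ^ n * z) * g * (g⁻¹ * T z * g)⁻¹ =
            g⁻¹ * T ((((D : Mat) 0 0 ^ 2) ^ n - 1) * z) * g := by
          have h6 : ((D : Mat) 0 0 ^ 2) ^ n * z = (((D : Mat) 0 0 ^ 2) ^ n - 1) * z + z := by ring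
          rw [h6, T_add]
          group
        rw [← h5]
        rfl
      rwa [h4] at h3
    by_cases hy : (D : Mat) 0 0 ^ 2 = 1
    · left
      have h3 : D * T s * D⁻¹ = T s := by
        rw [T_conj hD10, hy, one_mul]
      have h4 : T s * D = D * T s := by
        conv_lhs => rw [← h3]
        rw [inv_mul_cancel_right]
      have h5 : mk (T s) * mk D = mk D * mk (T s) := by
        have : mk (T s * D) = mk (D * T s) := by rw [h4]
        exact this
      have h6 : mk B * mk C = mk C * mk B := by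
        rw [hCD', hBg']
        have e1 : (mk g)⁻¹ * mk (T s) * mk g * ((mk g)⁻¹ * mk D * mk g) =
          (mk g)⁻¹ * (mk (T s) * mk D) * mk g := by group
        have e2 : (mk g)⁻¹ * mk D * mk g * ((mk g)⁻¹ * mk (T s) * mk g) =
          (mk g)⁻¹ * (mk D * mk (T s)) * mk g := by group
        rw [e1, e2, h5]
      exact h6
    · right
      have h60 : ((D : Mat) 0 0 ^ 2) ^ 60 = 1 := by
        have h3 : ((D : Mat) 0 0 ^ 2) ^ n = 1 := by linear_combination hyn
        have h4 : n ∣ 60 := by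
          rcases hn with h | h | h | h | h | h <;> rw [h] <;> norm_num
        obtain ⟨k, hk⟩ := h4
        rw [hk, pow_mul, h3, one_pow]
      have h3 := order60 hD10 hy h60
      have h4 : mk C ^ 60 = 1 := by
        rw [hCD']
        have h5 : (mk g)⁻¹ * mk D * mk g = (mk g)⁻¹ * mk D * ((mk g)⁻¹)⁻¹ := by rw [inv_inv]
        rw [h5, conj_pow, h3, mul_one, mul_inv_cancel]
      exact h4
  · -- semisimple
    have h1 : mk (C * B * C⁻¹) * mk B = mk B * mk (C * B * C⁻¹) := by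
      have h2 : mk B * (mk C * mk B * (mk C)⁻¹) = mk C * mk B * (mk C)⁻¹ * mk B := hcomm
      exact h2.symm
    have h2 := comm_of hb' h1
    by_cases htC : (C : Mat) 0 0 + (C : Mat) 1 1 = 0
    · right
      have h3 : mk C * mk C = 1 := sq_one htC
      have h4 : mk C ^ 60 = 1 := by
        have : (60 : ℕ) = 2 * 30 := by norm_num
        rw [this, pow_mul, pow_two, h3, one_pow]
      exact h4
    · left
      have h3 := Zas.case_a ht htC h2.symm
      have h4 : mk B * mk C = mk C * mk B := by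
        have : mk (B * C) = mk (C * B) := by rw [h3]
        exact this
      exact h4

end Pool.Agent.TH38.RK
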