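import Pool.Agent.TH38.RK.Stmts

/-!
# Unbounded sequences give small actions on `ℝ`-trees
-/

set_option autoImplicit false

open Filter Topology

namespace Pool.Agent.TH38.RK

namespace Unb

/-- commutators of elements of `A` commute -/
lemma comm_comm {G : Type} [Group G] (hE : ElCSA G) (A : Subgroup G)
    (h : ∀ a ∈ A, ∀ b ∈ A, ∀ a' ∈ A, ∀ b' ∈ A, ∀ U V W : G, U = a * b * a⁻¹ * b⁻¹ →
      V = a' * b' * a'⁻¹ * b'⁻¹ → W = U * V * U⁻¹ * V⁻¹ → U * W * U⁻¹ * W⁻¹ = 1)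
    {a b a' b' : G} (ha : a ∈ A) (hb : b ∈ A) (ha' : a' ∈ A) (hb' : b' ∈ A) :
    (a * b * a⁻¹ * b⁻¹) * (a' * b' * a'⁻¹ * b'⁻¹) =
      (a' * b' * a'⁻¹ * b'⁻¹) * (a * b * a⁻¹ * b⁻¹) := by
  obtain ⟨U, hU⟩ : ∃ U, U = a * b * a⁻¹ * b⁻¹ := ⟨_, rfl⟩
  obtain ⟨V, hV⟩ : ∃ V, V = a' * b' * a'⁻¹ * b'⁻¹ := ⟨_, rfl⟩
  rw [← hU, ← hV]
  have h1 := h a ha b hb a' ha' b' hb' U V (U * V * U⁻¹ * V⁻¹) hU hV rfl
  by_cases hU1 : U = 1
  · rw [hU1, one_mul, mul_one]
  · have h2 : U * (U * V * U⁻¹ * V⁻¹) = (U * V * U⁻¹ * V⁻¹) * U := by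
      have h3 := mul_inv_eq_one.1 h1
      exact (mul_inv_eq_iff_eq_mul.1 h3)
    refine hE U U⁻¹ V hU1 (inv_ne_one.2 hU1) (by rw [mul_inv_cancel, inv_mul_cancel]) ?_
    have h3 : V * U⁻¹ * V⁻¹ = U⁻¹ * (U * V * U⁻¹ * V⁻¹) := by group
    rw [h3]
    have h4 : U * (U⁻¹ * (U * V * U⁻¹ * V⁻¹)) = U⁻¹ * (U * (U * V * U⁻¹ * V⁻¹)) := by group
    rw [h4, h2]
    group

lemma comm_of {G : Type} [Group G] (hE : ElCSA G) (A : Subgroup G)
    (h : ∀ a ∈ A, ∀ b ∈ A, ∀ a' ∈ A, ∀ b' ∈ A, ∀ U V W : G, U = a * b * a⁻¹ * b⁻¹ →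
      V = a' * b' * a'⁻¹ * b'⁻¹ → W = U * V * U⁻¹ * V⁻¹ → U * W * U⁻¹ * W⁻¹ = 1)
    {a b : G} (ha : a ∈ A) (hb : b ∈ A) : a * b = b * a := by
  by_contra hne
  obtain ⟨U, hU⟩ : ∃ U, U = a * b * a⁻¹ * b⁻¹ := ⟨_, rfl⟩
  have hU1 : U ≠ 1 := by
    intro h1
    apply hne
    rw [hU] at h1
    have h2 := mul_inv_eq_one.1 h1
    exact mul_inv_eq_iff_eq_mul.1 h2
  have ha1 : a ≠ 1 := by
    intro h1
    apply hne
    rw [h1, one_mul, mul_one]
  have hc : a * b * a⁻¹ ∈ A := A.mul_mem (A.mul_mem ha hb) (A.inv_mem ha)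
  have h1 := comm_comm hE A h ha hb ha hc
  have h2 : a * (a * b * a⁻¹) * a⁻¹ * (a * b * a⁻¹)⁻¹ = a * U * a⁻¹ := by
    rw [hU]
    group
  rw [h2, ← hU] at h1
  have h3 : U * a = a * U := hE U U a hU1 hU1 rfl h1
  apply hne
  refine hE a a⁻¹ b ha1 (inv_ne_one.2 ha1) (by rw [mul_inv_cancel, inv_mul_cancel]) ?_
  have h4 : b * a⁻¹ * b⁻¹ = a⁻¹ * U := by
    rw [hU]
    group
  rw [h4, mul_assoc, h3]
  group

end Unb

open Pool.Agent.TH38.RK.Unb in
theorem unbounded (hb : S_basic) (ht : S_tree) (ha : S_action) (harc : S_arc)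
    (hz : S_zassenhaus) : S_unbounded := by
  intro G _ S hS hE F ρ hdisc hfaith l x hl hup hlow
  obtain ⟨hb1, hb2, hb3⟩ := hb
  have hNpos : ∀ p : PSL, 0 < NP p := fun p => lt_of_lt_of_le (by norm_num) (hb1 p)
  have hpos : ∀ᶠ i in (F : Filter ℕ), 0 < l i := hl.eventually_gt_atTop 0
  have hone : ∀ᶠ i in (F : Filter ℕ), 1 ≤ l i := hl.eventually_ge_atTop 1
  obtain ⟨T, inst, π, hπ, hT, hlim⟩ := ht F l x hl
  obtain ⟨φ, hφ⟩ := ha G S hS F ρ l x hl ⟨2, by
    filter_upwards [hone] with i hi s hs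
    have := hup i s hs
    linarith⟩ T π hπ hlim
  -- displacements
  have hdisp : ∀ (g : G) (y : Adm F l x),
      Tendsto (fun i => Real.log (NP ((y.1 i)⁻¹ * ρ i g * y.1 i)) / l i) F
        (𝓝 (dist (π y) (φ g (π y)))) := by
    intro g y
    obtain ⟨z, hz1, hz2⟩ := hφ g y
    rw [hz2]
    have h1 : (fun i => Real.log (NP ((y.1 i)⁻¹ * ρ i g * y.1 i)) / l i) =
        fun i => Real.log (NP ((y.1 i)⁻¹ * z.1 i)) / l i := by
      funext i
      rw [hz1, mul_assoc]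
    rw [h1]
    exact hlim y z
  refine ⟨T, inst, φ, hT, ?_, ?_⟩
  · intro y'
    obtain ⟨y, rfl⟩ := hπ y'
    by_contra hcon
    push Not at hcon
    have h1 : ∀ᶠ i in (F : Filter ℕ), ∀ s ∈ S,
        Real.log (NP ((y.1 i)⁻¹ * ρ i s * y.1 i)) / l i < 1 := by
      rw [Filter.eventually_all_finset]
      intro s _
      have h2 := hdisp s y
      rw [hcon s, dist_self] at h2
      exact h2.eventually_lt_const (by norm_num)
    obtain ⟨i, hi1, hi2⟩ := (h1.and hpos).exists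
    obtain ⟨s, hs, hs2⟩ := hlow i (y.1 i)
    have h3 := hi1 s hs
    rw [div_lt_one hi2] at h3
    linarith
  · intro y' z' hyz g h hg1 hg2 hh1 hh2
    obtain ⟨y, rfl⟩ := hπ y'
    obtain ⟨z, rfl⟩ := hπ z'
    obtain ⟨r, hr⟩ : ∃ r, r = dist (π y) (π z) := ⟨_, rfl⟩
    have hr0 : 0 < r := by
      rw [hr]
      exact dist_pos.2 hyz
    -- the stabiliser
    let A : Subgroup G :=
      { carrier := {a | φ a (π y) = π y ∧ φ a (π z) = π z}
        one_mem' := by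
          constructor
          · rw [map_one]; rfl
          · rw [map_one]; rfl
        mul_mem' := by
          rintro a b ⟨h1, h2⟩ ⟨h3, h4⟩
          constructor
          · rw [map_mul]
            show φ a (φ b (π y)) = π y
            rw [h3, h1]
          · rw [map_mul]
            show φ a (φ b (π z)) = π z
            rw [h4, h2]
        inv_mem' := by
          rintro a ⟨h1, h2⟩
          have h5 : ∀ w : T, φ a⁻¹ (φ a w) = w := by
            intro w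
            have h6 : (φ a⁻¹ * φ a) w = w := by
              rw [← map_mul, inv_mul_cancel, map_one]
              rfl
            exact h6
          constructor
          · have h6 := h5 (π y)
            rwa [h1] at h6
          · have h6 := h5 (π z)
            rwa [h2] at h6 }
    have hAd : ∀ a ∈ A, ∀ᶠ i in (F : Filter ℕ),
        NP ((y.1 i)⁻¹ * ρ i a * y.1 i) ≤ Real.exp (r / 16 * l i) ∧
        NP ((z.1 i)⁻¹ * ρ i a * z.1 i) ≤ Real.exp (r / 16 * l i) := by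
      intro a haA
      have h1 := hdisp a y
      have h2 := hdisp a z
      rw [haA.1, dist_self] at h1
      rw [haA.2, dist_self] at h2
      have hr16 : 0 < r / 16 := by positivity
      filter_upwards [h1.eventually_lt_const hr16, h2.eventually_lt_const hr16, hpos] with i h3 h4 h5
      rw [div_lt_iff₀ h5] at h3 h4
      exact ⟨((Real.log_le_iff_le_exp (hNpos _)).1 h3.le),
        ((Real.log_le_iff_le_exp (hNpos _)).1 h4.le)⟩
    have hyz' : ∀ᶠ i in (F : Filter ℕ), Real.exp (r / 2 * l i) ≤ NP ((y.1 i)⁻¹ * z.1 i) := by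
      have h1 := hlim y z
      rw [← hr] at h1
      filter_upwards [h1.eventually_const_lt (by linarith : r / 2 < r), hpos] with i h3 h5
      rw [lt_div_iff₀ h5] at h3
      exact (Real.le_log_iff_exp_le (hNpos _)).1 h3.le
    obtain ⟨C, hC, harc⟩ := harc
    obtain ⟨ε, hε, hz⟩ := hz
    have hbig : ∀ᶠ i in (F : Filter ℕ), C * Real.exp (r / 16 * l i) ^ 2 <
        ε * Real.sqrt (Real.exp (r / 2 * l i)) := by
      have h1 : Tendsto (fun i => r / 8 * l i) F atTop := hl.const_mul_atTop (by positivity)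
      have h2 : Tendsto (fun i => Real.exp (r / 8 * l i)) F atTop :=
        Real.tendsto_exp_atTop.comp h1
      filter_upwards [h2.eventually_gt_atTop (C / ε)] with i hi
      rw [div_lt_iff₀ hε] at hi
      have h3 : Real.exp (r / 16 * l i) ^ 2 = Real.exp (r / 8 * l i) := by
        rw [← Real.exp_nat_mul]
        congr 1
        push_cast
        ring
      have h4 : Real.sqrt (Real.exp (r / 2 * l i)) =
          Real.exp (r / 8 * l i) * Real.exp (r / 8 * l i) := by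
        rw [← Real.exp_add, ← Real.exp_half]
        congr 1
        ring
      rw [h3, h4]
      have h5 := Real.exp_pos (r / 8 * l i)
      calc C * Real.exp (r / 8 * l i) < (Real.exp (r / 8 * l i) * ε) * Real.exp (r / 8 * l i) :=
            mul_lt_mul_of_pos_right hi h5
        _ = ε * (Real.exp (r / 8 * l i) * Real.exp (r / 8 * l i)) := by ring
    have hkey : ∀ a ∈ A, ∀ b ∈ A, ∀ a' ∈ A, ∀ b' ∈ A, ∀ U V W : G, U = a * b * a⁻¹ * b⁻¹ →
        V = a' * b' * a'⁻¹ * b'⁻¹ → W = U * V * U⁻¹ * V⁻¹ → U * W * U⁻¹ * W⁻¹ = 1 := by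
      intro a haA b hbA a' haA' b' hbA' U V W hU hV hW
      by_contra hne
      have h1 := hfaith _ hne
      obtain ⟨i, hi⟩ := (h1.and ((hAd a haA).and ((hAd b hbA).and ((hAd a' haA').and
        ((hAd b' hbA').and (hyz'.and hbig)))))).exists
      obtain ⟨hi1, ⟨ha1, ha2⟩, ⟨hb1', hb2'⟩, ⟨ha3, ha4⟩, ⟨hb3', hb4'⟩, hi2, hi3⟩ := hi
      apply hi1
      obtain ⟨m, hm⟩ := harc (y.1 i) (z.1 i)
      have hsq : C * Real.exp (r / 16 * l i) ^ 2 <
          ε * Real.sqrt (NP ((y.1 i)⁻¹ * z.1 i)) :=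
        lt_of_lt_of_le hi3 (mul_le_mul_of_nonneg_left (Real.sqrt_le_sqrt hi2) hε.le)
      have hn1 := hm (ρ i a) (ρ i b) _ ε ha1 ha2 hb1' hb2' hsq
      have hn2 := hm (ρ i a') (ρ i b') _ ε ha3 ha4 hb3' hb4' hsq
      have hu : ρ i a * ρ i b * (ρ i a)⁻¹ * (ρ i b)⁻¹ = ρ i U := by
        rw [hU]
        simp only [map_mul, map_inv]
      have hv : ρ i a' * ρ i b' * (ρ i a')⁻¹ * (ρ i b')⁻¹ = ρ i V := by
        rw [hV]
        simp only [map_mul, map_inv]
      rw [hu] at hn1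
      rw [hv] at hn2
      have h2 := hz (ρ i).range (hdisc i) m (ρ i U) (ρ i V) ⟨U, rfl⟩ ⟨V, rfl⟩ hn1 hn2 (ρ i W) (by
        rw [hW]
        simp only [map_mul, map_inv])
      simp only [map_mul, map_inv]
      exact h2
    exact comm_of hE A hkey ⟨hg1, hg2⟩ ⟨hh1, hh2⟩

end Pool.Agent.TH38.RK
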