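import Pool.Agent.TH38.RK.Stmts3
set_option autoImplicit false
open Filter Topology
namespace Pool.Agent.TH38.RK

namespace Full4

/-- in a torsion-free group a nontrivial power of a nontrivial element is nontrivial -/
theorem zpow_ne {G : Type} [Group G] (htf : ∀ g : G, g ≠ 1 → ¬ IsOfFinOrder g) {g : G}
    (hg : g ≠ 1) {n : ℤ} (hn : n ≠ 0) : g ^ n ≠ 1 := fun h =>
  htf g hg (isOfFinOrder_iff_zpow_eq_one.2 ⟨n, hn, h⟩)

/-- commuting nontrivial elements of a torsion-free group without `ℤ²` have a common nontrivial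
power -/
theorem comm_pow {G : Type} [Group G] (htf : ∀ g : G, g ≠ 1 → ¬ IsOfFinOrder g) (hz : NoZ2 G)
    {w g : G} (hw : w ≠ 1) (hg : g ≠ 1) (hc : w * g = g * w) :
    ∃ m n : ℤ, w ^ m = g ^ n ∧ w ^ m ≠ 1 := by
  have hcz : ∀ a b : ℤ, w ^ a * g ^ b = g ^ b * w ^ a := fun a b =>
    ((show Commute w g from hc).zpow_zpow a b)
  let f : Multiplicative (ℤ × ℤ) →* G :=
    { toFun := fun p => w ^ (Multiplicative.toAdd p).1 * g ^ (Multiplicative.toAdd p).2
      map_one' := by simp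
      map_mul' := by
        intro p q
        simp only [toAdd_mul, Prod.fst_add, Prod.snd_add, zpow_add]
        calc w ^ (Multiplicative.toAdd p).1 * w ^ (Multiplicative.toAdd q).1 *
              (g ^ (Multiplicative.toAdd p).2 * g ^ (Multiplicative.toAdd q).2)
            = w ^ (Multiplicative.toAdd p).1 * (w ^ (Multiplicative.toAdd q).1 *
              g ^ (Multiplicative.toAdd p).2) * g ^ (Multiplicative.toAdd q).2 := by group
          _ = w ^ (Multiplicative.toAdd p).1 * (g ^ (Multiplicative.toAdd p).2 *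
              w ^ (Multiplicative.toAdd q).1) * g ^ (Multiplicative.toAdd q).2 := by rw [hcz]
          _ = _ := by group }
  have hni : ¬ Function.Injective f := fun hi => hz ⟨f, hi⟩
  rw [injective_iff_map_eq_one] at hni
  push Not at hni
  obtain ⟨p, hp1, hp2⟩ := hni
  have hp1' : w ^ (Multiplicative.toAdd p).1 * g ^ (Multiplicative.toAdd p).2 = 1 := hp1
  have h1 : w ^ (Multiplicative.toAdd p).1 = g ^ (-(Multiplicative.toAdd p).2) := by
    rw [zpow_neg]
    exact eq_inv_of_mul_eq_one_left hp1'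
  refine ⟨_, _, h1, zpow_ne htf hw ?_⟩
  intro h0
  have h2 : (Multiplicative.toAdd p).2 ≠ 0 := by
    intro h3
    apply hp2
    apply Multiplicative.toAdd.injective
    exact Prod.ext h0 h3
  rw [h0, zpow_zero, one_mul] at hp1'
  exact zpow_ne htf hg h2 hp1'

theorem step {G : Type} [Group G] (htf : ∀ g : G, g ≠ 1 → ¬ IsOfFinOrder g) (hz : NoZ2 G)
    {w g : G} (hw : w ≠ 1) (hg : g ≠ 1) :
    ∃ w1 : G, w1 ≠ 1 ∧ ∀ ρ : G →* PSL, ρ w1 ≠ 1 → ρ w ≠ 1 ∧ ρ g ≠ 1 := by
  by_cases hc : w * g = g * w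
  · obtain ⟨m, n, hmn, hm⟩ := comm_pow htf hz hw hg hc
    refine ⟨w ^ m, hm, fun ρ h1 => ⟨?_, ?_⟩⟩
    · intro h2
      apply h1
      rw [map_zpow, h2, one_zpow]
    · intro h2
      apply h1
      rw [hmn, map_zpow, h2, one_zpow]
  · refine ⟨w * g * w⁻¹ * g⁻¹, ?_, fun ρ h1 => ⟨?_, ?_⟩⟩
    · intro h2
      apply hc
      have h3 := mul_inv_eq_one.1 h2
      exact mul_inv_eq_iff_eq_mul.1 h3
    · intro h2
      apply h1
      simp [h2]
    · intro h2
      apply h1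
      simp [h2]

theorem exists_w {G : Type} [Group G] (htf : ∀ g : G, g ≠ 1 → ¬ IsOfFinOrder g) (hz : NoZ2 G)
    (hn : ∃ g : G, g ≠ 1) (f : ℕ → G) (n : ℕ) :
    ∃ w : G, w ≠ 1 ∧ ∀ ρ : G →* PSL, ρ w ≠ 1 → ∀ k < n, f k ≠ 1 → ρ (f k) ≠ 1 := by
  induction n with
  | zero =>
    obtain ⟨a, ha⟩ := hn
    exact ⟨a, ha, fun ρ _ k hk => absurd hk (Nat.not_lt_zero k)⟩
  | succ n ih =>
    obtain ⟨w, hw, hρ⟩ := ih
    by_cases hf : f n = 1
    · refine ⟨w, hw, fun ρ h1 k hk hk1 => ?_⟩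
      rcases Nat.lt_succ_iff_lt_or_eq.1 hk with h2 | h2
      · exact hρ ρ h1 k h2 hk1
      · subst h2
        exact absurd hf hk1
    · obtain ⟨w1, hw1, h1⟩ := step htf hz hw hf
      refine ⟨w1, hw1, fun ρ h2 k hk hk1 => ?_⟩
      rcases Nat.lt_succ_iff_lt_or_eq.1 hk with h4 | h4
      · exact hρ ρ (h1 ρ h2).1 k h4 hk1
      · subst h4
        exact (h1 ρ h2).2

end Full4

theorem full4 : S_full4 := by
  intro G _ hc htf hz hn hres
  obtain ⟨f, hf⟩ := exists_surjective_nat G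
  choose w hw hw2 using Full4.exists_w htf hz hn f
  choose ρ hρ1 hρ2 using fun n => hres (w n) (hw n)
  refine ⟨ρ, hρ1, fun g hg => ?_⟩
  obtain ⟨k, rfl⟩ := hf g
  filter_upwards [eventually_gt_atTop k] with n hn'
  exact hw2 n (ρ n) (hρ2 n) k hn' hg

end Pool.Agent.TH38.RK
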