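import Pool.Agent.TH38.RK.Stmts

/-!
# Maximal abelian subgroups malnormal: the elementwise form (job 4844, helper692)
-/

set_option autoImplicit false
open Filter Topology

namespace Pool.Agent.TH38.RK

namespace Csa

variable {G : Type} [Group G]

lemma exists_max (a b : G) (hab : a * b = b * a) : ∃ M : Subgroup G, a ∈ M ∧ b ∈ M ∧
    (∀ a ∈ M, ∀ b ∈ M, a * b = b * a) ∧
    (∀ M' : Subgroup G, (∀ a ∈ M', ∀ b ∈ M', a * b = b * a) → M ≤ M' → M' = M) := by
  set S : Set (Subgroup G) := {M | ∀ a ∈ M, ∀ b ∈ M, a * b = b * a} with hS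
  set H : Subgroup G := Subgroup.closure {a, b} with hH
  have h1 : H ≤ Subgroup.centralizer {a, b} := by
    rw [hH, Subgroup.closure_le]
    intro x hx
    rw [SetLike.mem_coe, Subgroup.mem_centralizer_iff]
    intro y hy
    rcases hx with rfl | rfl <;> rcases hy with rfl | rfl
    · rfl
    · exact hab.symm
    · exact hab
    · rfl
  have h2 : H ≤ Subgroup.centralizer (H : Set G) := by
    rw [hH, Subgroup.closure_le]
    intro x hx
    rw [SetLike.mem_coe, Subgroup.mem_centralizer_iff]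
    intro y hy
    exact ((Subgroup.mem_centralizer_iff.1 (h1 hy)) x hx).symm
  have hHS : H ∈ S := fun x hx y hy => ((Subgroup.mem_centralizer_iff.1 (h2 hx)) y hy).symm
  obtain ⟨M, hHM, hM⟩ := zorn_le_nonempty₀ S (by
    intro c hcS hc y hy
    refine ⟨sSup c, ?_, fun z hz => le_sSup hz⟩
    intro p hp q hq
    rw [Subgroup.mem_sSup_of_directedOn ⟨y, hy⟩ hc.directedOn] at hp hq
    obtain ⟨M1, hM1, hp⟩ := hp
    obtain ⟨M2, hM2, hq⟩ := hq
    rcases hc.total hM1 hM2 with h | h
    · exact hcS hM2 p (h hp) q hq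
    · exact hcS hM1 p hp q (h hq)) H hHS
  refine ⟨M, hHM (Subgroup.subset_closure (by simp)), hHM (Subgroup.subset_closure (by simp)),
    hM.1, fun M' hM' h => le_antisymm (hM.2 hM' h) h⟩

end Csa

theorem csa : S_csa := by
  intro G _ hG a b g ha hb hab hg
  obtain ⟨M, haM, hbM, hab', hmax⟩ := Csa.exists_max a b hab
  have hCT : ∀ y ∈ M, y ≠ 1 → ∀ x, x * y = y * x → x ∈ M := by
    intro y hy hy1 x hxy
    by_contra hx
    apply hy1
    apply hG M hab' hmax x hx y hy
    rw [hxy, mul_inv_cancel_right]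
    exact hy
  have hc : g * b * g⁻¹ ∈ M := hCT a haM ha _ hg.symm
  have hgM : g ∈ M := by
    by_contra h
    exact hb (hG M hab' hmax g h b hbM hc)
  exact hab' a haM g hgM

end Pool.Agent.TH38.RK
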