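import Pool.Agent.TH38.RK.Stmts
set_option autoImplicit false
open Filter Topology
namespace Pool.Agent.TH38.RK

namespace Full

/-- a non-abelian group with the elementwise CSA property has trivial centre -/
theorem not_central {G : Type} [Group G] (hG : ElCSA G) (hn : ∃ a b : G, a * b ≠ b * a) {w : G}
    (hw : w ≠ 1) : ∃ x : G, w * x ≠ x * w := by
  by_contra hc
  push Not at hc
  obtain ⟨a, b, hab⟩ := hn
  apply hab
  by_cases ha : a = 1
  · rw [ha, one_mul, mul_one]
  · have h1 : b * w * b⁻¹ = w := by rw [← hc b, mul_inv_cancel_right]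
    exact hG a w b ha hw (hc a).symm (by rw [h1]; exact (hc a).symm)

theorem exists_conj {G : Type} [Group G] (hG : ElCSA G) (hn : ∃ a b : G, a * b ≠ b * a) {w g : G}
    (hw : w ≠ 1) (hg : g ≠ 1) : ∃ x : G, w * (x * g * x⁻¹) * w⁻¹ * (x * g * x⁻¹)⁻¹ ≠ 1 := by
  by_contra hc
  push Not at hc
  have h1 : ∀ x : G, w * (x * g * x⁻¹) = x * g * x⁻¹ * w := by
    intro x
    have h2 := mul_inv_eq_one.1 (hc x)
    exact mul_inv_eq_iff_eq_mul.1 h2
  obtain ⟨x, hx⟩ := not_central hG hn hw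
  apply hx
  have h3 : w * g = g * w := by
    have h4 := h1 1
    simpa using h4
  exact hG w g x hw hg h3 (h1 x)

theorem exists_w {G : Type} [Group G] (hG : ElCSA G) (hn : ∃ a b : G, a * b ≠ b * a) (f : ℕ → G)
    (n : ℕ) : ∃ w : G, w ≠ 1 ∧ ∀ ρ : G →* PSL, ρ w ≠ 1 → ∀ k < n, f k ≠ 1 → ρ (f k) ≠ 1 := by
  induction n with
  | zero =>
    obtain ⟨a, b, hab⟩ := hn
    refine ⟨a, ?_, fun ρ _ k hk => absurd hk (Nat.not_lt_zero k)⟩
    rintro rfl
    apply hab
    rw [one_mul, mul_one]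
  | succ n ih =>
    obtain ⟨w, hw, hρ⟩ := ih
    by_cases hf : f n = 1
    · refine ⟨w, hw, fun ρ h1 k hk hk1 => ?_⟩
      rcases Nat.lt_succ_iff_lt_or_eq.1 hk with h2 | h2
      · exact hρ ρ h1 k h2 hk1
      · subst h2
        exact absurd hf hk1
    · obtain ⟨x, hx⟩ := exists_conj hG hn hw hf
      refine ⟨_, hx, fun ρ h1 k hk hk1 => ?_⟩
      have h2 : ρ w ≠ 1 := by
        intro h3
        apply h1
        simp [h3]
      rcases Nat.lt_succ_iff_lt_or_eq.1 hk with h4 | h4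
      · exact hρ ρ h2 k h4 hk1
      · subst h4
        intro h3
        apply h1
        simp [h3]

end Full

theorem full : S_full := by
  intro G _ hc hG hn hres
  obtain ⟨f, hf⟩ := exists_surjective_nat G
  choose w hw hw2 using Full.exists_w hG hn f
  choose ρ hρ1 hρ2 using fun n => hres (w n) (hw n)
  refine ⟨ρ, hρ1, fun g hg => ?_⟩
  obtain ⟨k, rfl⟩ := hf g
  filter_upwards [eventually_gt_atTop k] with n hn'
  exact hw2 n (ρ n) (hρ2 n) k hn' hg

end Pool.Agent.TH38.RK
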