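import Pool.Agent.TH38.RK.Stmts3
import Pool.Agent.TH38.RK.Full

/-!
# Commutative transitive residually Kleinian groups are fully residually Kleinian
-/

set_option autoImplicit false

open Filter Topology

namespace Pool.Agent.TH38.RK

/-- Commutative transitive groups: commuting is a transitive relation on nontrivial elements. -/
def CommTrans (G : Type) [Group G] : Prop :=
  ∀ a b c : G, b ≠ 1 → a * b = b * a → b * c = c * b → a * c = c * a

namespace Full5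

theorem exists_conj (hnorm : S_norm) {G : Type} [Group G]
    (htf : ∀ g : G, g ≠ 1 → ¬ IsOfFinOrder g) (hct : CommTrans G)
    (hn : ∃ a b : G, a * b ≠ b * a)
    (hres : ∀ g : G, g ≠ 1 → ∃ ρ : G →* PSL, Disc ρ.range ∧ ρ g ≠ 1) {w g : G}
    (hw : w ≠ 1) (hg : g ≠ 1) : ∃ x : G, w * (x * g * x⁻¹) * w⁻¹ * (x * g * x⁻¹)⁻¹ ≠ 1 := by
  have hpow : ∀ (g : G) (n : ℕ), 0 < n → g ≠ 1 → g ^ n ≠ 1 := by
    intro g n hn hg h
    exact htf g hg (isOfFinOrder_iff_pow_eq_one.mpr ⟨n, hn, h⟩)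
  by_contra hc
  push Not at hc
  have h1 : ∀ x : G, w * (x * g * x⁻¹) = x * g * x⁻¹ * w := by
    intro x
    have h2 := mul_inv_eq_one.1 (hc x)
    exact mul_inv_eq_iff_eq_mul.1 h2
  have h0 : w * g = g * w := by simpa using h1 1
  have h2 : ∀ x : G, g * (x * g * x⁻¹) = x * g * x⁻¹ * g := fun x =>
    hct g w (x * g * x⁻¹) hw h0.symm (h1 x)
  have h3 : ∀ x : G, x ^ 60 * (g * g) = g * g * x ^ 60 := by
    intro x
    by_contra h
    have h4 : x ^ 60 * (g * g) * (x ^ 60)⁻¹ * (g * g)⁻¹ ≠ 1 := by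
      intro h5
      exact h (mul_inv_eq_iff_eq_mul.1 (mul_inv_eq_one.1 h5))
    obtain ⟨ρ, hd, hρ⟩ := hres _ h4
    apply hρ
    have key : ρ x ^ 60 * (ρ g * ρ g) = ρ g * ρ g * ρ x ^ 60 := by
      by_cases hgg : ρ g * ρ g = 1
      · rw [hgg, one_mul, mul_one]
      · rcases hnorm ρ.range hd (ρ g) ⟨g, rfl⟩ (ρ x) ⟨x, rfl⟩ hgg
          (by simpa using congrArg ρ (h2 x)) with h6 | h6
        · have h7 : Commute (ρ x) (ρ g) := h6.symm
          exact ((h7.mul_right h7).pow_left 60).eq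
        · rw [h6, one_mul, mul_one]
    simp only [map_mul, map_inv, map_pow]
    rw [key, mul_inv_cancel_right, mul_inv_cancel]
  have h4 : ∀ x : G, x * g = g * x := by
    intro x
    by_cases hx : x = 1
    · subst hx; simp
    have h5 : x * (g * g) = g * g * x :=
      hct x (x ^ 60) (g * g) (hpow x 60 (by norm_num) hx) (by rw [← pow_succ, ← pow_succ'])
        (h3 x)
    have hgg : g * g ≠ 1 := by simpa [pow_two] using hpow g 2 (by norm_num) hg
    exact hct x (g * g) g hgg h5 (by rw [mul_assoc])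
  obtain ⟨a, b, hab⟩ := hn
  exact hab (hct a g b hg (h4 a) (h4 b).symm)

theorem exists_w (hnorm : S_norm) {G : Type} [Group G]
    (htf : ∀ g : G, g ≠ 1 → ¬ IsOfFinOrder g) (hct : CommTrans G)
    (hn : ∃ a b : G, a * b ≠ b * a)
    (hres : ∀ g : G, g ≠ 1 → ∃ ρ : G →* PSL, Disc ρ.range ∧ ρ g ≠ 1) (f : ℕ → G)
    (n : ℕ) : ∃ w : G, w ≠ 1 ∧ ∀ ρ : G →* PSL, ρ w ≠ 1 → ∀ k < n, f k ≠ 1 → ρ (f k) ≠ 1 := by
  induction n with
  | zero =>
    obtain ⟨a, b, hab⟩ := hn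
    refine ⟨a, ?_, fun ρ _ k hk => absurd hk (Nat.not_lt_zero k)⟩
    rintro rfl
    apply hab
    rw [one_mul, mul_one]
  | succ n ih =>
    obtain ⟨w, hw, hρ⟩ := ih
    by_cases hf : f n = 1
    · refine ⟨w, hw, fun ρ h1 k hk hk1 => ?_⟩
      rcases Nat.lt_succ_iff_lt_or_eq.1 hk with h2 | h2
      · exact hρ ρ h1 k h2 hk1
      · subst h2
        exact absurd hf hk1
    · obtain ⟨x, hx⟩ := exists_conj hnorm htf hct hn hres hw hf
      refine ⟨_, hx, fun ρ h1 k hk hk1 => ?_⟩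
      have h2 : ρ w ≠ 1 := by
        intro h3
        apply h1
        simp [h3]
      rcases Nat.lt_succ_iff_lt_or_eq.1 hk with h4 | h4
      · exact hρ ρ h2 k h4 hk1
      · subst h4
        intro h3
        apply h1
        simp [h3]

end Full5

theorem full5 (hnorm : S_norm) (G : Type) [Group G] (hc : Countable G)
    (htf : ∀ g : G, g ≠ 1 → ¬ IsOfFinOrder g) (hct : CommTrans G)
    (hn : ∃ a b : G, a * b ≠ b * a)
    (hres : ∀ g : G, g ≠ 1 → ∃ ρ : G →* PSL, Disc ρ.range ∧ ρ g ≠ 1) :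
    ∃ ρ : ℕ → G →* PSL, (∀ i, Disc (ρ i).range) ∧
      ∀ g : G, g ≠ 1 → ∀ᶠ i in (atTop : Filter ℕ), ρ i g ≠ 1 := by
  obtain ⟨f, hf⟩ := exists_surjective_nat G
  choose w hw hw2 using Full5.exists_w hnorm htf hct hn hres f
  choose ρ hρ1 hρ2 using fun n => hres (w n) (hw n)
  refine ⟨ρ, hρ1, fun g hg => ?_⟩
  obtain ⟨k, rfl⟩ := hf g
  filter_upwards [eventually_gt_atTop k] with n hn'
  exact hw2 n (ρ n) (hρ2 n) k hn' hg

end Pool.Agent.TH38.RK
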