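import Pool.Agent.TH38.RK.Stmts2
import Pool.Agent.TH914.RK.Com
set_option autoImplicit false
open Filter Topology
namespace Pool.Agent.TH38.RK

namespace Unb2

open Pool.Agent.TH914.RK

/-- the commutator of the generators of the free group is not trivial -/
theorem free_comm : (FreeGroup.of (0 : Fin 2) * FreeGroup.of 1 * (FreeGroup.of 0)⁻¹ *
    (FreeGroup.of 1)⁻¹ : FreeGroup (Fin 2)) ≠ 1 := by
  intro h
  have h1 := congrArg (FreeGroup.lift (fun j : Fin 2 =>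
    if j = 0 then (Equiv.swap 0 1 : Equiv.Perm (Fin 3)) else Equiv.swap 1 2)) h
  simp only [map_mul, map_inv, FreeGroup.lift_apply_of, map_one] at h1
  revert h1
  decide

/-- the algebraic part -/
theorem no_free {G : Type} [Group G] (hG : HypLike G) (a : Fin 2 → G)
    (hinj : Function.Injective (FreeGroup.lift a))
    (hUV : ∀ U V : G, U = a 0 * a 1 * (a 0)⁻¹ * (a 1)⁻¹ →
      V = a 0 * (a 0 * a 1 * (a 0)⁻¹) * (a 0)⁻¹ * (a 0 * a 1 * (a 0)⁻¹)⁻¹ →
      U * (U * V * U⁻¹ * V⁻¹) * U⁻¹ * (U * V * U⁻¹ * V⁻¹)⁻¹ = 1) : False := by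
  obtain ⟨c, hc⟩ : ∃ c : FreeGroup (Fin 2), c = FreeGroup.of (0 : Fin 2) * FreeGroup.of 1 *
    (FreeGroup.of 0)⁻¹ * (FreeGroup.of 1)⁻¹ := ⟨_, rfl⟩
  have hc1 : c ≠ 1 := by rw [hc]; exact free_comm
  obtain ⟨U, hU⟩ : ∃ U, U = a 0 * a 1 * (a 0)⁻¹ * (a 1)⁻¹ := ⟨_, rfl⟩
  have hcU : FreeGroup.lift a c = U := by
    rw [hc, hU]
    simp only [map_mul, map_inv, FreeGroup.lift_apply_of]
  have hUo : ¬ IsOfFinOrder U := by
    intro h
    obtain ⟨n, hn, h1⟩ := isOfFinOrder_iff_pow_eq_one.1 h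
    have h2 : c ^ n = 1 := by
      apply hinj
      rw [map_pow, hcU, h1, map_one]
    exact hc1 ((pow_eq_one_iff_left hn.ne').1 h2)
  obtain ⟨V, hV⟩ : ∃ V, V = a 0 * U * (a 0)⁻¹ := ⟨_, rfl⟩
  have hV2 : V = a 0 * (a 0 * a 1 * (a 0)⁻¹) * (a 0)⁻¹ * (a 0 * a 1 * (a 0)⁻¹)⁻¹ := by
    rw [hV, hU]
    group
  have hW := hUV U V hU hV2
  have h1 : U * (U * V * U⁻¹ * V⁻¹) = (U * V * U⁻¹ * V⁻¹) * U :=
    mul_inv_eq_iff_eq_mul.mp (mul_inv_eq_one.mp hW)
  have h2 : U * (V * U⁻¹ * V⁻¹) = (V * U⁻¹ * V⁻¹) * U := by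
    have h3 : U * (U * (V * U⁻¹ * V⁻¹)) = U * ((V * U⁻¹ * V⁻¹) * U) := by
      simpa only [mul_assoc] using h1
    exact mul_left_cancel h3
  -- `V U⁻¹ V⁻¹` is in the commensurator of `U`
  have h3 : V * U * V⁻¹ ∈ Com U := by
    have h4 : V * U⁻¹ * V⁻¹ ∈ Com U := com_of_comm h2.symm
    have h5 := (Com U).inv_mem h4
    have e : (V * U⁻¹ * V⁻¹)⁻¹ = V * U * V⁻¹ := by group
    rwa [e] at h5
  have h4 : V ∈ Com U := com_of_conj hG hUo h3
  have h5 : a 0 ∈ Com U := by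
    rw [hV] at h4
    exact com_of_conj hG hUo h4
  obtain ⟨n, m, hn, e⟩ := com_pow hG hUo h5
  have h6 : (FreeGroup.of (0 : Fin 2)) ^ n = c ^ m := by
    apply hinj
    rw [map_pow, map_zpow, hcU, FreeGroup.lift_apply_of, e]
  have h7 := congrArg (FreeGroup.lift (fun j : Fin 2 =>
    if j = 0 then Multiplicative.ofAdd (1 : ℤ) else 1)) h6
  have h8 : FreeGroup.lift (fun j : Fin 2 =>
      if j = 0 then Multiplicative.ofAdd (1 : ℤ) else 1) c = 1 := by
    rw [hc]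
    simp only [map_mul, map_inv, FreeGroup.lift_apply_of]
    simp
  rw [map_pow, map_zpow, h8, one_zpow, FreeGroup.lift_apply_of, if_pos rfl, ← ofAdd_nsmul] at h7
  have h9 : (n • (1 : ℤ)) = 0 := ofAdd_eq_one.1 h7
  rw [nsmul_eq_mul, mul_one] at h9
  exact hn.ne' (by exact_mod_cast h9)

end Unb2

open Unb2 in
theorem unbounded2 (hb : S_basic) (ht : S_tree) (ha : S_action) (harc : S_arc)
    (hz : S_zassenhaus) : S_unbounded2 := by
  intro G _ S hS hE F ρ hD hfaith l x hl hx hmin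
  obtain ⟨T, _, π, hπ, htree, hdist⟩ := ht F l x hl
  obtain ⟨φ, hφ⟩ := ha G S hS F ρ l x hl ⟨2, by
    filter_upwards [hl.eventually_ge_atTop 1] with i hi s hs
    have := hx i s hs
    linarith⟩ T π hπ hdist
  have hpos : ∀ p : PSL, 0 < NP p := fun p => lt_of_lt_of_le two_pos (hb.1 p)
  -- fixed points of `φ g`: the displacement is small
  have hfix : ∀ (g : G) (y : Adm F l x), φ g (π y) = π y → ∀ c : ℝ, 0 < c →
      ∀ᶠ i in (F : Filter ℕ), Real.log (NP ((y.1 i)⁻¹ * ρ i g * y.1 i)) < c * l i := by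
    intro g y hg c hc
    obtain ⟨z, hz1, hz2⟩ := hφ g y
    have h := hdist y z
    rw [← hz2, hg, dist_self] at h
    filter_upwards [h.eventually (gt_mem_nhds hc), hl.eventually_gt_atTop 0] with i hi hli
    rw [hz1 i, ← mul_assoc, div_lt_iff₀ hli] at hi
    exact hi
  refine ⟨T, _, φ, htree, ?_, ?_⟩
  · -- no global fixed point
    intro t
    by_contra hcon
    push Not at hcon
    obtain ⟨y, rfl⟩ := hπ t
    have h2 : ∀ᶠ i in (F : Filter ℕ), ∀ s ∈ S,
        Real.log (NP ((y.1 i)⁻¹ * ρ i s * y.1 i)) < 1 * l i :=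
      (Finset.eventually_all S).mpr (fun s _ => hfix s y (hcon s) 1 one_pos)
    obtain ⟨i, hi⟩ := h2.exists
    obtain ⟨s, hs, hls⟩ := hmin i (y.1 i)
    have := hi s hs
    linarith
  · intro t u htu
    obtain ⟨y, rfl⟩ := hπ t
    obtain ⟨z, rfl⟩ := hπ u
    have hr : 0 < dist (π y) (π z) := dist_pos.mpr htu
    obtain ⟨r, hrdef⟩ : ∃ r, r = dist (π y) (π z) := ⟨_, rfl⟩
    rw [← hrdef] at hr
    obtain ⟨C, hC, harc⟩ := harc
    obtain ⟨ε, hε, hz⟩ := hz
    obtain ⟨A, hA⟩ : ∃ A : Set G, A = {g | φ g (π y) = π y ∧ φ g (π z) = π z} := ⟨_, rfl⟩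
    have hAm : ∀ g, g ∈ A ↔ φ g (π y) = π y ∧ φ g (π z) = π z := by
      intro g
      rw [hA]
      exact Iff.rfl
    have hyz : ∀ᶠ i in (F : Filter ℕ), r / 2 * l i < Real.log (NP ((y.1 i)⁻¹ * z.1 i)) := by
      have h := hdist y z
      rw [← hrdef] at h
      filter_upwards [h.eventually (lt_mem_nhds (show r / 2 < r by linarith)),
        hl.eventually_gt_atTop 0] with i hi hli
      rwa [lt_div_iff₀ hli] at hi
    have hbig : ∀ᶠ i in (F : Filter ℕ), C / ε < Real.exp (r / 8 * l i) := by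
      have h1 : Tendsto (fun i => r / 8 * l i) F atTop := hl.const_mul_atTop (by positivity)
      exact (Real.tendsto_exp_atTop.comp h1).eventually_gt_atTop _
    have hmulA : ∀ a ∈ A, ∀ b ∈ A, a * b ∈ A := by
      intro a ha b hb
      rw [hAm] at ha hb ⊢
      rw [map_mul, IsometryEquiv.mul_apply, IsometryEquiv.mul_apply, hb.1, hb.2]
      exact ha
    have hinvA : ∀ a ∈ A, a⁻¹ ∈ A := by
      intro a ha
      rw [hAm] at ha ⊢
      constructor
      · have : φ a⁻¹ (φ a (π y)) = π y := by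
          rw [← IsometryEquiv.mul_apply, ← map_mul, inv_mul_cancel, map_one]
          rfl
        rwa [ha.1] at this
      · have : φ a⁻¹ (φ a (π z)) = π z := by
          rw [← IsometryEquiv.mul_apply, ← map_mul, inv_mul_cancel, map_one]
          rfl
        rwa [ha.2] at this
    have hmain : ∀ a ∈ A, ∀ b ∈ A, ∀ c ∈ A, ∀ d ∈ A, ∀ U V : G, U = a * b * a⁻¹ * b⁻¹ →
        V = c * d * c⁻¹ * d⁻¹ →
        U * (U * V * U⁻¹ * V⁻¹) * U⁻¹ * (U * V * U⁻¹ * V⁻¹)⁻¹ = 1 := by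
      rintro a ha b hb' c hc d hd U V rfl rfl
      by_contra hne
      have h1 := hfaith _ hne
      -- the displacements of the four elements at the two points
      have hdy : ∀ g ∈ A, ∀ᶠ i in (F : Filter ℕ),
          NP ((y.1 i)⁻¹ * ρ i g * y.1 i) ≤ Real.exp (r / 16 * l i) ∧
          NP ((z.1 i)⁻¹ * ρ i g * z.1 i) ≤ Real.exp (r / 16 * l i) := by
        intro g hg
        rw [hAm] at hg
        filter_upwards [hfix g y hg.1 (r / 16) (by positivity),
          hfix g z hg.2 (r / 16) (by positivity)] with i h1 h2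
        exact ⟨(Real.log_le_iff_le_exp (hpos _)).mp h1.le,
          (Real.log_le_iff_le_exp (hpos _)).mp h2.le⟩
      obtain ⟨i, ⟨⟨⟨⟨⟨hia, hib⟩, hic⟩, hid⟩, hi1⟩, hi2⟩, hi3⟩ := (((((((hdy a ha).and (hdy b hb')).and
        (hdy c hc)).and (hdy d hd)).and h1).and hyz).and hbig).exists
      apply hi1
      obtain ⟨m, hm⟩ := harc (y.1 i) (z.1 i)
      have hN : Real.exp (r / 4 * l i) ≤ Real.sqrt (NP ((y.1 i)⁻¹ * z.1 i)) := by
        apply Real.le_sqrt_of_sq_le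
        rw [← Real.exp_nat_mul]
        have := (Real.lt_log_iff_exp_lt (hpos _)).mp hi2
        refine le_trans (le_of_eq ?_) this.le
        congr 1
        push_cast
        ring
      have hlt : C * (Real.exp (r / 16 * l i)) ^ 2 <
          ε * Real.sqrt (NP ((y.1 i)⁻¹ * z.1 i)) := by
        have e1 : (Real.exp (r / 16 * l i)) ^ 2 = Real.exp (r / 8 * l i) := by
          rw [← Real.exp_nat_mul]
          congr 1
          push_cast
          ring
        have e2 : Real.exp (r / 4 * l i) = Real.exp (r / 8 * l i) * Real.exp (r / 8 * l i) := by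
          rw [← Real.exp_add]
          congr 1
          ring
        rw [e1]
        rw [div_lt_iff₀ hε] at hi3
        calc C * Real.exp (r / 8 * l i)
            < Real.exp (r / 8 * l i) * ε * Real.exp (r / 8 * l i) :=
              mul_lt_mul_of_pos_right hi3 (Real.exp_pos _)
          _ = ε * Real.exp (r / 4 * l i) := by rw [e2]; ring
          _ ≤ _ := mul_le_mul_of_nonneg_left hN hε.le
      have hU := hm (ρ i a) (ρ i b) _ ε hia.1 hia.2 hib.1 hib.2 hlt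
      have hV := hm (ρ i c) (ρ i d) _ ε hic.1 hic.2 hid.1 hid.2 hlt
      have hmemU : ρ i a * ρ i b * (ρ i a)⁻¹ * (ρ i b)⁻¹ ∈ (ρ i).range :=
        ⟨a * b * a⁻¹ * b⁻¹, by simp only [map_mul, map_inv]⟩
      have hmemV : ρ i c * ρ i d * (ρ i c)⁻¹ * (ρ i d)⁻¹ ∈ (ρ i).range :=
        ⟨c * d * c⁻¹ * d⁻¹, by simp only [map_mul, map_inv]⟩
      have h5 := hz (ρ i).range (hD i) m _ _ hmemU hmemV hU hV _ rfl
      simp only [map_mul, map_inv]
      exact h5
    intro a hay haz hinj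
    have m0 : a 0 ∈ A := (hAm _).mpr ⟨hay 0, haz 0⟩
    have m1 : a 1 ∈ A := (hAm _).mpr ⟨hay 1, haz 1⟩
    exact no_free hE a hinj fun U V hU hV => hmain (a 0) m0 (a 1) m1 (a 0) m0
      (a 0 * a 1 * (a 0)⁻¹) (hmulA _ (hmulA _ m0 _ m1) _ (hinvA _ m0)) U V hU hV

end Pool.Agent.TH38.RK
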