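import Pool.Agent.TH38.RK.Stmts

/-!
# Basic facts on `NP`
-/

set_option autoImplicit false

open Filter Topology

namespace Pool.Agent.TH38.RK

lemma N_eq (g : SL) : N g = ‖(g : Mat) 0 0‖ ^ 2 + ‖(g : Mat) 0 1‖ ^ 2 + ‖(g : Mat) 1 0‖ ^ 2 +
    ‖(g : Mat) 1 1‖ ^ 2 := by
  simp [N, Fin.sum_univ_two]
  ring

lemma det_eq (g : SL) : (g : Mat) 0 0 * (g : Mat) 1 1 - (g : Mat) 0 1 * (g : Mat) 1 0 = 1 := by
  have := g.2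
  rwa [Matrix.det_fin_two] at this

lemma two_le_N (g : SL) : 2 ≤ N g := by
  rw [N_eq]
  have h := det_eq g
  have h1 : (1 : ℝ) ≤ ‖(g : Mat) 0 0‖ * ‖(g : Mat) 1 1‖ + ‖(g : Mat) 0 1‖ * ‖(g : Mat) 1 0‖ := by
    have := norm_sub_le ((g : Mat) 0 0 * (g : Mat) 1 1) ((g : Mat) 0 1 * (g : Mat) 1 0)
    rw [h, norm_one, norm_mul, norm_mul] at this
    exact this
  nlinarith [sq_nonneg (‖(g : Mat) 0 0‖ - ‖(g : Mat) 1 1‖),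
    sq_nonneg (‖(g : Mat) 0 1‖ - ‖(g : Mat) 1 0‖)]

lemma cs2 (a b c d : ℂ) : ‖a * b + c * d‖ ^ 2 ≤ (‖a‖ ^ 2 + ‖c‖ ^ 2) * (‖b‖ ^ 2 + ‖d‖ ^ 2) := by
  have h := norm_add_le (a * b) (c * d)
  rw [norm_mul, norm_mul] at h
  have h0 := norm_nonneg (a * b + c * d)
  have h2 : ‖a * b + c * d‖ ^ 2 ≤ (‖a‖ * ‖b‖ + ‖c‖ * ‖d‖) ^ 2 := by
    exact pow_le_pow_left₀ h0 h 2
  nlinarith [sq_nonneg (‖a‖ * ‖d‖ - ‖c‖ * ‖b‖)]

lemma N_mul_le (g h : SL) : N (g * h) ≤ N g * N h := by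
  rw [N_eq, N_eq, N_eq]
  simp only [Matrix.SpecialLinearGroup.coe_mul, Matrix.mul_apply, Fin.sum_univ_two]
  have h1 := cs2 ((g : Mat) 0 0) ((h : Mat) 0 0) ((g : Mat) 0 1) ((h : Mat) 1 0)
  have h2 := cs2 ((g : Mat) 0 0) ((h : Mat) 0 1) ((g : Mat) 0 1) ((h : Mat) 1 1)
  have h3 := cs2 ((g : Mat) 1 0) ((h : Mat) 0 0) ((g : Mat) 1 1) ((h : Mat) 1 0)
  have h4 := cs2 ((g : Mat) 1 0) ((h : Mat) 0 1) ((g : Mat) 1 1) ((h : Mat) 1 1)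
  linarith

lemma N_inv (g : SL) : N g⁻¹ = N g := by
  rw [N_eq, N_eq]
  rw [Matrix.SpecialLinearGroup.coe_inv, Matrix.adjugate_fin_two]
  simp
  ring

theorem basic : S_basic := by
  refine ⟨fun p => ?_, fun p q => ?_, fun p => ?_⟩
  · obtain ⟨g, rfl⟩ := QuotientGroup.mk_surjective p
    exact two_le_N g
  · obtain ⟨g, rfl⟩ := QuotientGroup.mk_surjective p
    obtain ⟨h, rfl⟩ := QuotientGroup.mk_surjective q
    exact N_mul_le g h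
  · obtain ⟨g, rfl⟩ := QuotientGroup.mk_surjective p
    exact N_inv g

end Pool.Agent.TH38.RK
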