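import Mathlib

/-!
# Residually Kleinian groups: definitions

`PSL` is `PSL(2,ℂ)`; `NP g` is the sum of the squares of the absolute values of the entries of a
lift of `g` to `SL(2,ℂ)` (so `NP g = 2 cosh d(o, g o)` for the base point `o` of hyperbolic
3-space); `Disc Γ` says that the subgroup `Γ` of `PSL(2,ℂ)` is discrete.
-/

set_option autoImplicit false

open Filter Topology

namespace Pool.Agent.TH38.RK

/-- `2 × 2` complex matrices. -/
abbrev Mat := Matrix (Fin 2) (Fin 2) ℂ

/-- `SL(2,ℂ)`. -/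
abbrev SL := Matrix.SpecialLinearGroup (Fin 2) ℂ

/-- `PSL(2,ℂ)`, the quotient of `SL(2,ℂ)` by its centre. -/
abbrev PSL := SL ⧸ Subgroup.center SL

/-- The class of a matrix. -/
abbrev mk (g : SL) : PSL := QuotientGroup.mk g

/-- The sum of the squares of the absolute values of the entries. -/
noncomputable def N (g : SL) : ℝ := ∑ i, ∑ j, ‖(g : Mat) i j‖ ^ 2

/-- A central element of `SL(2,ℂ)` is `1` or `-1`. -/
lemma center_cases (z : SL) (hz : z ∈ Subgroup.center SL) :
    (z : Mat) = 1 ∨ (z : Mat) = -1 := by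
  rw [Matrix.SpecialLinearGroup.mem_center_iff] at hz
  obtain ⟨r, hr, hz⟩ := hz
  have h1 : r ^ 2 = 1 := by simpa using hr
  have h2 : (r - 1) * (r + 1) = 0 := by linear_combination h1
  rcases mul_eq_zero.mp h2 with h | h
  · left
    rw [← hz, sub_eq_zero.mp h]
    simp
  · right
    rw [← hz, eq_neg_of_add_eq_zero_left h]
    ext i j
    fin_cases i <;> fin_cases j <;> simp

lemma N_mul_center (g z : SL) (hz : z ∈ Subgroup.center SL) : N (g * z) = N g := by
  rcases center_cases z hz with h | h <;> simp [N, h]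

/-- `N` on `PSL(2,ℂ)`. -/
noncomputable def NP : PSL → ℝ := Quotient.lift N (by
  intro a b hab
  have h : a⁻¹ * b ∈ Subgroup.center SL := QuotientGroup.leftRel_apply.mp hab
  have := N_mul_center a (a⁻¹ * b) h
  rw [mul_inv_cancel_left] at this
  exact this.symm)

@[simp] lemma NP_mk (g : SL) : NP (mk g) = N g := rfl

/-- The element `x` of `PSL(2,ℂ)` has a lift all of whose entries are within `ε` of those of the
identity matrix. -/
def Near (ε : ℝ) (x : PSL) : Prop :=
  ∃ γ : SL, mk γ = x ∧ ∀ i j, ‖(γ : Mat) i j - (1 : Mat) i j‖ < ε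

/-- A subgroup of `PSL(2,ℂ)` is discrete: no element other than `1` of its preimage in `SL(2,ℂ)`
lies in a suitable neighbourhood of the identity matrix. -/
def Disc (Γ : Subgroup PSL) : Prop :=
  ∃ U ∈ 𝓝 (1 : Mat), ∀ γ : SL, mk γ ∈ Γ → (γ : Mat) ∈ U → γ = 1

/-- CSA groups: every maximal abelian subgroup is malnormal. -/
def IsCSA (G : Type) [Group G] : Prop :=
  ∀ M : Subgroup G, (∀ a ∈ M, ∀ b ∈ M, a * b = b * a) →
    (∀ M' : Subgroup G, (∀ a ∈ M', ∀ b ∈ M', a * b = b * a) → M ≤ M' → M' = M) →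
    ∀ g : G, g ∉ M → ∀ a ∈ M, g * a * g⁻¹ ∈ M → a = 1

/-- The form of the CSA property that is used. -/
def ElCSA (G : Type) [Group G] : Prop :=
  ∀ a b g : G, a ≠ 1 → b ≠ 1 → a * b = b * a → a * (g * b * g⁻¹) = g * b * g⁻¹ * a → a * g = g * a

/-- A metric space is an `ℝ`-tree: it is nonempty, any two points are joined by a geodesic, and the
four point condition with constant `0` holds. -/
def IsRTree (T : Type) [MetricSpace T] : Prop :=
  Nonempty T ∧ (∀ x y : T, ∃ f : ℝ → T, f 0 = x ∧ f (dist x y) = y ∧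
    ∀ s t : ℝ, 0 ≤ s → s ≤ t → t ≤ dist x y → dist (f s) (f t) = t - s) ∧
  ∀ x y z w : T, dist x y + dist z w ≤ max (dist x z + dist y w) (dist x w + dist y z)

/-- `G` acts by isometries, without a global fixed point, on an `ℝ`-tree, and the pointwise
stabiliser of any two distinct points is abelian. -/
def SmallTreeAction (G : Type) [Group G] : Prop :=
  ∃ (T : Type) (_ : MetricSpace T) (φ : G →* (T ≃ᵢ T)), IsRTree T ∧
    (∀ x : T, ∃ g : G, φ g x ≠ x) ∧
    ∀ x y : T, x ≠ y → ∀ g h : G, φ g x = x → φ g y = y → φ h x = x → φ h y = y → g * h = h * g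

end Pool.Agent.TH38.RK
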