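import Pool.Agent.TH38.RK.Defs

/-!
# `PSL(2,ℂ)` is equationally noetherian
-/

set_option autoImplicit false

namespace Pool.Agent.TH38.RK

namespace Noeth

open MvPolynomial

variable {S : Type}

/-- The polynomial ring in the entries of generic matrices. -/
abbrev R (S : Type) := MvPolynomial (S × Fin 2 × Fin 2) ℂ

/-- The generic matrix. -/
noncomputable def gen (s : S) : Matrix (Fin 2) (Fin 2) (R S) := fun i j => X (s, i, j)

/-- The value of a word at the generic matrices. -/
noncomputable def W (L : List (S × Bool)) : Matrix (Fin 2) (Fin 2) (R S) :=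
  (L.map fun p => cond p.2 (gen p.1) (gen p.1).adjugate).prod

/-- Evaluation. -/
noncomputable def ev (g : S → SL) : R S →+* ℂ :=
  (MvPolynomial.aeval (fun v : S × Fin 2 × Fin 2 => (g v.1 : Mat) v.2.1 v.2.2)).toRingHom

lemma ev_gen (g : S → SL) (s : S) : (gen s).map (ev g) = (g s : Mat) := by
  ext i j
  simp [gen, ev, Matrix.map_apply]

lemma ev_adj (g : S → SL) (s : S) : ((gen s).adjugate).map (ev g) = ((g s)⁻¹ : SL) := by
  have h := RingHom.map_adjugate (ev g) (gen s)
  rw [RingHom.mapMatrix_apply, RingHom.mapMatrix_apply, ev_gen] at h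
  rw [h, Matrix.SpecialLinearGroup.coe_inv]

lemma ev_W (g : S → SL) (L : List (S × Bool)) :
    (W L).map (ev g) = ((FreeGroup.lift g (FreeGroup.mk L) : SL) : Mat) := by
  rw [FreeGroup.lift_mk]
  induction L with
  | nil =>
    simp only [W, List.map_nil, List.prod_nil, Matrix.SpecialLinearGroup.coe_one]
    exact Matrix.map_one _ (map_zero _) (map_one _)
  | cons p L ih =>
    simp only [W, List.map_cons, List.prod_cons, Matrix.SpecialLinearGroup.coe_mul] at ih ⊢
    rw [Matrix.map_mul, ih]
    congr 1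
    cases p.2
    · simpa using ev_adj g p.1
    · simpa using ev_gen g p.1

/-- The equations saying that a word is central. -/
noncomputable def P [DecidableEq S] (w : FreeGroup S) (k : Fin 4) : R S :=
  ![W w.toWord 0 1, W w.toWord 1 0, W w.toWord 0 0 ^ 2 - 1, W w.toWord 0 0 - W w.toWord 1 1] k

lemma mk_eq_one_iff (h : SL) : mk h = 1 ↔
    (h : Mat) 0 1 = 0 ∧ (h : Mat) 1 0 = 0 ∧ (h : Mat) 0 0 ^ 2 - 1 = 0 ∧
      (h : Mat) 0 0 - (h : Mat) 1 1 = 0 := by
  rw [show (mk h = 1 ↔ h ∈ Subgroup.center SL) from QuotientGroup.eq_one_iff h]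
  constructor
  · intro hc
    rcases center_cases h hc with h1 | h1 <;> rw [h1] <;> simp
  · rintro ⟨h1, h2, h3, h4⟩
    rw [Matrix.SpecialLinearGroup.mem_center_iff]
    refine ⟨(h : Mat) 0 0, ?_, ?_⟩
    · simpa using sub_eq_zero.mp h3
    · ext i j
      fin_cases i <;> fin_cases j
      · simp
      · simpa using h1.symm
      · simpa using h2.symm
      · simpa using sub_eq_zero.mp h4

lemma ev_P [DecidableEq S] (g : S → SL) (w : FreeGroup S) :
    (∀ k, ev g (P w k) = 0) ↔ mk (FreeGroup.lift g w) = 1 := by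
  have hW : ∀ i j, ev g (W w.toWord i j) = ((FreeGroup.lift g w : SL) : Mat) i j := by
    intro i j
    have h := congrFun (congrFun (ev_W g w.toWord) i) j
    rwa [FreeGroup.mk_toWord, Matrix.map_apply] at h
  rw [mk_eq_one_iff]
  simp only [← hW]
  constructor
  · intro h
    have h0 := h 0
    have h1 := h 1
    have h2 := h 2
    have h3 := h 3
    simp only [P] at h0 h1 h2 h3
    refine ⟨by simpa using h0, by simpa using h1, by simpa using h2, by simpa using h3⟩
  · rintro ⟨h0, h1, h2, h3⟩ k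
    fin_cases k
    · simpa [P] using h0
    · simpa [P] using h1
    · simpa [P] using h2
    · simpa [P] using h3

end Noeth

open Noeth in
/-- `PSL(2,ℂ)` is equationally noetherian. -/
theorem eq_noeth (S : Type) [Finite S] (N : Set (FreeGroup S)) :
    ∃ N₀ : Set (FreeGroup S), N₀.Finite ∧ N₀ ⊆ N ∧ ∀ ρ : FreeGroup S →* PSL,
      (∀ w ∈ N₀, ρ w = 1) → ∀ w ∈ N, ρ w = 1 := by
  classical
  let T : Set (R S) := {p | ∃ w ∈ N, ∃ k, P w k = p}
  have hfg : (Submodule.span (R S) T).FG := IsNoetherian.noetherian _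
  obtain ⟨T₀, hT₀, hspan⟩ := (Submodule.fg_span_iff_fg_span_finset_subset T).mp hfg
  have hch : ∀ p : T₀, ∃ w ∈ N, ∃ k, P w k = (p : R S) := fun p => hT₀ p.2
  choose v hv hk using hch
  refine ⟨Set.range v, Set.finite_range v, by rintro _ ⟨p, rfl⟩; exact hv p, ?_⟩
  intro ρ hρ w hw
  -- lifts of the generators
  choose g hg using fun s : S => QuotientGroup.mk_surjective (ρ (FreeGroup.of s))
  have hcomp : ∀ u : FreeGroup S, mk (FreeGroup.lift g u) = ρ u := by
    have : (QuotientGroup.mk' (Subgroup.center SL)).comp (FreeGroup.lift g) = ρ := by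
      ext s
      simpa using hg s
    intro u
    exact DFunLike.congr_fun this u
  have h0 : ∀ p ∈ Submodule.span (R S) T, ev g p = 0 := by
    intro p hp
    rw [hspan] at hp
    refine Submodule.span_induction (p := fun p _ => ev g p = 0) ?_ ?_ ?_ ?_ hp
    · intro q hq
      obtain ⟨k, hk'⟩ := hk ⟨q, hq⟩
      have h1 : ρ (v ⟨q, hq⟩) = 1 := hρ _ ⟨_, rfl⟩
      rw [← hcomp] at h1
      have h2 := (ev_P g _).mpr h1 k
      rwa [hk'] at h2
    · exact map_zero _
    · intro x y _ _ hx hy
      rw [map_add, hx, hy, add_zero]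
    · intro a x _ hx
      rw [smul_eq_mul, map_mul, hx, mul_zero]
  rw [← hcomp]
  refine (ev_P g w).mp fun k => h0 _ (Submodule.subset_span ⟨w, hw, k, rfl⟩)

end Pool.Agent.TH38.RK
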