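import Pool.Agent.TH38.RK.Defs

/-!
# Statements of the pieces
-/

set_option autoImplicit false

open Filter Topology

namespace Pool.Agent.TH38.RK

/-- Basic facts on `NP`. -/
def S_basic : Prop :=
  (∀ p : PSL, 2 ≤ NP p) ∧ (∀ p q : PSL, NP (p * q) ≤ NP p * NP q) ∧ (∀ p : PSL, NP p⁻¹ = NP p)

/-- Cartan decomposition: `g = k d k'` with `d` diagonal and `k`, `k'` preserving `N` (unitary). -/
def S_kak : Prop :=
  ∀ g : SL, ∃ (k k' d : SL) (s : ℝ), 1 ≤ s ∧ (∀ h : SL, N (k * h) = N h ∧ N (h * k) = N h) ∧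
    (∀ h : SL, N (k' * h) = N h ∧ N (h * k') = N h) ∧
    (d : Mat) = !![(s : ℂ), 0; 0, (s : ℂ)⁻¹] ∧ g = k * d * k'

/-- The four point inequality. -/
def S_ptolemy : Prop :=
  ∀ a b c d : PSL, NP (a⁻¹ * b) * NP (c⁻¹ * d) ≤
    2 * (NP (a⁻¹ * c) * NP (b⁻¹ * d) + NP (a⁻¹ * d) * NP (b⁻¹ * c))

/-- Geodesics (Cartan decomposition). -/
def S_path : Prop :=
  ∀ p : PSL, ∃ (t : ℝ) (γ : ℝ → PSL), 0 ≤ t ∧ NP (γ 0) = 2 ∧ NP (p⁻¹ * γ 1) = 2 ∧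
    NP p = Real.exp t + Real.exp (-t) ∧
    ∀ a b : ℝ, NP ((γ a)⁻¹ * γ b) = Real.exp (t * (b - a)) + Real.exp (-(t * (b - a)))

/-- Commutators of elements that almost fix two distant points. -/
def S_arc : Prop :=
  ∃ C : ℝ, 0 < C ∧ ∀ p q : PSL, ∃ m : PSL, ∀ (α β : PSL) (E ε : ℝ),
    NP (p⁻¹ * α * p) ≤ E → NP (q⁻¹ * α * q) ≤ E → NP (p⁻¹ * β * p) ≤ E →
    NP (q⁻¹ * β * q) ≤ E → C * E ^ 2 < ε * Real.sqrt (NP (p⁻¹ * q)) →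
    Near ε (m⁻¹ * (α * β * α⁻¹ * β⁻¹) * m)

/-- A Zassenhaus neighbourhood of `PSL(2,ℂ)`. -/
def S_zassenhaus : Prop :=
  ∃ ε : ℝ, 0 < ε ∧ ∀ (Γ : Subgroup PSL), Disc Γ → ∀ (m u v : PSL), u ∈ Γ → v ∈ Γ →
    Near ε (m⁻¹ * u * m) → Near ε (m⁻¹ * v * m) →
    ∀ w : PSL, w = u * v * u⁻¹ * v⁻¹ → u * w * u⁻¹ * w⁻¹ = 1

/-- The algebraic limit of a bounded sequence is discrete and faithful. -/
def S_bounded : Prop :=
  ∀ (G : Type) [Group G] (S : Finset G), Subgroup.closure (S : Set G) = ⊤ → ElCSA G →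
    (∃ a b : G, a * b ≠ b * a) → ∀ (F : Ultrafilter ℕ) (ρ : ℕ → G →* PSL),
    (∀ i, Disc (ρ i).range) → (∀ g : G, g ≠ 1 → ∀ᶠ i in (F : Filter ℕ), ρ i g ≠ 1) →
    ∀ (x : ℕ → PSL) (C : ℝ),
    (∀ᶠ i in (F : Filter ℕ), ∀ s ∈ S, NP ((x i)⁻¹ * ρ i s * x i) ≤ C) →
    ∃ ρ' : G →* PSL, Disc ρ'.range ∧ Function.Injective ρ'

/-- Sequences of points at distance `O(l i)` from the base points `x i`. -/
def Adm (F : Ultrafilter ℕ) (l : ℕ → ℝ) (x : ℕ → PSL) : Set (ℕ → PSL) :=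
  {y | ∃ C : ℝ, ∀ᶠ i in (F : Filter ℕ), Real.log (NP ((x i)⁻¹ * y i)) ≤ C * l i}

/-- The limit tree: a metric space `T` with a surjective map from the admissible sequences, with
`dist = lim log NP / l`. -/
def S_tree : Prop :=
  ∀ (F : Ultrafilter ℕ) (l : ℕ → ℝ) (x : ℕ → PSL), Tendsto l F atTop →
    ∃ (T : Type) (_ : MetricSpace T) (π : Adm F l x → T), Function.Surjective π ∧ IsRTree T ∧
      ∀ y z : Adm F l x, Tendsto (fun i => Real.log (NP ((y.1 i)⁻¹ * z.1 i)) / l i) F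
        (𝓝 (dist (π y) (π z)))

/-- The action on the limit tree. -/
def S_action : Prop :=
  ∀ (G : Type) [Group G] (S : Finset G), Subgroup.closure (S : Set G) = ⊤ →
    ∀ (F : Ultrafilter ℕ) (ρ : ℕ → G →* PSL) (l : ℕ → ℝ) (x : ℕ → PSL), Tendsto l F atTop →
    (∃ C : ℝ, ∀ᶠ i in (F : Filter ℕ), ∀ s ∈ S,
      Real.log (NP ((x i)⁻¹ * ρ i s * x i)) ≤ C * l i) →
    ∀ (T : Type) [MetricSpace T] (π : Adm F l x → T), Function.Surjective π →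
      (∀ y z : Adm F l x, Tendsto (fun i => Real.log (NP ((y.1 i)⁻¹ * z.1 i)) / l i) F
        (𝓝 (dist (π y) (π z)))) →
      ∃ φ : G →* (T ≃ᵢ T), ∀ (g : G) (y : Adm F l x), ∃ z : Adm F l x,
        (∀ i, z.1 i = ρ i g * y.1 i) ∧ φ g (π y) = π z

/-- Unbounded sequences give small actions on `ℝ`-trees. -/
def S_unbounded : Prop :=
  ∀ (G : Type) [Group G] (S : Finset G), Subgroup.closure (S : Set G) = ⊤ → ElCSA G →
    ∀ (F : Ultrafilter ℕ) (ρ : ℕ → G →* PSL),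
    (∀ i, Disc (ρ i).range) → (∀ g : G, g ≠ 1 → ∀ᶠ i in (F : Filter ℕ), ρ i g ≠ 1) →
    ∀ (l : ℕ → ℝ) (x : ℕ → PSL), Tendsto l F atTop →
    (∀ i, ∀ s ∈ S, Real.log (NP ((x i)⁻¹ * ρ i s * x i)) ≤ l i + 1) →
    (∀ i, ∀ y : PSL, ∃ s ∈ S, l i ≤ Real.log (NP (y⁻¹ * ρ i s * y))) →
    SmallTreeAction G

/-- CSA groups. -/
def S_csa : Prop := ∀ (G : Type) [Group G], IsCSA G → ElCSA G

/-- Residually Kleinian non-abelian CSA groups are fully residually Kleinian. -/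
def S_full : Prop :=
  ∀ (G : Type) [Group G], Countable G → ElCSA G → (∃ a b : G, a * b ≠ b * a) →
    (∀ g : G, g ≠ 1 → ∃ ρ : G →* PSL, Disc ρ.range ∧ ρ g ≠ 1) →
    ∃ ρ : ℕ → G →* PSL, (∀ i, Disc (ρ i).range) ∧
      ∀ g : G, g ≠ 1 → ∀ᶠ i in (atTop : Filter ℕ), ρ i g ≠ 1

/-- Assembly. -/
def S_main : Prop :=
  ∀ (G : Type) [Group G], Group.FG G → IsCSA G → (∃ a b : G, a * b ≠ b * a) →
    (∀ g : G, g ≠ 1 → ∃ ρ : G →* PSL, Disc ρ.range ∧ ρ g ≠ 1) →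
    (∃ ρ : G →* PSL, Disc ρ.range ∧ Function.Injective ρ) ∨ SmallTreeAction G

end Pool.Agent.TH38.RK
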