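import Pool.Agent.TH38.RK.Stmts

/-!
# Groups with torsion: definitions and statements
-/

set_option autoImplicit false

open Filter Topology

namespace Pool.Agent.TH38.RK

/-- The commensurator of the cyclic subgroup generated by `g`: all `x` with
`x * g ^ k * x⁻¹ = g ^ l` for some nonzero integers `k`, `l`. -/
def Com {G : Type} [Group G] (g : G) : Subgroup G where
  carrier := {x | ∃ k l : ℤ, k ≠ 0 ∧ l ≠ 0 ∧ x * g ^ k * x⁻¹ = g ^ l}
  one_mem' := ⟨1, 1, one_ne_zero, one_ne_zero, by simp⟩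
  mul_mem' := by
    rintro x y ⟨k, l, hk, hl, h⟩ ⟨k', l', hk', hl', h'⟩
    refine ⟨k' * k, l * l', mul_ne_zero hk' hk, mul_ne_zero hl hl', ?_⟩
    have h1 : y * g ^ (k' * k) * y⁻¹ = g ^ (l' * k) := by
      rw [zpow_mul, zpow_mul, ← h', conj_zpow]
    have h2 : x * g ^ (l' * k) * x⁻¹ = g ^ (l * l') := by
      rw [mul_comm l', zpow_mul, zpow_mul, ← h, conj_zpow]
    rw [← h2, ← h1]
    group
  inv_mem' := by
    rintro x ⟨k, l, hk, hl, h⟩
    refine ⟨l, k, hl, hk, ?_⟩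
    rw [← h]
    group

/-- The properties of a word hyperbolic group that is not virtually cyclic and has no nontrivial
finite normal subgroup which are used: the orders of the elements of finite order are bounded; the
commensurator of an infinite cyclic subgroup contains it with finite index; no cyclic subgroup has
finite index; every nontrivial normal subgroup contains an element of infinite order. -/
def HypLike (G : Type) [Group G] : Prop :=
  (∃ n : ℕ, 0 < n ∧ ∀ g : G, IsOfFinOrder g → g ^ n = 1) ∧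
  (∀ g : G, ¬ IsOfFinOrder g → (Subgroup.zpowers g).relIndex (Com g) ≠ 0) ∧
  (∀ g : G, (Subgroup.zpowers g).index = 0) ∧
  ∀ M : Subgroup G, M.Normal → M ≠ ⊥ → ∃ g ∈ M, ¬ IsOfFinOrder g

/-- `G` acts by isometries, without a global fixed point, on an `ℝ`-tree, and the pointwise
stabiliser of any two distinct points contains no non-abelian free group. -/
def SmallTreeAction2 (G : Type) [Group G] : Prop :=
  ∃ (T : Type) (_ : MetricSpace T) (φ : G →* (T ≃ᵢ T)), IsRTree T ∧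
    (∀ x : T, ∃ g : G, φ g x ≠ x) ∧
    ∀ x y : T, x ≠ y → ∀ a : Fin 2 → G, (∀ j, φ (a j) x = x) → (∀ j, φ (a j) y = y) →
      ¬ Function.Injective (FreeGroup.lift a)

def S_bounded2 : Prop :=
  ∀ (G : Type) [Group G] (S : Finset G), Subgroup.closure (S : Set G) = ⊤ → HypLike G →
    ∀ (F : Ultrafilter ℕ) (ρ : ℕ → G →* PSL),
    (∀ i, Disc (ρ i).range) → (∀ g : G, g ≠ 1 → ∀ᶠ i in (F : Filter ℕ), ρ i g ≠ 1) →
    ∀ (x : ℕ → PSL) (C : ℝ),
    (∀ᶠ i in (F : Filter ℕ), ∀ s ∈ S, NP ((x i)⁻¹ * ρ i s * x i) ≤ C) →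
    ∃ ρ' : G →* PSL, Disc ρ'.range ∧ Function.Injective ρ'

def S_unbounded2 : Prop :=
  ∀ (G : Type) [Group G] (S : Finset G), Subgroup.closure (S : Set G) = ⊤ → HypLike G →
    ∀ (F : Ultrafilter ℕ) (ρ : ℕ → G →* PSL),
    (∀ i, Disc (ρ i).range) → (∀ g : G, g ≠ 1 → ∀ᶠ i in (F : Filter ℕ), ρ i g ≠ 1) →
    ∀ (l : ℕ → ℝ) (x : ℕ → PSL), Tendsto l F atTop →
    (∀ i, ∀ s ∈ S, Real.log (NP ((x i)⁻¹ * ρ i s * x i)) ≤ l i + 1) →
    (∀ i, ∀ y : PSL, ∃ s ∈ S, l i ≤ Real.log (NP (y⁻¹ * ρ i s * y))) →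
    SmallTreeAction2 G

def S_full2 : Prop :=
  ∀ (G : Type) [Group G], Countable G → HypLike G →
    (∀ g : G, g ≠ 1 → ∃ ρ : G →* PSL, Disc ρ.range ∧ ρ g ≠ 1) →
    ∃ ρ : ℕ → G →* PSL, (∀ i, Disc (ρ i).range) ∧
      ∀ g : G, g ≠ 1 → ∀ᶠ i in (atTop : Filter ℕ), ρ i g ≠ 1

def S_main2 : Prop :=
  ∀ (G : Type) [Group G], Group.FG G → HypLike G →
    (∀ g : G, g ≠ 1 → ∃ ρ : G →* PSL, Disc ρ.range ∧ ρ g ≠ 1) →
    (∃ ρ : G →* PSL, Disc ρ.range ∧ Function.Injective ρ) ∨ SmallTreeAction2 G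

end Pool.Agent.TH38.RK
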