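import Pool.Agent.TH38.RK.Stmts2

/-!
# Relatively hyperbolic groups, atoroidal groups: definitions and statements
-/

set_option autoImplicit false

open Filter Topology

namespace Pool.Agent.TH38.RK

/-- Every element `g` of infinite order lies in a proper subgroup `E` without non-abelian free
subgroups that contains the centraliser of `g` and is almost malnormal: if `h` in `E` has infinite
order and `x * h * x⁻¹` lies in `E`, then so does `x`. -/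
def ElemSub (G : Type) [Group G] : Prop :=
  ∀ g : G, ¬ IsOfFinOrder g → ∃ E : Subgroup G, g ∈ E ∧ E ≠ ⊤ ∧
    (∀ x : G, x * g = g * x → x ∈ E) ∧
    (∀ h ∈ E, ¬ IsOfFinOrder h → ∀ x : G, x * h * x⁻¹ ∈ E → x ∈ E) ∧
    ∀ a : Fin 2 → G, (∀ j, a j ∈ E) → ¬ Function.Injective (FreeGroup.lift a)

/-- The properties of non-elementary relatively hyperbolic groups with virtually abelian peripheral
subgroups and without nontrivial finite normal subgroups which are used. -/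
def RelHypLike (G : Type) [Group G] : Prop :=
  (∃ n : ℕ, 0 < n ∧ ∀ g : G, IsOfFinOrder g → g ^ n = 1) ∧ ElemSub G ∧
  ∀ M : Subgroup G, M.Normal → M ≠ ⊥ → ∃ g ∈ M, ¬ IsOfFinOrder g

def S_bounded3 : Prop :=
  ∀ (G : Type) [Group G] (S : Finset G), Subgroup.closure (S : Set G) = ⊤ → RelHypLike G →
    ∀ (F : Ultrafilter ℕ) (ρ : ℕ → G →* PSL),
    (∀ i, Disc (ρ i).range) → (∀ g : G, g ≠ 1 → ∀ᶠ i in (F : Filter ℕ), ρ i g ≠ 1) →
    ∀ (x : ℕ → PSL) (C : ℝ),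
    (∀ᶠ i in (F : Filter ℕ), ∀ s ∈ S, NP ((x i)⁻¹ * ρ i s * x i) ≤ C) →
    ∃ ρ' : G →* PSL, Disc ρ'.range ∧ Function.Injective ρ'

def S_unbounded3 : Prop :=
  ∀ (G : Type) [Group G] (S : Finset G), Subgroup.closure (S : Set G) = ⊤ → RelHypLike G →
    ∀ (F : Ultrafilter ℕ) (ρ : ℕ → G →* PSL),
    (∀ i, Disc (ρ i).range) → (∀ g : G, g ≠ 1 → ∀ᶠ i in (F : Filter ℕ), ρ i g ≠ 1) →
    ∀ (l : ℕ → ℝ) (x : ℕ → PSL), Tendsto l F atTop →
    (∀ i, ∀ s ∈ S, Real.log (NP ((x i)⁻¹ * ρ i s * x i)) ≤ l i + 1) →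
    (∀ i, ∀ y : PSL, ∃ s ∈ S, l i ≤ Real.log (NP (y⁻¹ * ρ i s * y))) →
    SmallTreeAction2 G

def S_full3 : Prop :=
  ∀ (G : Type) [Group G], Countable G → RelHypLike G → (∃ g : G, g ≠ 1) →
    (∀ g : G, g ≠ 1 → ∃ ρ : G →* PSL, Disc ρ.range ∧ ρ g ≠ 1) →
    ∃ ρ : ℕ → G →* PSL, (∀ i, Disc (ρ i).range) ∧
      ∀ g : G, g ≠ 1 → ∀ᶠ i in (atTop : Filter ℕ), ρ i g ≠ 1

/-- `G` has no subgroup isomorphic to `ℤ²`. -/
def NoZ2 (G : Type) [Group G] : Prop :=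
  ¬ ∃ f : Multiplicative (ℤ × ℤ) →* G, Function.Injective f

/-- Centralisers in `PSL(2,ℂ)` of elements which are not involutions are abelian. -/
def S_cent : Prop :=
  ∀ a b c : PSL, b * b ≠ 1 → a * b = b * a → c * b = b * c → a * c = c * a

/-- In a discrete subgroup of `PSL(2,ℂ)`: if `c * b * c⁻¹` commutes with `b` then `c` commutes with
`b` or has finite order dividing `60`. -/
def S_norm : Prop :=
  ∀ Γ : Subgroup PSL, Disc Γ → ∀ b ∈ Γ, ∀ c ∈ Γ, b * b ≠ 1 →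
    b * (c * b * c⁻¹) = c * b * c⁻¹ * b → b * c = c * b ∨ c ^ 60 = 1

/-- Torsion-free groups without `ℤ²`: residually Kleinian implies fully residually Kleinian. -/
def S_full4 : Prop :=
  ∀ (G : Type) [Group G], Countable G → (∀ g : G, g ≠ 1 → ¬ IsOfFinOrder g) → NoZ2 G →
    (∃ g : G, g ≠ 1) →
    (∀ g : G, g ≠ 1 → ∃ ρ : G →* PSL, Disc ρ.range ∧ ρ g ≠ 1) →
    ∃ ρ : ℕ → G →* PSL, (∀ i, Disc (ρ i).range) ∧
      ∀ g : G, g ≠ 1 → ∀ᶠ i in (atTop : Filter ℕ), ρ i g ≠ 1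

end Pool.Agent.TH38.RK
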